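import Pool.Agent.Lib.MP_fb3619_al.H8.NoiB

/-! A nonabelian group of order `pr` does not act fixed point freely on a commutative group. -/

set_option autoImplicit false

namespace Pool.Agent.FourGp.H90

open Finset
open scoped IsMulCommutative
open Pool.Agent.FourGp.H8

/-- sums of powers -/
theorem key_sum {A : Type*} [AddCommGroup A] {n : ℕ} (Z : AddMonoid.End A) (hZ : Z ^ n = 1)
    (hf : ∀ t : A, Z t = t → t = 0) : ∑ i ∈ range n, Z ^ i = 0 := by
  ext t
  have h1 : (Z - 1) * ∑ i ∈ range n, Z ^ i = 0 := by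
    rw [mul_geom_sum, hZ, sub_self]
  have h2 := DFunLike.congr_fun h1 t
  have h3 : Z ((∑ i ∈ range n, Z ^ i) t) - (∑ i ∈ range n, Z ^ i) t = 0 := h2
  exact hf _ (sub_eq_zero.1 h3)

/-- the exponents `1 + m + ... + m ^ (i - 1)` -/
def si (m i : ℕ) : ℕ := ∑ j ∈ range i, m ^ j

theorem si_succ (m i : ℕ) : si m (i + 1) = 1 + m * si m i := by
  rw [si, si, Finset.sum_range_succ', pow_zero, add_comm, Finset.mul_sum]
  congr 1
  exact Finset.sum_congr rfl (fun j _ => pow_succ' m j)

theorem pw_conj {Q : Type*} [Monoid Q] {z w : Q} {m : ℕ} (h : z * w = w ^ m * z) (x : ℕ) :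
    z * w ^ x = w ^ (m * x) * z := by
  induction x with
  | zero => simp
  | succ x ih =>
    rw [pow_succ, ← mul_assoc, ih, mul_assoc, h, ← mul_assoc, ← pow_add, Nat.mul_succ]

theorem pw_k {Q : Type*} [Monoid Q] {z w : Q} {m : ℕ} (h : z * w = w ^ m * z) (k i : ℕ) :
    (w ^ k * z) ^ i = w ^ (k * si m i) * z ^ i := by
  induction i with
  | zero => simp [si]
  | succ i ih =>
    rw [pow_succ', ih, si_succ]
    calc w ^ k * z * (w ^ (k * si m i) * z ^ i) = w ^ k * (z * w ^ (k * si m i)) * z ^ i := by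
          simp only [mul_assoc]
      _ = w ^ k * (w ^ (m * (k * si m i)) * z) * z ^ i := by rw [pw_conj h]
      _ = (w ^ k * w ^ (m * (k * si m i))) * (z * z ^ i) := by simp only [mul_assoc]
      _ = w ^ (k * (1 + m * si m i)) * z ^ (i + 1) := by
          rw [← pow_add, ← pow_succ']
          congr 2
          ring

/-- ring form -/
theorem ringPR {A : Type*} [AddCommGroup A] {X Y : AddMonoid.End A} {m p r : ℕ}
    (hp : 0 < p) (h : X * Y = Y ^ m * X)
    (hN : ∀ k < r, ∑ i ∈ range p, (Y ^ k * X) ^ i = 0)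
    (hM : ∀ i < p, 0 < i → ∑ k ∈ range r, (Y ^ si m i) ^ k = 0) :
    (r : AddMonoid.End A) = 0 := by
  have h1 : ∑ k ∈ range r, ∑ i ∈ range p, (Y ^ k * X) ^ i = 0 :=
    Finset.sum_eq_zero (fun k hk => hN k (Finset.mem_range.1 hk))
  rw [Finset.sum_comm] at h1
  have h2 : ∀ i ∈ range p, ∑ k ∈ range r, (Y ^ k * X) ^ i =
      (∑ k ∈ range r, (Y ^ si m i) ^ k) * X ^ i := by
    intro i _
    rw [Finset.sum_mul]
    refine Finset.sum_congr rfl (fun k _ => ?_)
    rw [pw_k h, ← pow_mul, mul_comm k]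
  rw [Finset.sum_congr rfl h2] at h1
  obtain ⟨n, rfl⟩ : ∃ n, p = n + 1 := ⟨p - 1, by omega⟩
  rw [Finset.sum_range_succ'] at h1
  have h3 : ∑ i ∈ range n, (∑ k ∈ range r, (Y ^ si m (i + 1)) ^ k) * X ^ (i + 1) = 0 := by
    refine Finset.sum_eq_zero (fun i hi => ?_)
    rw [hM (i + 1) (by have := Finset.mem_range.1 hi; omega) (by omega), zero_mul]
  rw [h3, zero_add] at h1
  simpa [si] using h1

/-- endomorphism form -/
theorem endPR {A : Type*} [AddCommGroup A] {X Y : AddMonoid.End A} {m p r : ℕ}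
    (hp : 0 < p) (hr : r.Prime) (h : X * Y = Y ^ m * X)
    (hX : ∀ k < r, (Y ^ k * X) ^ p = 1) (hY : Y ^ r = 1)
    (fX : ∀ k < r, ∀ t : A, (Y ^ k * X) t = t → t = 0)
    (fY : ∀ i < p, 0 < i → ∀ t : A, (Y ^ si m i) t = t → t = 0)
    (f1 : ∀ t : A, Y t = t → t = 0) (t : A) : t = 0 := by
  have h0 : (r : AddMonoid.End A) = 0 := by
    refine ringPR hp h (fun k hk => key_sum _ (hX k hk) (fX k hk))
      (fun i hi hi0 => key_sum _ ?_ (fY i hi hi0))
    rw [← pow_mul, mul_comm, pow_mul, hY, one_pow]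
  obtain ⟨q, hq⟩ := Commute.exists_add_pow_prime_eq hr (Commute.one_right (Y - 1))
  rw [sub_add_cancel, hY, one_pow, h0, zero_mul, zero_mul, zero_mul, add_zero] at hq
  have hnil : (Y - 1) ^ r = 0 := (add_eq_right.1 hq.symm)
  have hinj : ∀ n : ℕ, ∀ t : A, ((Y - 1) ^ n) t = 0 → t = 0 := by
    intro n
    induction n with
    | zero => intro t ht; simpa using ht
    | succ n ih =>
      intro t ht
      rw [pow_succ'] at ht
      have h1 : Y (((Y - 1) ^ n) t) - ((Y - 1) ^ n) t = 0 := ht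
      exact ih t (f1 _ (sub_eq_zero.1 h1))
  exact hinj r t (by rw [hnil]; rfl)

theorem pw_i {Q : Type*} [Monoid Q] {z w : Q} {m : ℕ} (h : z * w = w ^ m * z) (i : ℕ) :
    z ^ i * w = w ^ (m ^ i) * z ^ i := by
  induction i with
  | zero => simp
  | succ i ih =>
    calc z ^ (i + 1) * w = z * (z ^ i * w) := by rw [pow_succ', mul_assoc]
      _ = (z * w ^ (m ^ i)) * z ^ i := by rw [ih, mul_assoc]
      _ = w ^ (m * m ^ i) * z * z ^ i := by rw [pw_conj h]
      _ = w ^ (m ^ (i + 1)) * z ^ (i + 1) := by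
          rw [mul_assoc, ← pow_succ', ← pow_succ']

theorem si_succ' (m i : ℕ) : si m (i + 1) = si m i + m ^ i := by
  rw [si, Finset.sum_range_succ, si]

/-- a nonabelian group of order `pr` does not act fixed point freely -/
theorem pr_gen {G : Type*} [Group G] (S : Subgroup G) (hS : ∀ s ∈ S, ∀ t ∈ S, s * t = t * s)
    {z w : G} (hz : ∀ t ∈ S, z * t * z⁻¹ ∈ S) (hw : ∀ t ∈ S, w * t * w⁻¹ ∈ S) {p r : ℕ}
    (hp : p.Prime) (hr : r.Prime) (hzp : z ^ p = 1) (hwr : w ^ r = 1) {m : ℕ}
    (h : z * w = w ^ m * z) (hne : z * w ≠ w * z)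
    (ff : ∀ y ∈ Subgroup.closure {z, w}, y ≠ 1 → ∀ t ∈ S, y * t = t * y → t = 1) (t : G)
    (ht : t ∈ S) : t = 1 := by
  have : Fact p.Prime := ⟨hp⟩
  have : Fact r.Prime := ⟨hr⟩
  have mz : z ∈ Subgroup.closure {z, w} := Subgroup.subset_closure (Or.inl rfl)
  have mw : w ∈ Subgroup.closure {z, w} := Subgroup.subset_closure (Or.inr rfl)
  have hw1 : w ≠ 1 := by
    intro e
    apply hne
    rw [e, mul_one, one_mul]
  have hz1 : z ≠ 1 := by
    intro e
    apply hne
    rw [e, mul_one, one_mul]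
  have ow : orderOf w = r := orderOf_eq_prime hwr hw1
  have oz : orderOf z = p := orderOf_eq_prime hzp hz1
  have A1 : w ^ m ≠ w := by
    intro e
    apply hne
    rw [h, e]
  have A2 : ∀ k : ℕ, w ^ k * z ≠ 1 := by
    intro k e
    apply hne
    have e1 : z = (w ^ k)⁻¹ := eq_inv_of_mul_eq_one_right e
    have e2 : Commute w (w ^ k)⁻¹ := ((Commute.refl w).pow_right k).inv_right
    rw [e1]
    exact e2.symm.eq
  have A3 : ∀ i < p, 0 < i → w ^ si m i ≠ 1 := by
    intro i hi hi0 e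
    have e1 : w ^ (1 + m * si m i) = w := by
      rw [pow_add, pow_one, mul_comm m, pow_mul, e, one_pow, mul_one]
    have e2 : w ^ (si m i + m ^ i) = w ^ (m ^ i) := by
      rw [pow_add, e, one_mul]
    have e3 : w ^ (m ^ i) = w := by
      rw [← e2, ← si_succ', si_succ, e1]
    have e4 : z ^ i * w = w * z ^ i := by
      rw [pw_i h, e3]
    have e5 : i.Coprime (orderOf z) := by
      rw [oz, Nat.coprime_comm]
      rw [hp.coprime_iff_not_dvd]
      intro hd
      exact absurd (Nat.le_of_dvd hi0 hd) (by omega)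
    obtain ⟨j, hj⟩ := exists_pow_eq_self_of_coprime e5
    apply hne
    have e6 : Commute ((z ^ i) ^ j) w := (show Commute (z ^ i) w from e4).pow_left j
    rw [hj] at e6
    exact e6.eq
  have A4 : w ^ si m p = 1 := by
    by_contra hu
    set u := w ^ si m p with hu'
    have e1 : z ^ p * w = w ^ (m ^ p) * z ^ p := pw_i h p
    rw [hzp, one_mul, mul_one] at e1
    have e2 : w ^ (1 + m * si m p) = w ^ (si m p + m ^ p) := by
      rw [← si_succ', si_succ]
    rw [pow_add, pow_one, pow_add, ← e1, mul_comm m, pow_mul, ← hu'] at e2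
    have e3 : w * u = u * w := ((Commute.refl w).pow_right _).eq
    have e4 : w * u ^ m = w * u := by rw [e2, e3]
    have e5 : u ^ m = u := mul_left_cancel e4
    -- `w` is a power of `u`
    have e6 : (si m p).Coprime (orderOf w) := by
      rw [ow, Nat.coprime_comm, hr.coprime_iff_not_dvd]
      rintro ⟨d, hd⟩
      apply hu
      rw [hu', hd, pow_mul, hwr, one_pow]
    obtain ⟨j, hj⟩ := exists_pow_eq_self_of_coprime e6
    apply A1
    have e7 : (u ^ j) ^ m = u ^ j := by rw [← pow_mul, mul_comm, pow_mul, e5]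
    rw [← hu'] at hj
    rw [hj] at e7
    exact e7
  have A5 : ∀ k, (w ^ k * z) ^ p = 1 := by
    intro k
    rw [pw_k h, hzp, mul_one, mul_comm, pow_mul, A4, one_pow]
  have : IsMulCommutative S := ⟨⟨fun a b => Subtype.ext (hS a.1 a.2 b.1 b.2)⟩⟩
  set z' : Stab S := ⟨z, hz⟩ with hz'
  set w' : Stab S := ⟨w, hw⟩ with hw'
  have e1 : z' * w' = w' ^ m * z' := Subtype.ext (by
    show z * w = ((w' ^ m : Stab S) : G) * z
    rw [SubmonoidClass.coe_pow, h])
  have e3 : w' ^ r = 1 := Subtype.ext (by rw [SubmonoidClass.coe_pow]; exact hwr)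
  have hff : ∀ y : Stab S, y.1 ∈ Subgroup.closure {z, w} → y.1 ≠ 1 →
      ∀ s : Additive S, cjA S y s = s → s = 0 := by
    intro y hy hy1 s hs
    have h1 := cjA_fix S y (Additive.toMul s) hs
    have h2 := ff y.1 hy hy1 _ (Additive.toMul s).2 h1
    apply Additive.toMul.injective
    exact Subtype.ext h2
  have hc : cjA S z' * cjA S w' = cjA S w' ^ m * cjA S z' := by
    rw [← map_mul, ← map_pow, ← map_mul, e1]
  have keyf := endPR (A := Additive S) (X := cjA S z') (Y := cjA S w') (m := m) (p := p) (r := r)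
    hp.pos hr hc
    (fun k _ => by
      rw [← map_pow, ← map_mul, ← map_pow]
      have : (w' ^ k * z') ^ p = 1 := Subtype.ext (by
        show (((w' ^ k * z') ^ p : Stab S) : G) = 1
        rw [SubmonoidClass.coe_pow]
        show (((w' ^ k : Stab S) : G) * z) ^ p = 1
        rw [SubmonoidClass.coe_pow]
        exact A5 k)
      rw [this, map_one])
    (by rw [← map_pow, e3, map_one])
    (fun k _ s hs => by
      rw [← map_pow, ← map_mul] at hs
      refine hff _ ?_ ?_ s hs
      · show ((w' ^ k : Stab S) : G) * z ∈ _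
        rw [SubmonoidClass.coe_pow]
        exact Subgroup.mul_mem _ (Subgroup.pow_mem _ mw k) mz
      · show ((w' ^ k : Stab S) : G) * z ≠ 1
        rw [SubmonoidClass.coe_pow]
        exact A2 k)
    (fun i hi hi0 s hs => by
      rw [← map_pow] at hs
      refine hff _ ?_ ?_ s hs
      · rw [SubmonoidClass.coe_pow]
        exact Subgroup.pow_mem _ mw _
      · rw [SubmonoidClass.coe_pow]
        exact A3 i hi hi0)
    (fun s hs => hff _ mw hw1 s hs)
    (Additive.ofMul (⟨t, ht⟩ : S))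
  exact congrArg (fun s => ((Additive.toMul s : S) : G)) keyf

end Pool.Agent.FourGp.H90
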