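import Pool.Agent.Lib.MP_fb3619_al.H90.S0
import Pool.Agent.Lib.MP_fb3619_al.ZT.Tr

/-! (U1) and the construction of `Act` and `Dat` (finding 4602, USE). -/

namespace FbZ

open Subgroup
open scoped commutatorElement

universe u

set_option linter.unusedSectionVars false

variable {M : Type u} [Group M] [Finite M] {s g : M ≃* M}

/-- `|M| = |N| |I|` -/
theorem card_NI (odd : Odd (Nat.card M)) (ss : ∀ x, s (s x) = x) :
    Nat.card M = Nat.card (Nn s) * Nat.card {x : M // s x = x⁻¹} := by
  rw [← Nat.card_prod]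
  symm
  apply Nat.card_congr
  refine Equiv.ofBijective (fun a : Nn s × {x : M // s x = x⁻¹} => (a.1 : M) * a.2.1) ⟨?_, ?_⟩
  · rintro ⟨⟨n, hn⟩, ⟨y, hy⟩⟩ ⟨⟨n', hn'⟩, ⟨y', hy'⟩⟩ h
    have h1 : n * y = n' * y' := h
    have hn1 : s n = n := hn
    have hn2 : s n' = n' := hn'
    have h2 : n * y⁻¹ = n' * y'⁻¹ := by
      have := congrArg s h1
      rw [map_mul, map_mul, hn1, hn2, hy, hy'] at this
      exact this
    have h3 : y * y = y' * y' := by
      calc y * y = (n * y⁻¹)⁻¹ * (n * y) := by group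
        _ = (n' * y'⁻¹)⁻¹ * (n' * y') := by rw [h1, h2]
        _ = y' * y' := by group
    have h4 : y = y' := sq_inj odd h3
    subst h4
    have h5 : n = n' := mul_right_cancel h1
    subst h5
    rfl
  · intro x
    obtain ⟨n, -, y, -, hn, hy, rfl⟩ := decomp odd ss ⊤ (fun x _ => mem_top (s x)) (mem_top x)
    exact ⟨(⟨n, hn⟩, ⟨y, hy⟩), rfl⟩

/-- `|I| ≡ 1` -/
theorem card_I {l : ℕ} (lp : l.Prime) (gl : ∀ x, (⇑g)^[l] x = x)
    (sg : ∀ x, s (g x) = g (s x)) (ff : ∀ x, s x = x⁻¹ → g x = x → x = 1) :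
    ¬ l ∣ Nat.card {x : M // s x = x⁻¹} := by
  let f : {x : M // s x = x⁻¹} → {x : M // s x = x⁻¹} :=
    fun x => ⟨g x.1, by rw [sg, x.2, map_inv]⟩
  have hf : ∀ k : ℕ, ∀ x, (f^[k] x).1 = (⇑g)^[k] x.1 := by
    intro k
    induction k with
    | zero => intro x; rfl
    | succ k ih => intro x; rw [Function.iterate_succ_apply, Function.iterate_succ_apply, ih]
  have h1 := fpc lp f (fun x => Subtype.ext (by rw [hf, gl]))
  have h2 : Nat.card {x // f x = x} = 1 := by
    rw [Nat.card_eq_one_iff_unique]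
    constructor
    · constructor
      intro a b
      have key : ∀ a : {x // f x = x}, a.1.1 = 1 := by
        rintro ⟨⟨x, hx⟩, h⟩
        exact ff x hx (congrArg Subtype.val h)
      exact Subtype.ext (Subtype.ext ((key a).trans (key b).symm))
    · exact ⟨⟨⟨1, by rw [map_one, _root_.inv_one]⟩, Subtype.ext (map_one g)⟩⟩
  rw [h2] at h1
  intro h3
  have h4 : 1 ≡ 0 [MOD l] := h1.symm.trans ((Nat.modEq_zero_iff_dvd).2 h3)
  exact lp.one_lt.ne' (Nat.dvd_one.1 ((Nat.modEq_zero_iff_dvd).1 h4))

/-- fixed elements are in the derived subgroup -/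
theorem fix_comm (odd : Odd (Nat.card M)) (gen : closure {x : M | s x = x⁻¹} = ⊤) {z : M}
    (hz : s z = z) : z ∈ commutator M := by
  let f : M →* Abelianization M :=
    { toFun := fun m => Abelianization.of (s m) * Abelianization.of m
      map_one' := by rw [map_one, map_one, one_mul]
      map_mul' := by
        intro a b
        rw [map_mul, map_mul, map_mul]
        exact mul_mul_mul_comm _ _ _ _ }
  have h1 : f = 1 := by
    have h2 : (⊤ : Subgroup M) ≤ f.ker := by
      rw [← gen, closure_le]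
      intro x hx
      show Abelianization.of (s x) * Abelianization.of x = 1
      rw [show s x = x⁻¹ from hx, ← map_mul, inv_mul_cancel, map_one]
    ext x
    exact h2 (mem_top x)
  have h3 : Abelianization.of (z * z) = 1 := by
    have := DFunLike.congr_fun h1 z
    have e : f z = Abelianization.of (s z) * Abelianization.of z := rfl
    rw [e, hz, ← map_mul] at this
    exact this
  have h4 : z * z ∈ commutator M := by
    rw [← Abelianization.ker_of]
    exact h3
  have h5 := rt_mem (M := M) h4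
  rw [rt_sq odd] at h5
  exact h5

/-- (U1) -/
theorem u1 {M : Type u} [Group M] [Finite M] (s g : M ≃* M) (l : ℕ) (odd : Odd (Nat.card M))
    (ss : ∀ x, s (s x) = x) (gl : ∀ x, (⇑g)^[l] x = x) (lp : l.Prime)
    (sg : ∀ x, s (g x) = g (s x))
    (ff : ∀ x, s x = x⁻¹ → g x = x → x = 1)
    (gen : closure {x : M | s x = x⁻¹} = ⊤)
    (cyc : ∀ T : Subgroup M, T ≤ Nn s → IsPGroup l T → IsCyclic T)
    (least : ∀ r, r.Prime → r ∣ Nat.card (Nn s) → l ≤ r) : ¬ l ∣ Nat.card (Nn s) := by
  intro hl
  have : Fact l.Prime := ⟨lp⟩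
  have hmin : (Nat.card (Nn s)).minFac = l := by
    apply le_antisymm
    · exact Nat.minFac_le_of_dvd lp.two_le hl
    · apply least _ (Nat.minFac_prime ?_) (Nat.minFac_dvd _)
      intro h
      rw [h] at hl
      exact lp.one_lt.ne' (Nat.dvd_one.1 hl)
  obtain ⟨P⟩ := (inferInstance : Nonempty (Sylow l (Nn s)))
  set Q : Subgroup M := (P : Subgroup (Nn s)).map (Nn s).subtype with hQ
  have hQN : Q ≤ Nn s := map_subtype_le _
  have hQp : IsPGroup l Q := P.2.map _
  have hQc : IsCyclic Q := cyc Q hQN hQp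
  have hPc : IsCyclic P := by
    let e : P →* Q :=
      { toFun := fun a => ⟨a.1.1, ⟨a.1, a.2, rfl⟩⟩
        map_one' := rfl
        map_mul' := fun _ _ => rfl }
    refine isCyclic_of_injective e ?_
    intro a b hab
    have := congrArg Subtype.val hab
    exact Subtype.ext (Subtype.ext this)
  have hNC := hPc.normalizer_le_centralizer hmin
  -- `Q` is a Sylow subgroup of `M`
  have hI := card_I (s := s) (g := g) lp gl sg ff
  have hQcard : Nat.card Q = l ^ (Nat.card M).factorization l := by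
    have h1 : Nat.card Q = Nat.card P := card_mp (Nn s) P
    rw [h1, P.card_eq_multiplicity, card_NI odd ss,
      Nat.factorization_mul Nat.card_pos.ne' (by
        intro h
        rw [h] at hI
        exact hI (dvd_zero l)), Finsupp.add_apply,
      Nat.factorization_eq_zero_of_not_dvd hI, add_zero]
  let R : Sylow l M := Sylow.ofCard Q hQcard
  have hR : (R : Subgroup M) = Q := rfl
  -- normaliser
  have hQs : ∀ x ∈ Q, s x ∈ Q := by
    intro x hx
    rw [show s x = x from hQN hx]
    exact hx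
  have hnc : normalizer (Q : Set M) ≤ centralizer (Q : Set M) := by
    intro x hx
    obtain ⟨n, hn, y, hy, h1, h2, rfl⟩ := decomp odd ss (normalizer (Q : Set M))
      (nrm_inv (by norm_num) (f := s) (r := 2) ss hQs) hx
    apply mul_mem
    · rw [mem_centralizer_iff]
      rintro _ ⟨a, ha, rfl⟩
      have h3 : (⟨n, h1⟩ : Nn s) ∈ normalizer ((P : Subgroup (Nn s)) : Set (Nn s)) := by
        rw [mem_normalizer_iff]
        intro t
        have h4 := mem_normalizer_iff.1 hn (t : M)
        have h5 : ∀ t : Nn s, (t : M) ∈ Q ↔ t ∈ (P : Subgroup (Nn s)) := by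
          intro t
          constructor
          · rintro ⟨b, hb, hbt⟩
            have : b = t := Subtype.ext hbt
            rw [← this]
            exact hb
          · intro h
            exact ⟨t, h, rfl⟩
        rw [← h5, h4, ← h5]
        exact Iff.rfl
      have h6 := hNC h3
      exact congrArg Subtype.val (mem_centralizer_iff.1 h6 a ha)
    · rw [mem_centralizer_iff]
      intro t ht
      have h3 : y * t * y⁻¹ ∈ Q := (mem_normalizer_iff.1 hy t).1 ht
      have h4 : s (y * t * y⁻¹) = y * t * y⁻¹ := hQN h3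
      rw [map_mul, map_mul, map_inv, show s t = t from hQN ht, h2, inv_inv] at h4
      have h5 : (y * y) * t = t * (y * y) := by
        calc (y * y) * t = y * (y * t * y⁻¹) * y := by group
          _ = y * (y⁻¹ * t * y) * y := by rw [h4]
          _ = t * (y * y) := by group
      exact (sq_comm odd h5).symm
  -- an element of order `l`
  have hlQ : l ∣ Nat.card Q := by
    have h1 : Nat.card Q = Nat.card P := card_mp (Nn s) P
    rw [h1]
    exact P.dvd_card_of_dvd_card hl
  obtain ⟨u, hu⟩ := exists_prime_orderOf_dvd_card' l hlQ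
  have hul : (u : M) ^ l = 1 := by
    have := pow_orderOf_eq_one u
    rw [hu] at this
    exact congrArg Subtype.val this
  have hu1 : (u : M) ≠ 1 := by
    intro h
    have : u = 1 := Subtype.ext h
    rw [this, orderOf_one] at hu
    exact lp.one_lt.ne hu
  have hcomm : ∀ a ∈ Q, ∀ b ∈ Q, a * b = b * a := by
    intro a ha b hb
    exact congrArg Subtype.val (isMulCommutative_iff.1 hQc.commutative ⟨a, ha⟩ ⟨b, hb⟩)
  refine tr_proof M l u Q ⊥ lp bot_le ?_ ?_ u.2 ?_ hul R.not_dvd_index ?_
    (fix_comm odd gen (hQN u.2))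
  · intro x _ y hy
    rw [mem_bot] at hy ⊢
    rw [hy]; group
  · intro a ha b hb
    rw [mem_bot]
    exact commutatorElement_eq_one_iff_mul_comm.2 (hcomm a ha b hb)
  · rw [mem_bot]
    exact hu1
  · intro k m hk
    exact MonoidHom.transferSylow_eq_pow_aux R hnc u.1 u.2 k m hk

/-- (U2), first part: the hypotheses of Theorem Z -/
theorem act_of {M : Type u} [Group M] [Finite M] (s g : M ≃* M) (q : ℕ)
    (odd : Odd (Nat.card M)) (ss : ∀ x, s (s x) = x) (gq : ∀ x, (⇑g)^[q] x = x) (qp : q.Prime)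
    (sg : ∀ x, s (g x) = g (s x)) (fx : ∀ x, s x = x → g x = x)
    (ff : ∀ x, s x = x⁻¹ → g x = x → x = 1) (hq : ¬ q ∣ Nat.card (Nn s)) : Act s g q where
  odd := odd
  ss := ss
  gq := gq
  sg := sg
  qp := qp
  qn := by
    rw [card_NI odd ss, qp.dvd_mul]
    rintro (h | h)
    · exact hq h
    · exact card_I (s := s) (g := g) qp gq sg ff h
  fx := by
    intro x
    refine ⟨fx x, fun h => ?_⟩
    obtain ⟨n, -, y, -, h1, h2, rfl⟩ :=
      decomp odd ss ⊤ (fun x _ => mem_top (s x)) (mem_top x)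
    rw [map_mul, fx n h1] at h
    have h3 := ff y h2 (mul_left_cancel h)
    rw [h3, mul_one, h1]

/-- THEOREM Z in the form in which it is used: `u` has prime order `p` -/
theorem dat_of {M : Type u} [Group M] [Finite M] (s g : M ≃* M) (p q : ℕ) (z : M)
    (odd : Odd (Nat.card M)) (ss : ∀ x, s (s x) = x) (gq : ∀ x, (⇑g)^[q] x = x) (qp : q.Prime)
    (sg : ∀ x, s (g x) = g (s x)) (fx : ∀ x, s x = x → g x = x)
    (ff : ∀ x, s x = x⁻¹ → g x = x → x = 1) (hq : ¬ q ∣ Nat.card (Nn s))
    (gen : closure {x : M | s x = x⁻¹} = ⊤) (pp : p.Prime) (p2 : p ≠ 2) (pq : p < q)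
    (sz : s z = z) (zp : z ^ p = 1) (z1 : z ≠ 1) (zc : ∀ n : M, s n = n → n * z = z * n)
    (cyc : ∀ T : Subgroup M, T ≤ Nn s → IsPGroup p T → IsCyclic T) : Dat M s g p q z :=
  ⟨act_of s g q odd ss gq qp sg fx ff hq, gen, pp, p2, pq, sz, zp, z1, zc, cyc⟩

end FbZ
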