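import Mathlib

/-! In a Z-group in which elements of orders `p` and `r` commute when the second is normalised by
the first, the elements of order `p` (the least prime) are central. -/

set_option autoImplicit false

namespace Pool.Agent.FourGp.H90

open Subgroup
open scoped commutatorElement

theorem conj_cyc {N : Type*} [Group N] [Finite N] (C : Subgroup N) [hN : C.Normal]
    [hC : IsCyclic C] (n : N) : ∃ m : ℕ, ∀ x ∈ C, n * x * n⁻¹ = x ^ m := by
  obtain ⟨c, hc⟩ := hC.exists_generator
  have h1 : n * c * n⁻¹ ∈ C := hN.conj_mem c c.2 n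
  obtain ⟨m, hm⟩ := mem_powers_iff_mem_zpowers.2 (hc ⟨_, h1⟩)
  have hm' : (c : N) ^ m = n * c * n⁻¹ := congrArg Subtype.val hm
  refine ⟨m, fun x hx => ?_⟩
  obtain ⟨k, hk⟩ := mem_powers_iff_mem_zpowers.2 (hc ⟨x, hx⟩)
  have hk' : (c : N) ^ k = x := congrArg Subtype.val hk
  rw [← hk', ← conj_pow, ← hm', ← pow_mul, ← pow_mul, mul_comm]

theorem zcen {N : Type*} [Group N] [Finite N] [IsZGroup N] {p : ℕ} (pp : p.Prime)
    (least : ∀ r, r.Prime → r ∣ Nat.card N → p ≤ r)
    (pr : ∀ (r : ℕ) (z w : N) (m : ℕ), r.Prime → r ≠ p → z ^ p = 1 → w ^ r = 1 →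
      z * w = w ^ m * z → z * w = w * z) {z : N} (hz : z ^ p = 1) (n : N) : n * z = z * n := by
  have : Fact p.Prime := ⟨pp⟩
  set C := commutator N with hCd
  have hC : IsCyclic C := IsZGroup.isCyclic_commutator N
  have hcop : (Nat.card C).Coprime C.index := IsZGroup.coprime_commutator_index N
  have hCc : ∀ x ∈ C, ∀ y ∈ C, x * y = y * x := by
    intro x hx y hy
    exact congrArg Subtype.val (isMulCommutative_iff.1 hC.commutative ⟨x, hx⟩ ⟨y, hy⟩)
  -- step 0
  have s0 : z ∉ C → ¬ p ∣ Nat.card C := by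
    intro hzC hp
    apply hzC
    have h1 : ((z : N) : N ⧸ C) ^ p = 1 := by
      rw [← QuotientGroup.mk_pow, hz]; rfl
    have h2 : orderOf ((z : N) : N ⧸ C) ∣ p := orderOf_dvd_of_pow_eq_one h1
    have h3 : orderOf ((z : N) : N ⧸ C) ∣ C.index := orderOf_dvd_natCard _
    have h4 : orderOf ((z : N) : N ⧸ C) ∣ 1 := by
      rw [← hcop]
      exact Nat.dvd_gcd (h2.trans hp) h3
    have h5 := orderOf_eq_one_iff.1 (Nat.dvd_one.1 h4)
    exact (QuotientGroup.eq_one_iff z).1 h5
  -- step 1
  have s1 : ∀ x ∈ C, z * x = x * z := by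
    intro x hx
    by_cases hzC : z ∈ C
    · exact hCc z hzC x hx
    · have hpC := s0 hzC
      obtain ⟨m, hm⟩ := conj_cyc C z
      by_contra hne
      set y := z * x * z⁻¹ * x⁻¹ with hy
      have hyC : y ∈ C := mul_mem ((inferInstance : C.Normal).conj_mem x hx z) (inv_mem hx)
      have hy1 : y ≠ 1 := by
        intro e
        apply hne
        rw [hy] at e
        calc z * x = (z * x * z⁻¹ * x⁻¹) * (x * z) := by group
          _ = x * z := by rw [e, one_mul]
      have ho : orderOf y ≠ 1 := fun e => hy1 (orderOf_eq_one_iff.1 e)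
      obtain ⟨r, hr, k, hk⟩ := Nat.exists_prime_and_dvd ho
      have hyo : orderOf y ∣ Nat.card C := by
        have := orderOf_dvd_natCard (⟨y, hyC⟩ : C)
        rwa [← Subgroup.orderOf_coe] at this
      have hrp : r ≠ p := by
        rintro rfl
        exact hpC (Dvd.dvd.trans ⟨k, hk⟩ hyo)
      have hy' : (z * x ^ k * z⁻¹) * (x ^ k)⁻¹ = y ^ k := by
        have c1 : Commute (z * x * z⁻¹) x⁻¹ :=
          hCc _ ((inferInstance : C.Normal).conj_mem x hx z) _ (inv_mem hx)
        rw [hy, c1.mul_pow, conj_pow, inv_pow]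
      have hyr : (y ^ k) ^ r = 1 := by
        rw [← pow_mul, mul_comm, ← hk, pow_orderOf_eq_one]
      have h1 : z * y ^ k = (y ^ k) ^ m * z := by
        rw [← hm _ (pow_mem hyC k)]; group
      have h2 := pr r z (y ^ k) m hr hrp hz hyr h1
      have h3 : ∀ j : ℕ, z ^ j * x ^ k * (z ^ j)⁻¹ = (y ^ k) ^ j * x ^ k := by
        intro j
        induction j with
        | zero => simp
        | succ j ih =>
          have c1 : Commute z ((y ^ k) ^ j) := (show Commute z (y ^ k) from h2).pow_right j
          have c2 : z * x ^ k * z⁻¹ = y ^ k * x ^ k := by rw [← hy']; group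
          calc z ^ (j + 1) * x ^ k * (z ^ (j + 1))⁻¹ = z * (z ^ j * x ^ k * (z ^ j)⁻¹) * z⁻¹ := by
                rw [pow_succ']; group
            _ = (z * (y ^ k) ^ j) * x ^ k * z⁻¹ := by rw [ih]; group
            _ = ((y ^ k) ^ j * z) * x ^ k * z⁻¹ := by rw [c1.eq]
            _ = (y ^ k) ^ j * (z * x ^ k * z⁻¹) := by group
            _ = (y ^ k) ^ (j + 1) * x ^ k := by rw [c2, pow_succ]; group
      have h4 := h3 p
      rw [hz, one_mul, inv_one, mul_one] at h4
      have h5 : (y ^ k) ^ p = 1 := by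
        have := h4.symm
        exact mul_eq_right.1 this
      have hyk : y ^ k ≠ 1 := by
        intro e
        have h6 := orderOf_dvd_of_pow_eq_one e
        have hk0 : k ≠ 0 := by
          rintro rfl
          have := orderOf_pos y
          omega
        have h7 := Nat.le_of_dvd (Nat.pos_of_ne_zero hk0) h6
        rw [hk] at h7
        have := hr.two_le
        nlinarith [Nat.pos_of_ne_zero hk0]
      have : Fact r.Prime := ⟨hr⟩
      have h6 := orderOf_eq_prime hyr hyk
      have h7 := orderOf_eq_prime h5 hyk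
      exact hrp (h6.symm.trans h7)
  -- step 2
  by_cases hzC : z ∈ C
  · by_cases hz1 : z = 1
    · rw [hz1, mul_one, one_mul]
    obtain ⟨m, hm⟩ := conj_cyc C n
    have oz := orderOf_eq_prime hz hz1
    have h1 : ∀ j : ℕ, n ^ j * z * (n ^ j)⁻¹ = z ^ (m ^ j) := by
      intro j
      induction j with
      | zero => simp
      | succ j ih =>
        calc n ^ (j + 1) * z * (n ^ (j + 1))⁻¹ = n * (n ^ j * z * (n ^ j)⁻¹) * n⁻¹ := by
              rw [pow_succ']; group
          _ = n * z ^ (m ^ j) * n⁻¹ := by rw [ih]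
          _ = (z ^ (m ^ j)) ^ m := hm _ (pow_mem hzC _)
          _ = z ^ (m ^ (j + 1)) := by rw [← pow_mul, ← pow_succ]
    have h2 : z ^ (m ^ Nat.card N) = z ^ 1 := by
      rw [← h1, pow_card_eq_one']; group
    have h3 : m ^ Nat.card N ≡ 1 [MOD p] := by
      rw [← oz]
      exact pow_eq_pow_iff_modEq.1 h2
    have h4 : ((m : ZMod p)) ^ Nat.card N = 1 := by
      have := (ZMod.natCast_eq_natCast_iff _ _ _).2 h3
      rw [Nat.cast_pow, Nat.cast_one] at this
      exact this
    have hm0 : (m : ZMod p) ≠ 0 := by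
      intro e
      rw [e, zero_pow Nat.card_pos.ne'] at h4
      exact zero_ne_one h4
    have h5 : ((m : ZMod p)) ^ (p - 1) = 1 := ZMod.pow_card_sub_one_eq_one hm0
    have hco : (Nat.card N).Coprime (p - 1) := by
      apply Nat.coprime_of_dvd
      intro r hr h6 h7
      have h8 := least r hr h6
      have h9 := pp.two_le
      have h10 := Nat.le_of_dvd (by omega) h7
      omega
    have h6 : orderOf (m : ZMod p) ∣ 1 := by
      rw [← hco]
      exact Nat.dvd_gcd (orderOf_dvd_of_pow_eq_one h4) (orderOf_dvd_of_pow_eq_one h5)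
    have h7 : (m : ZMod p) = 1 := orderOf_eq_one_iff.1 (Nat.dvd_one.1 h6)
    have h8 : m ≡ 1 [MOD p] := by
      rw [← Nat.cast_one] at h7
      exact (ZMod.natCast_eq_natCast_iff _ _ _).1 h7
    have h9 : z ^ m = z ^ 1 := by
      rw [pow_eq_pow_iff_modEq, oz]
      exact h8
    have h10 : n * z * n⁻¹ = z := by
      rw [hm z hzC, h9, pow_one]
    calc n * z = n * z * n⁻¹ * n := by group
      _ = z * n := by rw [h10]
  · have hpC := s0 hzC
    set w := n * z * n⁻¹ * z⁻¹ with hw
    have hwC : w ∈ C := commutator_mem_commutator (mem_top n) (mem_top z)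
    have h1 : Commute w z := (s1 w hwC).symm
    have h2 : n * z * n⁻¹ = w * z := by rw [hw]; group
    have h3 : (w * z) ^ p = 1 := by
      rw [← h2, conj_pow, hz, mul_one, mul_inv_cancel]
    rw [h1.mul_pow, hz, mul_one] at h3
    have h4 : w = 1 := by
      by_contra hw1
      apply hpC
      have h5 := orderOf_eq_prime h3 hw1
      have := orderOf_dvd_natCard (⟨w, hwC⟩ : C)
      rw [← Subgroup.orderOf_coe, h5] at this
      exact this
    calc n * z = (n * z * n⁻¹ * z⁻¹) * (z * n) := by group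
      _ = z * n := by rw [← hw, h4, one_mul]

end Pool.Agent.FourGp.H90
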