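import Pool.Agent.Lib.MP_fb3619_al.H8.NoiD
import Pool.Agent.Lib.MP_fb3619_al.H90.U1
import Pool.Agent.Lib.MP_fb3619_al.H90.Pr
import Pool.Agent.Lib.MP_fb3619_al.H90.Zc
import Pool.Agent.Lib.MP_fb3619_al.H11.Thz

/-!
# MP_fb3619_al: the end of the tame case without the hypothesis SS (finding 4602, USE)
-/

set_option autoImplicit false

universe u

namespace Pool.Agent.FourGp.H90

open Pool.Agent.FourGp.FF
open Pool.Agent.FourGp.H47 (Odd')
open Pool.Agent.FourGp.H99 (LF)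
open Pool.Agent.FourGp.FF.Pq (TA mem_TA)
open Pool.Agent.FourGp.FF.Bs (MinC Min0)
open Pool.Agent.FourGp.FF.Fi (cjg Tm AT Fam)
open Pool.Agent.FourGp.FF.Fp (ta_ind ta_mi ta_mi_comm ta_comm ta_fx mi_conj fx_cza fx_czb FpfS
  NneS minC_swap minC_swap' minC_rot mi_c fx_ac)
open Pool.Agent.FourGp.H8 (fin_supp_set conj_closure fin_of_LF odd_card cjh cjh_val cjh_iter
  comm_of_cj cj_of_comm lf_cz cc_free na_fi PvS tb_ne)

variable {G : Type u} [Group G] {K : Subgroup G} {a b c : G}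

/-- `N_a` -/
def NA (K : Subgroup G) (a b : G) : Subgroup G :=
  Fx K a b ⊓ Subgroup.closure {u | Mi K a b u}

/-- the facts about two types which are used -/
structure Pair (K : Subgroup G) (a b c : G) : Prop where
  fr : Fr K a b c
  fin : (Fx K a b : Set G).Finite
  tm : Tm K a b c a
  tb : ∃ t ∈ TA K b a, t ≠ 1
  o2 : ∀ e ∈ Fx K a b, fi (Cz K a) e → e ≠ 1 → ∀ y, Mi K b a y → y * e = e * y → y = 1
  o2' : ∀ e ∈ Fx K a b, fi (Cz K b) e → e ≠ 1 → ∀ y, Mi K a b y → y * e = e * y → y = 1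
  o1 : ∀ f ∈ Fx K a b, fi (Cz K a) f → ∀ g ∈ Fx K a b, fi (Cz K b) g → f * g = g * f

theorem pair (fpf : FpfS.{u}) (m : MinC K a b c) (t : AT K a b c) : Pair K a b c := by
  have h := m.fr
  obtain ⟨o1, -, o2⟩ := fpf G K a b c m t
  obtain ⟨-, -, o3⟩ := fpf G K b a c (minC_swap m) t.swap
  have hsw : Fx K b a = Fx K a b := Fr.fx_swap.symm
  exact ⟨h, m.fin, t.ta, tb_ne m t, fun e he hea he1 y hy hye => (o2 e he hea he1).1 y hy hye,
    fun e he hea he1 y hy hye => (o3 e (by rw [hsw]; exact he) hea he1).1 y hy hye, o1⟩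

/-- the finite group -/
structure Gm (K : Subgroup G) (a b u : G) (Γ : Subgroup G) (X : Set G) : Prop where
  fin : Finite Γ
  cz : Γ ≤ Cz K a
  gen : Γ = Subgroup.closure X
  mi : X ⊆ {u | Mi K a b u}
  inv : ∀ f ∈ Fx K a b, ∀ x ∈ Γ, f * x * f⁻¹ ∈ Γ
  na : NA K a b ≤ Γ
  mem : u ∈ Γ

theorem exists_gm (h : Fr K a b c) (hF : (Fx K a b : Set G).Finite) {u : G} (hu : Mi K a b u) :
    ∃ Γ X, Gm K a b u Γ X := by
  classical
  obtain ⟨T0, hT0f, hT0s, hT0⟩ := fin_supp_set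
    (N := {n | n ∈ Fx K a b ∧ n ∈ Subgroup.closure {u | Mi K a b u}})
    (hF.subset (fun n hn => hn.1)) (fun x hx => hx.2)
  set T1 : Set G := insert u T0 with hT1
  have hT1f : T1.Finite := hT0f.insert u
  have hT1s : T1 ⊆ {u | Mi K a b u} := by
    rintro x (rfl | hx)
    · exact hu
    · exact hT0s hx
  set X : Set G := (fun p : G × G => p.1 * p.2 * p.1⁻¹) '' ((Fx K a b : Set G) ×ˢ T1) with hX
  have hXf : X.Finite := (hF.prod hT1f).image _
  have hXs : X ⊆ {u | Mi K a b u} := by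
    rintro _ ⟨⟨f, x⟩, ⟨hf, hx⟩, rfl⟩
    have := mi_conj h (f := f⁻¹) ((Fx K a b).inv_mem hf) (hT1s hx)
    rwa [inv_inv] at this
  have hT1X : T1 ⊆ X := by
    intro x hx
    exact ⟨(1, x), ⟨(Fx K a b).one_mem, hx⟩, by simp⟩
  have hcz : Subgroup.closure X ≤ Cz K a := by
    rw [Subgroup.closure_le]
    intro x hx
    exact (hXs hx).1
  refine ⟨Subgroup.closure X, X, ?_, hcz, rfl, hXs, ?_, ?_, ?_⟩
  · exact fin_of_LF (lf_cz h hF) hcz ((Subgroup.fg_iff _).2 ⟨X, rfl, hXf⟩)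
  · intro g hg y hy
    refine conj_closure (H := Subgroup.closure X) (fun x hx => ?_) hy
    obtain ⟨⟨f, x⟩, ⟨hf, hx⟩, rfl⟩ := hx
    refine Subgroup.subset_closure ⟨(g * f, x), ⟨(Fx K a b).mul_mem hg hf, hx⟩, ?_⟩
    simp [mul_assoc]
  · intro n hn
    exact Subgroup.closure_mono ((Set.subset_insert u T0).trans hT1X) (hT0 n ⟨hn.1, hn.2⟩)
  · exact Subgroup.subset_closure (hT1X (Set.mem_insert u T0))

/-- conjugation as an automorphism -/
noncomputable def cje (Γ : Subgroup G) [Finite Γ] (z : G) (hz : ∀ x ∈ Γ, z * x * z⁻¹ ∈ Γ) :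
    Γ ≃* Γ :=
  MulEquiv.ofBijective (cjh Γ z hz) (Finite.injective_iff_bijective.1 (by
    intro x y hxy
    have h1 : z * x.1 * z⁻¹ = z * y.1 * z⁻¹ := congrArg Subtype.val hxy
    exact Subtype.ext (mul_left_cancel (mul_right_cancel h1))))

theorem cje_val (Γ : Subgroup G) [Finite Γ] (z : G) (hz : ∀ x ∈ Γ, z * x * z⁻¹ ∈ Γ) (x : Γ) :
    (cje Γ z hz x).1 = z * x.1 * z⁻¹ := rfl

theorem cje_iter (Γ : Subgroup G) [Finite Γ] (z : G) (hz : ∀ x ∈ Γ, z * x * z⁻¹ ∈ Γ) (x : Γ)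
    (n : ℕ) : ((⇑(cje Γ z hz))^[n] x).1 = z ^ n * x.1 * (z ^ n)⁻¹ := by
  induction n with
  | zero => simp
  | succ n ih =>
    rw [Function.iterate_succ_apply', cje_val, ih, pow_succ']
    simp [mul_assoc]

theorem Gm.invb (h : Fr K a b c) {u : G} {Γ : Subgroup G} {X : Set G} (g : Gm K a b u Γ X) :
    ∀ x ∈ Γ, b * x * b⁻¹ ∈ Γ := by
  intro y hy
  have hg := g.gen
  subst hg
  refine conj_closure (H := Subgroup.closure X) (fun x hx => ?_) hy
  have e : b⁻¹ = b := inv_eq_of_mul_eq_one_left h.bb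
  rw [e, (g.mi hx).2]
  exact Subgroup.inv_mem _ (Subgroup.subset_closure hx)

/-- the data of the finite group -/
structure Fd (K : Subgroup G) (a b : G) (Γ : Subgroup G) (s g' : Γ ≃* Γ) (g : G) (q : ℕ) :
    Prop where
  odd : Odd (Nat.card Γ)
  ss : ∀ x, s (s x) = x
  gq : ∀ x, (⇑g')^[q] x = x
  sg : ∀ x, s (g' x) = g' (s x)
  fx : ∀ x, s x = x → g' x = x
  ff : ∀ x, s x = x⁻¹ → g' x = x → x = 1
  gen : Subgroup.closure {x : Γ | s x = x⁻¹} = ⊤
  cyc : ∀ p : ℕ, p.Prime → ∀ T : Subgroup Γ, T ≤ FbZ.Nn s → IsPGroup p T → IsCyclic T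
  nn : ∀ x : Γ, s x = x ↔ x.1 ∈ NA K a b

theorem fd (P : Pair K a b c) {u : G} {Γ : Subgroup G} {X : Set G} (m : Gm K a b u Γ X)
    [Finite Γ] {g : G} {q : ℕ} (hg : g ∈ Fx K a b) (hgb : fi (Cz K b) g) (hg1 : g ≠ 1)
    (hgq : g ^ q = 1) :
    Fd K a b Γ (cje Γ b (m.invb P.fr)) (cje Γ g (m.inv g hg)) g q := by
  have h := P.fr
  have hbi : b⁻¹ = b := inv_eq_of_mul_eq_one_left h.bb
  have hgbc : g * b = b * g := (mem_Fx.1 hg).2.2
  have hΓK : Γ ≤ K := m.cz.trans cz_le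
  set s : Γ ≃* Γ := cje Γ b (m.invb P.fr) with hs
  set g' : Γ ≃* Γ := cje Γ g (m.inv g hg) with hg'
  have sval : ∀ x : Γ, (s x).1 = b * x.1 * b⁻¹ := fun x => rfl
  have gval : ∀ x : Γ, (g' x).1 = g * x.1 * g⁻¹ := fun x => rfl
  have hodd : Odd (Nat.card Γ) := odd_card (fun x hx => h.odd x (hΓK hx))
  have hss : ∀ x, s (s x) = x := by
    intro x
    apply Subtype.ext
    rw [sval, sval, hbi]
    calc b * (b * x.1 * b) * b = (b * b) * x.1 * (b * b) := by group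
      _ = x.1 := by rw [h.bb]; group
  have hmi : ∀ x : Γ, s x = x⁻¹ → Mi K a b x.1 := by
    intro x hx
    refine ⟨m.cz x.2, ?_⟩
    have := congrArg Subtype.val hx
    rw [sval, hbi] at this
    exact this
  have hgen : Subgroup.closure {x : Γ | s x = x⁻¹} = ⊤ := by
    rw [eq_top_iff]
    have e := m.gen
    subst e
    have h1 : Subgroup.closure (((↑) : Subgroup.closure X → G) ⁻¹' X) = ⊤ :=
      Subgroup.closure_closure_coe_preimage
    rw [← h1]
    refine Subgroup.closure_mono ?_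
    intro x hx
    apply Subtype.ext
    rw [sval, hbi]
    exact (m.mi hx).2
  have hnn : ∀ x : Γ, s x = x ↔ x.1 ∈ NA K a b := by
    intro x
    constructor
    · intro hx
      refine Subgroup.mem_inf.2 ⟨mem_Fx.2 ⟨hΓK x.2, (mem_Cz.1 (m.cz x.2)).2, ?_⟩, ?_⟩
      · exact (comm_of_cj (congrArg Subtype.val hx)).symm
      · have h0 : Γ ≤ Subgroup.closure {u | Mi K a b u} := by
          rw [m.gen]
          exact Subgroup.closure_mono m.mi
        exact h0 x.2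
    · intro hx
      apply Subtype.ext
      rw [sval]
      exact cj_of_comm (mem_Fx.1 (Subgroup.mem_inf.1 hx).1).2.2.symm
  have hfi : ∀ x : G, x ∈ NA K a b → fi (Cz K a) x :=
    fun x hx => na_fi h P.tm (Subgroup.mem_inf.1 hx).2
  refine ⟨hodd, hss, ?_, ?_, ?_, ?_, hgen, ?_, hnn⟩
  · intro x
    apply Subtype.ext
    rw [hg', cje_iter, hgq]
    simp
  · intro x
    apply Subtype.ext
    rw [sval, gval, gval, sval]
    have e1 : b * g = g * b := hgbc.symm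
    have e2 : b⁻¹ * g⁻¹ = g⁻¹ * b⁻¹ := by
      rw [← mul_inv_rev, ← mul_inv_rev, hgbc]
    calc b * (g * x.1 * g⁻¹) * b⁻¹ = (b * g) * x.1 * (g⁻¹ * b⁻¹) := by group
      _ = (g * b) * x.1 * (b⁻¹ * g⁻¹) := by rw [e1, e2]
      _ = _ := by group
  · intro x hx
    have hx' := (hnn x).1 hx
    apply Subtype.ext
    rw [gval]
    exact cj_of_comm (P.o1 x.1 (Subgroup.mem_inf.1 hx').1 (hfi x hx') g hg hgb).symm
  · intro x hx hx'
    apply Subtype.ext
    exact P.o2' g hg hgb hg1 _ (hmi x hx) (comm_of_cj (congrArg Subtype.val hx')).symm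
  · intro p hp T hT hTp
    have hp2 : p ≠ 2 ∨ Subsingleton T := by
      by_cases hp2 : p = 2
      · right
        subst hp2
        rw [← Finite.card_le_one_iff_subsingleton]
        obtain ⟨k, hk⟩ := IsPGroup.iff_card.1 hTp
        have h1 : Odd (Nat.card T) := hodd.of_dvd_nat (Subgroup.card_subgroup_dvd_card T)
        rw [hk] at h1 ⊢
        rcases Nat.eq_zero_or_pos k with hk0 | hk0
        · rw [hk0, pow_zero]
        · exfalso
          have : Even (2 ^ k) := (even_two).pow_of_ne_zero (by omega)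
          exact (Nat.not_even_iff_odd.2 h1) this
      · exact Or.inl hp2
    rcases hp2 with hp2 | hsub
    · refine Pool.Agent.FourGp.H87.cyc hp hp2 hTp ?_
      intro x y hx hy hxy
      have e1 : x.1.1 ^ p = 1 := congrArg (fun z : T => z.1.1) hx
      have e2 : y.1.1 ^ p = 1 := congrArg (fun z : T => z.1.1) hy
      have e3 : x.1.1 * y.1.1 = y.1.1 * x.1.1 := congrArg (fun z : T => z.1.1) hxy
      have hzp : ∀ x y : T, x.1.1 ∈ Subgroup.zpowers y.1.1 → x ∈ Subgroup.zpowers y := by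
        rintro x y ⟨k, hk⟩
        exact ⟨k, Subtype.ext (Subtype.ext (by simpa using hk))⟩
      have hx' := (hnn x.1).1 (hT x.2)
      have hy' := (hnn y.1).1 (hT y.2)
      rcases cc_free h P.tb P.o2 hp (Subgroup.mem_inf.1 hx').1 (hfi _ hx')
        (Subgroup.mem_inf.1 hy').1 (hfi _ hy') e1 e2 e3 with h1 | h1
      · exact Or.inl (hzp _ _ h1)
      · exact Or.inr (hzp _ _ h1)
    · infer_instance

/-- (U1) for `K` -/
theorem u1K (P : Pair K a b c) {l : ℕ} (hl : l.Prime) {g : G} (hg : g ∈ Fx K a b)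
    (hgb : fi (Cz K b) g) (hg1 : g ≠ 1) (hgl : g ^ l = 1)
    (least : ∀ r : ℕ, r.Prime → (∃ n ∈ NA K a b, orderOf n = r) → l ≤ r) {n : G}
    (hn : n ∈ NA K a b) (hno : orderOf n = l) : False := by
  obtain ⟨Γ, X, m⟩ := exists_gm P.fr P.fin (u := 1)
    ⟨(Cz K a).one_mem, by rw [mul_one, P.fr.bb, inv_one]⟩
  have := m.fin
  have D := fd P m hg hgb hg1 hgl
  refine FbZ.u1 _ _ l D.odd D.ss D.gq hl D.sg D.ff D.gen (D.cyc l hl) ?_ ?_
  · intro r hr hrd
    have := Fact.mk hr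
    obtain ⟨x, hx⟩ := exists_prime_orderOf_dvd_card' r hrd
    refine least r hr ⟨x.1.1, (D.nn x.1).1 x.2, ?_⟩
    rw [Subgroup.orderOf_coe, Subgroup.orderOf_coe, hx]
  · have hnΓ : n ∈ Γ := m.na hn
    have h1 : (⟨n, hnΓ⟩ : Γ) ∈ FbZ.Nn (cje Γ b (m.invb P.fr)) := (D.nn ⟨n, hnΓ⟩).2 hn
    have h2 := orderOf_dvd_natCard (⟨⟨n, hnΓ⟩, h1⟩ : FbZ.Nn (cje Γ b (m.invb P.fr)))
    rw [← Subgroup.orderOf_coe, ← Subgroup.orderOf_coe, hno] at h2
    exact h2

/-- elements of least prime order of `N_a` are central -/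
theorem na_cen (P : Pair K a b c) {p : ℕ} (hp : p.Prime)
    (least : ∀ r : ℕ, r.Prime → (∃ n ∈ NA K a b, orderOf n = r) → p ≤ r) {z : G}
    (hz : z ∈ NA K a b) (hzp : z ^ p = 1) {n : G} (hn : n ∈ NA K a b) : n * z = z * n := by
  have h := P.fr
  have hF' : Fx K b a = Fx K a b := (Fr.fx_swap).symm
  have hfin : Finite (NA K a b) := P.fin.subset (fun n hn => (Subgroup.mem_inf.1 hn).1)
  have hfi : ∀ x : G, x ∈ NA K a b → fi (Cz K a) x :=
    fun x hx => na_fi h P.tm (Subgroup.mem_inf.1 hx).2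
  have hZ : IsZGroup (NA K a b) := by
    refine Pool.Agent.FourGp.H87.zg ?_ ?_
    · exact odd_card (fun x hx => h.odd x (mem_Fx.1 (Subgroup.mem_inf.1 hx).1).1)
    · intro p hp x y hx hy hxy
      have e1 : x.1 ^ p = 1 := congrArg Subtype.val hx
      have e2 : y.1 ^ p = 1 := congrArg Subtype.val hy
      have e3 : x.1 * y.1 = y.1 * x.1 := congrArg Subtype.val hxy
      have hzp : ∀ x y : NA K a b, x.1 ∈ Subgroup.zpowers y.1 → x ∈ Subgroup.zpowers y := by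
        rintro x y ⟨k, hk⟩
        exact ⟨k, Subtype.ext (by simpa using hk)⟩
      rcases cc_free h P.tb P.o2 hp (Subgroup.mem_inf.1 x.2).1 (hfi _ x.2)
        (Subgroup.mem_inf.1 y.2).1 (hfi _ y.2) e1 e2 e3 with h1 | h1
      · exact Or.inl (hzp _ _ h1)
      · exact Or.inr (hzp _ _ h1)
  have hcj : ∀ z ∈ Fx K a b, ∀ s ∈ TA K b a, z * s * z⁻¹ ∈ TA K b a := by
    intro z hz s hs
    have := ta_fx h.swap (f := z⁻¹) (by rw [hF']; exact (Fx K a b).inv_mem hz) hs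
    rwa [inv_inv] at this
  have key := zcen (N := NA K a b) (p := p) hp ?_ ?_ (z := ⟨z, hz⟩) (Subtype.ext hzp) ⟨n, hn⟩
  · exact congrArg Subtype.val key
  · intro r hr hrd
    have := Fact.mk hr
    obtain ⟨x, hx⟩ := exists_prime_orderOf_dvd_card' r hrd
    refine least r hr ⟨x.1, x.2, ?_⟩
    rw [Subgroup.orderOf_coe, hx]
  · intro r z w k hr _ hzp hwr hzw
    by_contra hne
    obtain ⟨t, ht, ht1⟩ := P.tb
    apply ht1
    refine pr_gen (TA K b a) (fun s hs t ht => ta_comm h.swap hs ht)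
      (hcj z.1 (Subgroup.mem_inf.1 z.2).1) (hcj w.1 (Subgroup.mem_inf.1 w.2).1) hp hr
      (congrArg Subtype.val hzp) (congrArg Subtype.val hwr) (m := k)
      (by
        have := congrArg Subtype.val hzw
        simpa using this)
      (fun e => hne (Subtype.ext e)) ?_ t ht
    intro y hy hy1 s hs hys
    have hyN : y ∈ NA K a b := by
      have : Subgroup.closure {z.1, w.1} ≤ NA K a b := by
        rw [Subgroup.closure_le]
        rintro x (rfl | rfl)
        · exact z.2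
        · exact w.2
      exact this hy
    exact P.o2 y (Subgroup.mem_inf.1 hyN).1 (hfi y hyN) hy1 s (ta_mi h.swap hs) hys.symm

/-- THEOREM Z for `K` -/
theorem u2K (P : Pair K a b c) {p q : ℕ} (hp : p.Prime) (hq : q.Prime) (hpq : p < q)
    {g : G} (hg : g ∈ Fx K a b) (hgb : fi (Cz K b) g) (hg1 : g ≠ 1) (hgq : g ^ q = 1)
    (least : ∀ r : ℕ, r.Prime → (∃ n ∈ NA K a b, orderOf n = r) → p ≤ r)
    (hqN : ∀ n ∈ NA K a b, orderOf n ≠ q) {z : G} (hz : z ∈ NA K a b) (hzo : orderOf z = p)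
    {u : G} (hu : Mi K a b u) : z * u = u * z := by
  have hzp : z ^ p = 1 := by rw [← hzo]; exact pow_orderOf_eq_one z
  have hz1 : z ≠ 1 := by
    intro e
    rw [e, orderOf_one] at hzo
    exact hp.one_lt.ne hzo
  obtain ⟨Γ, X, m⟩ := exists_gm P.fr P.fin hu
  have := m.fin
  have D := fd P m hg hgb hg1 hgq
  have hp2 : p ≠ 2 := by
    rintro rfl
    obtain ⟨k, hk⟩ := P.fr.odd z (mem_Fx.1 (Subgroup.mem_inf.1 hz).1).1
    apply hz1
    rw [pow_succ, pow_mul, hzp, one_pow, one_mul] at hk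
    exact hk
  have hzΓ : z ∈ Γ := m.na hz
  have hdat := FbZ.dat_of (cje Γ b (m.invb P.fr)) (cje Γ g (m.inv g hg)) p q ⟨z, hzΓ⟩ D.odd D.ss
    D.gq hq D.sg D.fx D.ff ?_ D.gen hp hp2 hpq ((D.nn ⟨z, hzΓ⟩).2 hz) (Subtype.ext hzp)
    (fun e => hz1 (congrArg Subtype.val e)) ?_ (D.cyc p hp)
  · have h1 := FbZ.thmZ Γ _ _ p q ⟨z, hzΓ⟩ hdat
    have h2 := Subgroup.mem_center_iff.1 h1 ⟨u, m.mem⟩
    exact (congrArg Subtype.val h2).symm
  · intro hd
    have := Fact.mk hq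
    obtain ⟨x, hx⟩ := exists_prime_orderOf_dvd_card' q hd
    refine hqN x.1.1 ((D.nn x.1).1 x.2) ?_
    rw [Subgroup.orderOf_coe, Subgroup.orderOf_coe, hx]
  · intro n hn
    exact Subtype.ext (na_cen P hp least hz hzp ((D.nn n).1 hn))

theorem na_minFac (P : Pair K a b c) (hne : ∃ f ∈ NA K a b, f ≠ 1) :
    ∃ p : ℕ, p.Prime ∧ (∀ r : ℕ, r.Prime → (∃ n ∈ NA K a b, orderOf n = r) → p ≤ r) ∧
      ∃ z ∈ NA K a b, orderOf z = p := by
  have hfin : Finite (NA K a b) := P.fin.subset (fun n hn => (Subgroup.mem_inf.1 hn).1)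
  have h1 : Nat.card (NA K a b) ≠ 1 := by
    intro e
    obtain ⟨f, hf, hf1⟩ := hne
    have := Subgroup.card_eq_one.1 e
    rw [this] at hf
    exact hf1 (Subgroup.mem_bot.1 hf)
  have hp := Nat.minFac_prime h1
  refine ⟨_, hp, ?_, ?_⟩
  · rintro r hr ⟨n, hn, hno⟩
    apply Nat.minFac_le_of_dvd hr.two_le
    have h2 := orderOf_dvd_natCard (⟨n, hn⟩ : NA K a b)
    rwa [← Subgroup.orderOf_coe, hno] at h2
  · have := Fact.mk hp
    obtain ⟨x, hx⟩ := exists_prime_orderOf_dvd_card' _ (Nat.minFac_dvd (Nat.card (NA K a b)))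
    exact ⟨x.1, x.2, by rw [Subgroup.orderOf_coe, hx]⟩

/-- the case `p < q` -/
theorem noi_lt (pv : PvS.{u}) (m : MinC K a b c) (t : AT K a b c) (P : Pair K a b c)
    {p q : ℕ} (hp : p.Prime) (hq : q.Prime) (hpq : p < q) {g : G} (hg : g ∈ Fx K a b)
    (hgb : fi (Cz K b) g) (hgo : orderOf g = q)
    (least : ∀ r : ℕ, r.Prime → (∃ n ∈ NA K a b, orderOf n = r) → p ≤ r)
    (hqN : ∀ n ∈ NA K a b, orderOf n ≠ q) {z : G} (hz : z ∈ NA K a b) (hzo : orderOf z = p) :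
    False := by
  have hg1 : g ≠ 1 := by
    intro e
    rw [e, orderOf_one] at hgo
    exact hq.one_lt.ne hgo
  have hgq : g ^ q = 1 := by rw [← hgo]; exact pow_orderOf_eq_one g
  have hz1 := pv G K a b c m t z (Subgroup.mem_inf.1 hz).1
    (fun u hu => u2K P hp hq hpq hg hgb hg1 hgq least hqN hz hzo hu)
  rw [hz1, orderOf_one] at hzo
  exact hp.one_lt.ne hzo

/-- NOISE: the end of the tame case, without `SS`. -/
theorem noi2 (fpf : FpfS.{u}) (nne : NneS.{u}) (pv : PvS.{u}) (m : MinC K a b c)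
    (t : AT K a b c) : False := by
  have h := m.fr
  have P := pair fpf m t
  have m' := minC_swap m
  have t' := t.swap
  have P' := pair fpf m' t'
  have hsw : Fx K b a = Fx K a b := Fr.fx_swap.symm
  obtain ⟨f, hf, hf1, hfc, -⟩ := nne G K b c a (minC_rot m)
  rw [h.fx_rot] at hf
  obtain ⟨f', hf', hf1', hfc', -⟩ := nne G K a c b (minC_rot m')
  rw [m'.fr.fx_rot] at hf'
  obtain ⟨p, hp, lp, z, hz, hzo⟩ := na_minFac P ⟨f, Subgroup.mem_inf.2 ⟨hf, hfc⟩, hf1⟩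
  obtain ⟨q, hq, lq, w, hw, hwo⟩ := na_minFac P' ⟨f', Subgroup.mem_inf.2 ⟨hf', hfc'⟩, hf1'⟩
  have hza : fi (Cz K a) z := na_fi h P.tm (Subgroup.mem_inf.1 hz).2
  have hwb : fi (Cz K b) w := na_fi m'.fr P'.tm (Subgroup.mem_inf.1 hw).2
  have hwF : w ∈ Fx K a b := by rw [← hsw]; exact (Subgroup.mem_inf.1 hw).1
  have hzF : z ∈ Fx K b a := by rw [hsw]; exact (Subgroup.mem_inf.1 hz).1
  have hw1 : w ≠ 1 := by
    intro e
    rw [e, orderOf_one] at hwo
    exact hq.one_lt.ne hwo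
  have hz1 : z ≠ 1 := by
    intro e
    rw [e, orderOf_one] at hzo
    exact hp.one_lt.ne hzo
  -- no element of order `p` in `F_b`
  have A1 : ∀ g ∈ Fx K a b, fi (Cz K b) g → orderOf g ≠ p := by
    intro g hg hgb hgo
    refine u1K P hp hg hgb ?_ (by rw [← hgo]; exact pow_orderOf_eq_one g) lp hz hzo
    intro e
    rw [e, orderOf_one] at hgo
    exact hp.one_lt.ne hgo
  have A2 : ∀ g ∈ Fx K b a, fi (Cz K a) g → orderOf g ≠ q := by
    intro g hg hgb hgo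
    refine u1K P' hq hg hgb ?_ (by rw [← hgo]; exact pow_orderOf_eq_one g) lq hw hwo
    intro e
    rw [e, orderOf_one] at hgo
    exact hq.one_lt.ne hgo
  have hpq : p ≠ q := by
    intro e
    exact A1 w hwF hwb (hwo.trans e.symm)
  rcases lt_or_gt_of_ne hpq with hlt | hlt
  · refine noi_lt pv m t P hp hq hlt hwF hwb hwo lp ?_ hz hzo
    intro n hn
    exact A2 n (by rw [hsw]; exact (Subgroup.mem_inf.1 hn).1)
      (na_fi h P.tm (Subgroup.mem_inf.1 hn).2)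
  · refine noi_lt pv m' t' P' hq hp hlt hzF hza hzo lq ?_ hw hwo
    intro n hn
    exact A1 n (by rw [← hsw]; exact (Subgroup.mem_inf.1 hn).1)
      (na_fi m'.fr P'.tm (Subgroup.mem_inf.1 hn).2)

end Pool.Agent.FourGp.H90
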