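import Pool.Agent.Lib.MP_fb3619_al.H90.ZDefs

/-! Theorem Z: common lemmas for parts 1 and 2 (finding 4602). -/

namespace FbZ

open Subgroup
open scoped commutatorElement

universe u

set_option linter.unusedSectionVars false

variable {M : Type u} [Group M] [Finite M] {s g : M ≃* M} {p q : ℕ} {z : M}

/-- product of a subgroup and a normalising one -/
def psub (X N : Subgroup M) (h : ∀ n ∈ N, ∀ x ∈ X, n * x * n⁻¹ ∈ X) : Subgroup M where
  carrier := {b | ∃ x ∈ X, ∃ n ∈ N, b = x * n}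
  one_mem' := ⟨1, one_mem _, 1, one_mem _, by rw [one_mul]⟩
  mul_mem' := by
    rintro _ _ ⟨x, hx, n, hn, rfl⟩ ⟨x', hx', n', hn', rfl⟩
    refine ⟨x * (n * x' * n⁻¹), mul_mem hx (h n hn x' hx'), n * n', mul_mem hn hn', ?_⟩
    group
  inv_mem' := by
    rintro _ ⟨x, hx, n, hn, rfl⟩
    refine ⟨n⁻¹ * x⁻¹ * (n⁻¹)⁻¹, h n⁻¹ (inv_mem hn) _ (inv_mem hx), n⁻¹, inv_mem hn, ?_⟩
    group

theorem mem_psub {X N : Subgroup M} {h : ∀ n ∈ N, ∀ x ∈ X, n * x * n⁻¹ ∈ X} {b : M} :
    b ∈ psub X N h ↔ ∃ x ∈ X, ∃ n ∈ N, b = x * n := Iff.rfl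

theorem left_le_psub {X N : Subgroup M} {h : ∀ n ∈ N, ∀ x ∈ X, n * x * n⁻¹ ∈ X} :
    X ≤ psub X N h := fun x hx => ⟨x, hx, 1, one_mem _, by rw [mul_one]⟩

theorem right_le_psub {X N : Subgroup M} {h : ∀ n ∈ N, ∀ x ∈ X, n * x * n⁻¹ ∈ X} :
    N ≤ psub X N h := fun x hx => ⟨1, one_mem _, x, hx, by rw [one_mul]⟩

theorem psub_AInv {X N : Subgroup M} {h : ∀ n ∈ N, ∀ x ∈ X, n * x * n⁻¹ ∈ X}
    (hX : AInv s g X) (hN : AInv s g N) : AInv s g (psub X N h) := by
  constructor
  · rintro _ ⟨x, hx, n, hn, rfl⟩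
    exact ⟨s x, hX.1 x hx, s n, hN.1 n hn, map_mul _ _ _⟩
  · rintro _ ⟨x, hx, n, hn, rfl⟩
    exact ⟨g x, hX.2 x hx, g n, hN.2 n hn, map_mul _ _ _⟩

/-- two inverted elements commute if the conjugate is inverted -/
theorem inv_comm (odd : Odd (Nat.card M)) {x y : M} (hx : s x = x⁻¹) (hy : s y = y⁻¹)
    (h : s (y * x * y⁻¹) = (y * x * y⁻¹)⁻¹) : y * x = x * y := by
  have h1 : y⁻¹ * x⁻¹ * y = y * x⁻¹ * y⁻¹ := by
    rw [map_mul, map_mul, map_inv, hx, hy] at h
    calc y⁻¹ * x⁻¹ * y = y⁻¹ * x⁻¹ * y⁻¹⁻¹ := by group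
      _ = (y * x * y⁻¹)⁻¹ := h
      _ = y * x⁻¹ * y⁻¹ := by group
  have h2 : (y * y) * x⁻¹ = x⁻¹ * (y * y) := by
    calc (y * y) * x⁻¹ = y * (y * x⁻¹ * y⁻¹) * y := by group
      _ = y * (y⁻¹ * x⁻¹ * y) * y := by rw [h1]
      _ = x⁻¹ * (y * y) := by group
  have h3 : Commute y x⁻¹ := sq_comm odd h2
  exact (Commute.inv_right_iff.1 h3).eq

theorem Nn_AInv (A : Act s g q) : AInv s g (Nn s) := by
  refine ⟨fun x hx => ?_, fun x hx => ?_⟩
  · rw [show s x = x from hx]; exact hx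
  · rw [show g x = x from (A.fx x).1 hx]; exact hx

theorem fix_AInv (A : Act s g q) {T : Subgroup M} (hT : T ≤ Nn s) : AInv s g T := by
  refine ⟨fun x hx => ?_, fun x hx => ?_⟩
  · rw [show s x = x from hT hx]; exact hx
  · rw [show g x = x from (A.fx x).1 (hT hx)]; exact hx

theorem inv_AInv_s {T : Subgroup M} (hT : ∀ x ∈ T, s x = x⁻¹) : ∀ x ∈ T, s x ∈ T := by
  intro x hx
  rw [hT x hx]; exact inv_mem hx

/-- an element both fixed and inverted is trivial -/
theorem fix_inv (odd : Odd (Nat.card M)) {x : M} (h1 : s x = x) (h2 : s x = x⁻¹) : x = 1 := by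
  apply sq_inj odd
  rw [h1] at h2
  calc x * x = x⁻¹ * x := by rw [← h2]
    _ = 1 * 1 := by group

theorem ordz (D : Dat M s g p q z) : orderOf z = p := by
  have : Fact p.Prime := ⟨D.pp⟩
  exact orderOf_eq_prime D.zp D.z1

theorem card_zp (D : Dat M s g p q z) : Nat.card (zpowers z) = p := by
  rw [Nat.card_zpowers, ordz D]

theorem zN (D : Dat M s g p q z) : zpowers z ≤ Nn s := by
  rw [zpowers_le]
  exact D.sz

theorem zcom (D : Dat M s g p q z) {u : M} (hu : u ∈ zpowers z) {x : M} (hx : x * z = z * x) :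
    x * u = u * x := by
  obtain ⟨k, rfl⟩ := mem_zpowers_iff.1 hu
  have h : Commute x z := hx
  exact (h.zpow_right k).eq

theorem ordp (D : Dat M s g p q z) {n : M} (h1 : s n = n) (h2 : n ^ p = 1) :
    n ∈ zpowers z := by
  have hc : Commute z n := (D.zc n h1).symm
  let T : Subgroup M := closure {z, n}
  have hT1 : T ≤ Nn s := by
    rw [closure_le]
    rintro x (rfl | rfl)
    · exact D.sz
    · exact h1
  have hcomm : ∀ x ∈ ({z, n} : Set M), ∀ y ∈ ({z, n} : Set M), x * y = y * x := by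
    rintro x (rfl | rfl) y (rfl | rfl)
    · rfl
    · exact hc.eq
    · exact hc.symm.eq
    · rfl
  have hcT : ∀ a ∈ T, ∀ b ∈ T, a * b = b * a := by
    intro a ha b hb
    have := (Subgroup.isMulCommutative_closure hcomm)
    exact congrArg Subtype.val (this.is_comm.comm ⟨a, ha⟩ ⟨b, hb⟩)
  have hpT : ∀ a ∈ T, a ^ p = 1 := by
    intro a ha
    refine closure_induction (p := fun a _ => a ^ p = 1) ?_ (one_pow _) ?_ ?_ ha
    · rintro x (rfl | rfl)
      · exact D.zp
      · exact h2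
    · intro a b ha hb h3 h4
      rw [(show Commute a b from hcT a ha b hb).mul_pow, h3, h4, one_mul]
    · intro a _ h3
      rw [inv_pow, h3, _root_.inv_one]
  have hpg : IsPGroup p T := by
    intro a
    refine ⟨1, ?_⟩
    rw [pow_one]
    exact Subtype.ext (hpT a.1 a.2)
  have := D.cyc T hT1 hpg
  have h5 : Monoid.exponent T ∣ p := by
    rw [Monoid.exponent_dvd_iff_forall_pow_eq_one]
    intro a
    exact Subtype.ext (hpT a.1 a.2)
  rw [IsCyclic.exponent_eq_card] at h5
  have h6 : zpowers z ≤ T := by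
    rw [zpowers_le]
    exact subset_closure (Or.inl rfl)
  have h7 : zpowers z = T := by
    apply eq_of_le_of_card_ge h6
    rw [card_zp D]
    exact Nat.le_of_dvd D.pp.pos h5
  rw [h7]
  exact subset_closure (Or.inr rfl)

theorem zmem (D : Dat M s g p q z) {T : Subgroup M} (h1 : T ≤ Nn s) (h2 : IsPGroup p T)
    (h3 : T ≠ ⊥) : z ∈ T := by
  have : Fact p.Prime := ⟨D.pp⟩
  have h4 : p ∣ Nat.card T := by
    rcases h2.card_eq_or_dvd with h | h
    · exact absurd (card_eq_one.1 h) h3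
    · exact h
  obtain ⟨u, hu⟩ := exists_prime_orderOf_dvd_card' p h4
  have h5 : (u : M) ^ p = 1 := by
    have := pow_orderOf_eq_one u
    rw [hu] at this
    exact congrArg Subtype.val this
  have h6 := ordp D (h1 u.2) h5
  have h7 : zpowers (u : M) = zpowers z := by
    apply eq_of_le_of_card_ge
    · rw [zpowers_le]; exact h6
    · rw [card_zp D, Nat.card_zpowers, orderOf_coe, hu]
  have h8 : z ∈ zpowers (u : M) := by
    rw [h7]; exact mem_zpowers z
  obtain ⟨k, hk⟩ := mem_zpowers_iff.1 h8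
  rw [← hk]
  exact zpow_mem u.2 k

theorem ordp' (D : Dat M s g p q z) {T : Subgroup M} (h2 : ∀ a ∈ T, a ^ p = 1) {n : M}
    (h1 : s n = n) (hn : n ∈ T) : n ∈ zpowers z := ordp D h1 (h2 n hn)

/-- a normalised `p`-subgroup is in every Sylow subgroup -/
theorem nrm_le (hp : p.Prime) {H P T : Subgroup M} (hP : Syl p H P) (hT : T ≤ H)
    (hTp : IsPGroup p T) (hn : ∀ h ∈ H, ∀ t ∈ T, h * t * h⁻¹ ∈ T) : T ≤ P := by
  obtain ⟨h, hh, h1⟩ := syl_conj hp hP hT hTp
  intro t ht
  have h2 := h1 _ (hn h⁻¹ (inv_mem hh) t ht)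
  have e : h * (h⁻¹ * t * h⁻¹⁻¹) * h⁻¹ = t := by group
  rw [e] at h2
  exact h2

theorem card_rel {P C : Subgroup M} (h : P ≤ C) :
    Nat.card P * P.relIndex C = Nat.card C := by
  have := relIndex_mul_relIndex (⊥ : Subgroup M) P C bot_le h
  rw [relIndex_bot_left, relIndex_bot_left] at this
  exact this

theorem rel_le {T Y O : Subgroup M} (h1 : Y ≤ O) (h2 : ∀ w ∈ O, ∃ y ∈ Y, y⁻¹ * w ∈ T) :
    T.relIndex O ≤ T.relIndex Y := by
  let f := quotientSubgroupOfEmbeddingOfLE T h1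
  have hf : Function.Surjective f := by
    intro w
    induction w using Quotient.inductionOn' with
    | h w =>
      obtain ⟨y, hy, h⟩ := h2 w.1 w.2
      refine ⟨((⟨y, hy⟩ : Y) : Y ⧸ T.subgroupOf Y), ?_⟩
      rw [quotientSubgroupOfEmbeddingOfLE_apply_mk]
      apply QuotientGroup.eq.2
      rw [mem_subgroupOf]
      exact h
  exact Nat.card_le_card_of_surjective f hf

/-- `z` is in the derived subgroup -/
theorem z_comm (D : Dat M s g p q z) : z ∈ commutator M := by
  let f : M →* Abelianization M :=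
    { toFun := fun m => Abelianization.of (s m) * Abelianization.of m
      map_one' := by rw [map_one, map_one, one_mul]
      map_mul' := by
        intro a b
        rw [map_mul, map_mul, map_mul]
        exact mul_mul_mul_comm _ _ _ _ }
  have h1 : f = 1 := by
    have h2 : (⊤ : Subgroup M) ≤ f.ker := by
      rw [← D.gen, closure_le]
      intro x hx
      show Abelianization.of (s x) * Abelianization.of x = 1
      rw [show s x = x⁻¹ from hx, ← map_mul, inv_mul_cancel, map_one]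
    ext x
    exact h2 (mem_top x)
  have h3 : Abelianization.of (z * z) = 1 := by
    have := DFunLike.congr_fun h1 z
    have e : f z = Abelianization.of (s z) * Abelianization.of z := rfl
    rw [e, D.sz, ← map_mul] at this
    exact this
  have h4 : z * z ∈ commutator M := by
    rw [← Abelianization.ker_of]
    exact h3
  have h5 := rt_mem (M := M) h4
  rw [rt_sq D.act.odd] at h5
  exact h5

/-- inverted elements generate `P₁` -/
theorem gen_top (D : Dat M s g p q z) {K : Subgroup M} (h : ∀ x, s x = x⁻¹ → x ∈ K) : K = ⊤ := by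
  rw [eq_top_iff, ← D.gen, closure_le]
  exact h

/-- (0.4) -/
theorem inv_central (D : Dat M s g p q z) {X : Subgroup M} (hX : X.Normal)
    (h : ∀ x ∈ X, s x = x⁻¹) : X ≤ center M := by
  intro x hx
  rw [mem_center_iff]
  have h1 : centralizer {x} = ⊤ := by
    apply gen_top D
    intro y hy
    rw [mem_centralizer_singleton_iff]
    exact inv_comm D.act.odd (h x hx) hy (h _ (hX.conj_mem x hx y))
  intro m
  have h2 : m ∈ centralizer {x} := by rw [h1]; exact mem_top m
  exact (mem_centralizer_singleton_iff.1 h2)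

/-- conclusion from the invariant Sylow subgroups -/
theorem top_of_inv (A : Act s g q) {K : Subgroup M} (hN : Nn s ≤ K)
    (h : ∀ r : ℕ, r.Prime → ∃ R, Syl r ⊤ R ∧ AInv s g R ∧ ∀ x ∈ R, s x = x⁻¹ → x ∈ K) :
    K = ⊤ := by
  apply top_of_syl
  intro r hr
  obtain ⟨R, h1, h2, h3⟩ := h r hr
  refine ⟨R, h1, fun x hx => ?_⟩
  obtain ⟨n, hn, y, hy, h4, h5, rfl⟩ := decomp A.odd A.ss R h2.1 hx
  exact mul_mem (hN h4) (h3 y hy h5)

/-- restriction of an automorphism -/
noncomputable def rs (f : M ≃* M) (H : Subgroup M) (h : ∀ x ∈ H, f x ∈ H) : H ≃* H :=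
  MulEquiv.ofBijective (((f : M →* M).comp H.subtype).codRestrict H (fun x => h x x.2))
    (Finite.injective_iff_bijective.1 (by
      intro a b hab
      have := congrArg Subtype.val hab
      exact Subtype.ext (f.injective this)))

theorem rs_coe (f : M ≃* M) (H : Subgroup M) (h : ∀ x ∈ H, f x ∈ H) (x : H) :
    (rs f H h x : M) = f x := rfl

theorem rs_iter (f : M ≃* M) (H : Subgroup M) (h : ∀ x ∈ H, f x ∈ H) (k : ℕ) (x : H) :
    ((⇑(rs f H h))^[k] x : M) = (⇑f)^[k] x := by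
  induction k generalizing x with
  | zero => rfl
  | succ k ih => rw [Function.iterate_succ_apply, Function.iterate_succ_apply, ih, rs_coe]

theorem rs_act (A : Act s g q) (H : Subgroup M) (h1 : ∀ x ∈ H, s x ∈ H) (h2 : ∀ x ∈ H, g x ∈ H) :
    Act (rs s H h1) (rs g H h2) q where
  odd := by
    have := card_subgroup_dvd_card H
    exact Odd.of_dvd_nat A.odd this
  ss x := Subtype.ext (by rw [rs_coe, rs_coe, A.ss])
  gq x := Subtype.ext (by rw [rs_iter, A.gq])
  sg x := Subtype.ext (by rw [rs_coe, rs_coe, rs_coe, rs_coe, A.sg])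
  qp := A.qp
  qn := fun h => A.qn (h.trans (card_subgroup_dvd_card H))
  fx x := by
    rw [Subtype.ext_iff, Subtype.ext_iff, rs_coe, rs_coe]
    exact A.fx x

end FbZ
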