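import Pool.Agent.Lib.MP_fb3619_al.H90.S1c

/-! Theorem Z, part 1: (1d) and the conclusion. -/

namespace FbZ

open Subgroup
open scoped commutatorElement

universe u

set_option linter.unusedSectionVars false

variable {M : Type u} [Group M] [Finite M] {s g : M ≃* M} {p q : ℕ} {z : M}

/-- the normal closure of `z` -/
def Zs (z : M) : Subgroup M := closure {x | ∃ m : M, x = m * z * m⁻¹}

theorem Zs_z (z : M) : z ∈ Zs z := subset_closure ⟨1, by group⟩

theorem Zs_mem (z m : M) : m * z * m⁻¹ ∈ Zs z := subset_closure ⟨m, rfl⟩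

theorem Zs_normal (z : M) : (Zs z).Normal := by
  constructor
  intro a ha c
  have : Zs z ≤ (Zs z).comap (MulAut.conj c).toMonoidHom := by
    conv_lhs => rw [Zs]
    rw [closure_le]
    rintro _ ⟨m, rfl⟩
    refine subset_closure ⟨c * m, ?_⟩
    show c * (m * z * m⁻¹) * c⁻¹ = _
    group
  exact this ha

theorem Zs_AInv (D : Dat M s g p q z) : AInv s g (Zs z) := by
  apply AInv.closure
  · rintro _ ⟨m, rfl⟩
    exact ⟨s m, by rw [map_mul, map_mul, map_inv, D.sz]⟩
  · rintro _ ⟨m, rfl⟩
    exact ⟨g m, by rw [map_mul, map_mul, map_inv, (D.act.fx z).1 D.sz]⟩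

theorem Zs_comm (h : ∀ m : M, (m * z * m⁻¹) * z = z * (m * z * m⁻¹)) :
    ∀ a ∈ Zs z, ∀ b ∈ Zs z, a * b = b * a := by
  intro a ha b hb
  have h := (Subgroup.isMulCommutative_closure (k := {x | ∃ m : M, x = m * z * m⁻¹}) (by
    rintro _ ⟨m, rfl⟩ _ ⟨l, rfl⟩
    have h1 := h (l⁻¹ * m)
    calc m * z * m⁻¹ * (l * z * l⁻¹)
        = l * ((l⁻¹ * m * z * (l⁻¹ * m)⁻¹) * z) * l⁻¹ := by group
      _ = l * (z * (l⁻¹ * m * z * (l⁻¹ * m)⁻¹)) * l⁻¹ := by rw [h1]
      _ = l * z * l⁻¹ * (m * z * m⁻¹) := by group))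
  exact congrArg Subtype.val (h.is_comm.comm ⟨a, ha⟩ ⟨b, hb⟩)

theorem Zs_pow (hz : z ^ p = 1) (h : ∀ m : M, (m * z * m⁻¹) * z = z * (m * z * m⁻¹)) :
    ∀ a ∈ Zs z, a ^ p = 1 := by
  intro a ha
  refine closure_induction (p := fun a _ => a ^ p = 1) ?_ (one_pow _) ?_ ?_ ha
  · rintro _ ⟨m, rfl⟩
    rw [conj_pow, hz, mul_one, mul_inv_cancel]
  · intro a b ha hb h3 h4
    rw [(show Commute a b from Zs_comm h a ha b hb).mul_pow, h3, h4, one_mul]
  · intro a _ h3
    rw [inv_pow, h3, _root_.inv_one]

theorem pg_of_pow {T : Subgroup M} (h : ∀ a ∈ T, a ^ p = 1) : IsPGroup p T := by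
  intro a
  refine ⟨1, ?_⟩
  rw [pow_one]
  exact Subtype.ext (h a.1 a.2)

theorem Zs_LR (hLR : LRStatement.{u}) (D : Dat M s g p q z)
    (h : ∀ m : M, (m * z * m⁻¹) * z = z * (m * z * m⁻¹)) {r : ℕ} (hr : r.Prime) (hrp : r ≠ p)
    {R : Subgroup M} (hR : AInv s g R) (hRr : IsPGroup r R) {x : M} (hx : x ∈ R)
    (hxi : s x = x⁻¹) : ∀ a ∈ Zs z, x * a = a * x :=
  have hq2 : q ≠ 2 := by
    have h1 := D.pp.two_le
    have h2 := D.pq
    omega
  hLR M s g p q r z (Zs z) R D.act hq2 D.pp hr hrp (Zs_AInv D) (Zs_comm h) (Zs_pow D.zp h)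
    (Zs_z z) D.sz (fun a ha hs => ordp D hs (Zs_pow D.zp h a ha)) D.zc hR hRr
    (fun x _ a ha => (Zs_normal z).conj_mem a ha x) x hx hxi

theorem mem_nrm_of {T : Subgroup M} {n : M} (h : ∀ t ∈ T, n * t * n⁻¹ ∈ T) :
    n ∈ normalizer (T : Set M) := by
  rw [mem_normalizer_iff]
  intro t
  refine ⟨h t, fun ht => ?_⟩
  have a2 := conj_back (P := T) (Q := T) (n := n) h rfl _ ht
  have e : n⁻¹ * (n * t * n⁻¹) * n = t := by group
  rw [e] at a2
  exact a2

theorem core_AInv (D : Dat M s g p q z) {O : Subgroup M} (hO : AInv s g O) :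
    AInv s g O.normalCore := by
  constructor
  · intro a ha b
    obtain ⟨b, rfl⟩ := s.surjective b
    rw [← map_mul, ← map_inv, ← map_mul]
    exact hO.1 _ (ha b)
  · intro a ha b
    obtain ⟨b, rfl⟩ := g.surjective b
    rw [← map_mul, ← map_inv, ← map_mul]
    exact hO.2 _ (ha b)

theorem s1_aux (hLR : LRStatement.{u}) (hAFF : AFFStatement.{u}) (hFL : FLStatement.{u})
    (hTR : TRStatement.{u}) (hQUO : QUOStatement.{u}) (hHYP : HYPStatement.{u}) :
    ∀ n : ℕ, ∀ (M : Type u) [Group M] [Finite M] (s g : M ≃* M) (p q : ℕ) (z : M),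
      Nat.card M = n → Dat M s g p q z → ¬ AB M s g p := by
  intro n
  induction n using Nat.strong_induction_on with
  | _ n ih =>
    intro M _ _ s g p q z hn D hAB
    have A := D.act
    have noX : ∀ X : Subgroup M, X.Normal → AInv s g X → IsPGroup p X →
        (∀ x ∈ X, s x = x⁻¹) → X = ⊥ := by
      intro X h1 h2 h3 h4
      by_contra h5
      obtain ⟨M', _, _, s', g', z', hc, D', hAB'⟩ := hQUO M s g p q z X D hAB h1 h2 h3 h4 h5
      exact ih _ (hn ▸ hc) M' s' g' p q z' rfl D' hAB'
    by_cases h1 : ∀ m : M, (m⁻¹ * z * m) * z = z * (m⁻¹ * z * m) → m⁻¹ * z * m = z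
    · exact one_a hTR D hAB h1
    push Not at h1
    obtain ⟨m₀, h2, h3⟩ := h1
    obtain ⟨y₀, hy₀, hy1⟩ := one_b D hAB h2 h3
    have hcomm : ∀ m : M, (m * z * m⁻¹) * z = z * (m * z * m⁻¹) := by
      have hzO : z ∈ Om D := right_le_psub (mem_zpowers z)
      rcases hHYP M p (Om D) D.pp (Om_comm D) (Om_pow D) (one_c hFL hAFF D) with h4 | h4
      · intro m
        exact (h4 m z hzO z hzO).symm
      · by_cases hzK : z ∈ (Om D).normalCore
        · intro m
          exact Om_comm D _ ((Om D).normalCore_le (normalCore_normal _ |>.conj_mem z hzK m)) z hzO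
        · exfalso
          have h5 : (Om D).normalCore = ⊥ := by
            apply noX _ (normalCore_normal _) (core_AInv D (Om_AInv D))
              (pg_of_pow fun a ha => Om_pow D a ((Om D).normalCore_le ha))
            intro d hd
            have hd' := (core_AInv D (Om_AInv D)).1 d hd
            have h6 : d * s d ∈ (Om D).normalCore := mul_mem hd hd'
            have h7 : s (d * s d) = d * s d := by
              rw [map_mul, A.ss]
              exact Om_comm D _ ((Om D).normalCore_le hd') _ ((Om D).normalCore_le hd)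
            by_cases h8 : d * s d = 1
            · exact eq_inv_of_mul_eq_one_right h8
            · exfalso
              apply hzK
              have h9 : z ∈ zpowers (d * s d) := by
                apply zmem D
                · rw [zpowers_le]; exact h7
                · apply pg_of_pow
                  intro a ha
                  exact Om_pow D a ((Om D).normalCore_le
                    ((zpowers_le.2 h6 : zpowers (d * s d) ≤ _) ha))
                · intro h10
                  exact h8 (zpowers_eq_bot.1 h10)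
              exact (zpowers_le.2 h6 : zpowers (d * s d) ≤ _) h9
          rw [h5, relIndex_bot_left] at h4
          have h6 : zpowers z = Om D := by
            apply eq_of_le_of_card_ge right_le_psub
            rw [card_zp D]
            exact h4
          have h7 : y₀ ∈ zpowers z := by
            rw [h6]
            exact left_le_psub (subset_closure hy₀)
          exact hy1 (fix_inv A.odd (zN D h7) hy₀.1)
    have hc := Zs_comm hcomm
    have hp := Zs_pow D.zp hcomm
    let Y : Subgroup M := iv s (Zs z) (fun x hx y hy _ _ => hc x hx y hy)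
    have hY1 : y₀ ∈ Y := by
      refine ⟨?_, hy₀.1⟩
      obtain ⟨-, -, i, m, h4⟩ := hy₀
      have h5 : y₀ = (m * z * m⁻¹) * (z ^ i)⁻¹ := by rw [← h4]; group
      rw [h5]
      exact mul_mem (Zs_mem z m) (inv_mem (zpow_mem (Zs_z z) i))
    have hYZ : Y ≤ Zs z := fun x hx => hx.1
    have hYA : AInv s g Y := by
      constructor
      · intro x hx
        rw [hx.2]; exact inv_mem hx
      · intro x hx
        refine ⟨(Zs_AInv D).2 x hx.1, ?_⟩
        rw [A.sg, hx.2, map_inv]
    have hYp : IsPGroup p Y := pg_of_pow fun a ha => hp a ha.1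
    have hYN : normalizer (Y : Set M) = ⊤ := by
      have h0 : ∀ x : M, (∀ a ∈ Y, x * a = a * x) → x ∈ normalizer (Y : Set M) := by
        intro x hx
        apply mem_nrm_of
        intro t ht
        rw [hx t ht, mul_inv_cancel_right]
        exact ht
      apply top_of_inv A
      · intro n hn
        apply mem_nrm_of
        intro t ht
        refine ⟨(Zs_normal z).conj_mem t ht.1 n, ?_⟩
        rw [map_mul, map_mul, map_inv, show s n = n from hn, ht.2]
        group
      · intro r hr
        obtain ⟨R, hR, hRA⟩ := syl_A hr A (AInv.top (s := s) (g := g))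
        refine ⟨R, hR, hRA, fun x hx hxi => ?_⟩
        apply h0
        intro a ha
        by_cases hrp : r = p
        · subst hrp
          have h6 : Zs z ≤ R := nrm_le D.pp hR le_top (pg_of_pow hp)
            (fun m _ t ht => (Zs_normal z).conj_mem t ht m)
          exact hAB R hRA hR.isP x hx a (h6 ha.1) hxi ha.2
        · exact Zs_LR hLR D hcomm hr hrp hRA hR.isP hx hxi a ha.1
    have hYnorm : Y.Normal := normalizer_eq_top_iff.1 hYN
    have h4 := noX Y hYnorm hYA hYp (fun x hx => hx.2)
    rw [h4] at hY1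
    exact hy1 (mem_bot.1 hY1)

theorem s1_proof (hLR : LRStatement.{u}) (hAFF : AFFStatement.{u}) (hFL : FLStatement.{u})
    (hTR : TRStatement.{u}) (hQUO : QUOStatement.{u}) (hHYP : HYPStatement.{u}) :
    S1Statement.{u} := by
  intro M _ _ s g p q z D
  exact s1_aux hLR hAFF hFL hTR hQUO hHYP _ M s g p q z rfl D

end FbZ
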