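import Pool.Agent.Lib.MP_fb3619_al.H90.S0

/-! Theorem Z, part 1: (1a), (1b). -/

namespace FbZ

open Subgroup
open scoped commutatorElement

universe u

set_option linter.unusedSectionVars false

variable {M : Type u} [Group M] [Finite M] {s g : M ≃* M} {p q : ℕ} {z : M}

/-- the inverted elements of a subgroup when they commute -/
def iv (s : M ≃* M) (P : Subgroup M)
    (hc : ∀ x ∈ P, ∀ y ∈ P, s x = x⁻¹ → s y = y⁻¹ → x * y = y * x) : Subgroup M where
  carrier := {x | x ∈ P ∧ s x = x⁻¹}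
  one_mem' := ⟨one_mem _, by rw [map_one, _root_.inv_one]⟩
  mul_mem' := by
    rintro a b ⟨ha, ha'⟩ ⟨hb, hb'⟩
    refine ⟨mul_mem ha hb, ?_⟩
    rw [map_mul, ha', hb', ← mul_inv_rev, hc b hb a ha hb' ha']
  inv_mem' := by
    rintro a ⟨ha, ha'⟩
    refine ⟨inv_mem ha, ?_⟩
    rw [map_inv, ha']

theorem iv_nrm (odd : Odd (Nat.card M)) (ss : ∀ x, s (s x) = x) {P : Subgroup M}
    (hP : ∀ x ∈ P, s x ∈ P)
    (hc : ∀ x ∈ P, ∀ y ∈ P, s x = x⁻¹ → s y = y⁻¹ → x * y = y * x) {a x : M} (ha : a ∈ P)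
    (hx : x ∈ iv s P hc) : a * x * a⁻¹ ∈ iv s P hc := by
  obtain ⟨n, hn, y, hy, h1, h2, rfl⟩ := decomp odd ss P hP ha
  have e : n * y * x * (n * y)⁻¹ = n * x * n⁻¹ := by
    calc n * y * x * (n * y)⁻¹ = n * (y * x) * y⁻¹ * n⁻¹ := by group
      _ = n * (x * y) * y⁻¹ * n⁻¹ := by rw [hc y hy x hx.1 h2 hx.2]
      _ = n * x * n⁻¹ := by group
  rw [e]
  refine ⟨mul_mem (mul_mem hn hx.1) (inv_mem hn), ?_⟩
  rw [map_mul, map_mul, map_inv, h1, hx.2]
  group

theorem iv_comm (odd : Odd (Nat.card M)) (ss : ∀ x, s (s x) = x) {P : Subgroup M}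
    (hP : ∀ x ∈ P, s x ∈ P)
    (hc : ∀ x ∈ P, ∀ y ∈ P, s x = x⁻¹ → s y = y⁻¹ → x * y = y * x)
    (hN : ∀ x ∈ P, ∀ y ∈ P, s x = x → s y = y → x * y = y * x) {a b : M} (ha : a ∈ P)
    (hb : b ∈ P) : ⁅a, b⁆ ∈ iv s P hc := by
  obtain ⟨n, hn, y, hy, h1, h2, rfl⟩ := decomp odd ss P hP ha
  obtain ⟨n', hn', y', hy', h1', h2', rfl⟩ := decomp odd ss P hP hb
  have hyI : y ∈ iv s P hc := ⟨hy, h2⟩
  have hyI' : y' ∈ iv s P hc := ⟨hy', h2'⟩
  have e1 : ⁅n * y, n' * y'⁆ =
      (n * y * n⁻¹) * ((n * n') * (y' * y⁻¹) * (n * n')⁻¹) *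
        ((n * n' * n⁻¹) * y'⁻¹ * (n * n' * n⁻¹)⁻¹) * ⁅n, n'⁆ := by
    rw [commutatorElement_def, commutatorElement_def]
    group
  have e2 : ⁅n, n'⁆ = 1 := commutatorElement_eq_one_iff_mul_comm.2 (hN n hn n' hn' h1 h1')
  rw [e1, e2, mul_one]
  exact mul_mem (mul_mem (iv_nrm odd ss hP hc hn hyI)
    (iv_nrm odd ss hP hc (mul_mem hn hn') (mul_mem hyI' (inv_mem hyI))))
    (iv_nrm odd ss hP hc (mul_mem (mul_mem hn hn') (inv_mem hn)) (inv_mem hyI'))

/-- (1a) -/
theorem one_a (hTR : TRStatement.{u}) (D : Dat M s g p q z) (hAB : AB M s g p)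
    (h : ∀ m : M, (m⁻¹ * z * m) * z = z * (m⁻¹ * z * m) → m⁻¹ * z * m = z) : False := by
  have : Fact p.Prime := ⟨D.pp⟩
  have A := D.act
  have hC : AInv s g (centralizer {z}) := AInv.cen_of A D.sz
  obtain ⟨P, hP, hPA⟩ := syl_A D.pp A hC
  have hPp := hP.isP
  have zC : zpowers z ≤ centralizer {z} := by
    rw [zpowers_le, mem_centralizer_singleton_iff]
  have zpg : IsPGroup p (zpowers z) := by
    apply IsPGroup.of_card (n := 1)
    rw [card_zp D, pow_one]
  have zP : zpowers z ≤ P := by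
    apply nrm_le D.pp hP zC zpg
    intro c hc t ht
    have h1 : c * t = t * c := zcom D ht (mem_centralizer_singleton_iff.1 hc)
    have e : c * t * c⁻¹ = t := by rw [h1]; group
    rw [e]; exact ht
  have zP' : z ∈ P := zP (mem_zpowers z)
  have hc : ∀ x ∈ P, ∀ y ∈ P, s x = x⁻¹ → s y = y⁻¹ → x * y = y * x := hAB P hPA hPp
  have hcyc : IsCyclic (Nn s ⊓ P : Subgroup M) := D.cyc _ inf_le_left hPp.to_inf_right
  have hN : ∀ x ∈ P, ∀ y ∈ P, s x = x → s y = y → x * y = y * x := by
    intro x hx y hy h1 h2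
    exact congrArg Subtype.val (isMulCommutative_iff.1 hcyc.commutative
      ⟨x, mem_inf.2 ⟨h1, hx⟩⟩ ⟨y, mem_inf.2 ⟨h2, hy⟩⟩)
  -- index
  have hind : ¬ p ∣ P.index := by
    rw [← relIndex_mul_index hP.1, D.pp.dvd_mul]
    rintro (h1 | h1)
    · have h2 := card_rel hP.1
      rw [hP.2] at h2
      have h3 : p ^ ((Nat.card (centralizer {z})).factorization p + 1) ∣
          Nat.card (centralizer {z}) := by
        rw [pow_succ]
        conv_rhs => rw [← h2]
        exact Nat.mul_dvd_mul_left _ h1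
      have h4 := (D.pp.pow_dvd_iff_le_factorization Nat.card_pos.ne').1 h3
      omega
    · let f : M ⧸ (centralizer {z} : Subgroup M) → M ⧸ (centralizer {z} : Subgroup M) :=
        fun a => z • a
      have hf : ∀ k : ℕ, ∀ a, f^[k] a = z ^ k • a := by
        intro k
        induction k with
        | zero => intro a; rw [pow_zero, one_smul]; rfl
        | succ k ih =>
          intro a
          rw [Function.iterate_succ_apply', ih, pow_succ', mul_smul]
      have h2 := fpc D.pp f (fun a => by rw [hf, D.zp, one_smul])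
      have h3 : Nat.card {a // f a = a} = 1 := by
        rw [Nat.card_eq_one_iff_unique]
        constructor
        · constructor
          have key : ∀ a : {a // f a = a}, a.1 = ((1 : M) : M ⧸ (centralizer {z} : Subgroup M)) := by
            rintro ⟨a, ha⟩
            induction a using Quotient.inductionOn' with
            | h m =>
              have h4 : ((m : M) : M ⧸ (centralizer {z} : Subgroup M)) =
                  ((z * m : M) : M ⧸ (centralizer {z} : Subgroup M)) := ha.symm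
              rw [QuotientGroup.eq, mem_centralizer_singleton_iff] at h4
              have e : m⁻¹ * (z * m) = m⁻¹ * z * m := by group
              rw [e] at h4
              have h5 := h m h4
              show ((m : M) : M ⧸ (centralizer {z} : Subgroup M)) = _
              rw [eq_comm, QuotientGroup.eq, mem_centralizer_singleton_iff]
              calc 1⁻¹ * m * z = m * z := by group
                _ = m * (m⁻¹ * z * m) := by rw [h5]
                _ = z * (1⁻¹ * m) := by group
          intro a b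
          exact Subtype.ext ((key a).trans (key b).symm)
        · refine ⟨⟨((1 : M) : M ⧸ (centralizer {z} : Subgroup M)), ?_⟩⟩
          show ((z * 1 : M) : M ⧸ (centralizer {z} : Subgroup M)) = _
          rw [mul_one, eq_comm, QuotientGroup.eq, mem_centralizer_singleton_iff]
          group
      rw [h3] at h2
      have h4 : Nat.card (M ⧸ (centralizer {z} : Subgroup M)) ≡ 0 [MOD p] :=
        (Nat.modEq_zero_iff_dvd).2 h1
      have h5 : 1 ≡ 0 [MOD p] := h2.symm.trans h4
      have h6 := (Nat.modEq_zero_iff_dvd).1 h5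
      exact D.pp.one_lt.ne' (Nat.dvd_one.1 h6)
  refine hTR M p z P (iv s P hc) D.pp (fun x hx => hx.1)
    (fun x hx y hy => iv_nrm A.odd A.ss hPA.1 hc hx hy)
    (fun a ha b hb => iv_comm A.odd A.ss hPA.1 hc hN ha hb) zP' ?_ D.zp hind ?_ (z_comm D)
  · intro h1
    exact D.z1 (fix_inv A.odd D.sz h1.2)
  · intro k m hk
    by_cases hz : z ^ k = 1
    · rw [hz]; group
    · have h1 : z ∈ zpowers (z ^ k) := by
        apply zmem D
        · rw [zpowers_le]
          exact pow_mem (show z ∈ Nn s from D.sz) k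
        · exact zpg.to_le (by rw [zpowers_le]; exact pow_mem (mem_zpowers z) k)
        · intro h2
          exact hz (zpowers_eq_bot.1 h2)
      obtain ⟨j, hj⟩ := mem_zpowers_iff.1 h1
      have e1 : m⁻¹ * z * m = (m⁻¹ * z ^ k * m) ^ j := by
        have : (m⁻¹ * z ^ k * m) ^ j = m⁻¹ * (z ^ k) ^ j * m := by
          have := conj_zpow (a := m⁻¹) (b := z ^ k) (i := j)
          rw [inv_inv] at this
          exact this
        rw [this, hj]
      have h3 : m⁻¹ * z * m ∈ P := by
        rw [e1]; exact zpow_mem hk j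
      have h4 := h m (mem_centralizer_singleton_iff.1 (hP.1 h3))
      have h5 : m⁻¹ * z ^ k * m = (m⁻¹ * z * m) ^ k := by
        have := conj_pow (a := m⁻¹) (b := z) (i := k)
        rw [inv_inv] at this
        exact this.symm
      rw [h5, h4]

end FbZ
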