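import Pool.Agent.Lib.MP_fb3619_al.H90.S1a

/-! Theorem Z, part 1: (1b), (1c). -/

namespace FbZ

open Subgroup
open scoped commutatorElement

universe u

set_option linter.unusedSectionVars false

variable {M : Type u} [Group M] [Finite M] {s g : M ≃* M} {p q : ℕ} {z : M}

/-- the set `𝒴` of (1b) -/
def YY (s : M ≃* M) (z y : M) : Prop :=
  s y = y⁻¹ ∧ y * z = z * y ∧ ∃ (i : ℤ) (m : M), y * z ^ i = m * z * m⁻¹

theorem YY_conj (D : Dat M s g p q z) {y c : M} (hy : YY s z y) (hc : c * z = z * c) :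
    YY s z (c * y * c⁻¹) := by
  obtain ⟨h1, h2, i, m, h3⟩ := hy
  have A := D.act
  have hC : AInv s g (centralizer {z}) := AInv.cen_of A D.sz
  obtain ⟨n, hn, h4⟩ := key A.odd A.ss (centralizer {z}) hC.1
    (fun x hx => mem_centralizer_singleton_iff.2 (D.zc x hx)) m
    (mem_centralizer_singleton_iff.2 hc)
  rw [mem_centralizer_singleton_iff] at h4
  have hnz : n * z = z * n := D.zc n hn
  have hci : c * z ^ i = z ^ i * c := ((show Commute c z from hc).zpow_right i).eq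
  have hni : n * z ^ i = z ^ i * n := ((show Commute n z from hnz).zpow_right i).eq
  -- `n⁻¹ c` commutes with `m z m⁻¹`
  have h5 : (n⁻¹ * c) * (m * z * m⁻¹) * (n⁻¹ * c)⁻¹ = m * z * m⁻¹ := by
    calc (n⁻¹ * c) * (m * z * m⁻¹) * (n⁻¹ * c)⁻¹
        = m * ((m⁻¹ * (n⁻¹ * c) * m) * z) * (m⁻¹ * (n⁻¹ * c) * m)⁻¹ * m⁻¹ := by group
      _ = m * (z * (m⁻¹ * (n⁻¹ * c) * m)) * (m⁻¹ * (n⁻¹ * c) * m)⁻¹ * m⁻¹ := by rw [h4]
      _ = m * z * m⁻¹ := by group
  have h6 : c * y * c⁻¹ = n * y * n⁻¹ := by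
    have a1 : c * (y * z ^ i) * c⁻¹ = n * (y * z ^ i) * n⁻¹ := by
      rw [h3]
      calc c * (m * z * m⁻¹) * c⁻¹
          = n * ((n⁻¹ * c) * (m * z * m⁻¹) * (n⁻¹ * c)⁻¹) * n⁻¹ := by group
        _ = n * (m * z * m⁻¹) * n⁻¹ := by rw [h5]
    have a2 : ∀ t : M, t * z ^ i = z ^ i * t → t * (y * z ^ i) * t⁻¹ = t * y * t⁻¹ * z ^ i := by
      intro t ht
      calc t * (y * z ^ i) * t⁻¹ = t * y * t⁻¹ * (t * z ^ i) * t⁻¹ := by group
        _ = t * y * t⁻¹ * (z ^ i * t) * t⁻¹ := by rw [ht]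
        _ = t * y * t⁻¹ * z ^ i := by group
    rw [a2 c hci, a2 n hni] at a1
    exact mul_right_cancel a1
  refine ⟨?_, ?_, i, c * m, ?_⟩
  · rw [h6, map_mul, map_mul, map_inv, hn, h1]; group
  · calc c * y * c⁻¹ * z = c * y * c⁻¹ * (z * c) * c⁻¹ := by group
      _ = c * y * c⁻¹ * (c * z) * c⁻¹ := by rw [hc]
      _ = c * (y * z) * c⁻¹ := by group
      _ = c * (z * y) * c⁻¹ := by rw [h2]
      _ = (c * z) * y * c⁻¹ := by group
      _ = (z * c) * y * c⁻¹ := by rw [hc]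
      _ = z * (c * y * c⁻¹) := by group
  · calc c * y * c⁻¹ * z ^ i = c * y * c⁻¹ * (z ^ i * c) * c⁻¹ := by group
      _ = c * y * c⁻¹ * (c * z ^ i) * c⁻¹ := by rw [hci]
      _ = c * (y * z ^ i) * c⁻¹ := by group
      _ = c * (m * z * m⁻¹) * c⁻¹ := by rw [h3]
      _ = c * m * z * (c * m)⁻¹ := by group

theorem YY_comm (D : Dat M s g p q z) {x y : M} (hx : YY s z x) (hy : YY s z y) :
    x * y = y * x :=
  (inv_comm D.act.odd hx.1 hy.1 (YY_conj D hx hy.2.1).1).symm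

theorem YY_pow (D : Dat M s g p q z) {y : M} (hy : YY s z y) : y ^ p = 1 := by
  obtain ⟨-, h2, i, m, h3⟩ := hy
  have h4 : (y * z ^ i) ^ p = 1 := by
    rw [h3, conj_pow, D.zp, mul_one, mul_inv_cancel]
  have h5 : Commute y (z ^ i) := (show Commute y z from h2).zpow_right i
  rw [h5.mul_pow, ← zpow_natCast (z ^ i), ← zpow_mul, mul_comm i, zpow_mul, zpow_natCast, D.zp,
    one_zpow, mul_one] at h4
  exact h4

theorem YY_s (D : Dat M s g p q z) {y : M} (hy : YY s z y) : YY s z (s y) := by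
  obtain ⟨h1, h2, i, m, h3⟩ := hy
  refine ⟨?_, ?_, i, s m, ?_⟩
  · rw [D.act.ss, h1, inv_inv]
  · rw [← D.sz, ← map_mul, h2, D.sz, map_mul, D.sz]
  · have := congrArg s h3
    rw [map_mul, map_mul, map_mul, map_inv, map_zpow, D.sz] at this
    exact this

theorem YY_g (D : Dat M s g p q z) {y : M} (hy : YY s z y) : YY s z (g y) := by
  obtain ⟨h1, h2, i, m, h3⟩ := hy
  have gz : g z = z := (D.act.fx z).1 D.sz
  refine ⟨?_, ?_, i, g m, ?_⟩
  · rw [D.act.sg, h1, map_inv]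
  · rw [← gz, ← map_mul, h2, gz, map_mul, gz]
  · have := congrArg g h3
    rw [map_mul, map_mul, map_mul, map_inv, map_zpow, gz] at this
    exact this

/-- the subgroup `X` -/
def XX (s : M ≃* M) (z : M) : Subgroup M := closure {y | YY s z y}

theorem XX_comm (D : Dat M s g p q z) : ∀ a ∈ XX s z, ∀ b ∈ XX s z, a * b = b * a := by
  intro a ha b hb
  have h := (Subgroup.isMulCommutative_closure (k := {y | YY s z y})
    (fun x hx y hy => YY_comm D hx hy))
  exact congrArg Subtype.val (h.is_comm.comm ⟨a, ha⟩ ⟨b, hb⟩)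

theorem XX_pow (D : Dat M s g p q z) : ∀ a ∈ XX s z, a ^ p = 1 := by
  intro a ha
  refine closure_induction (p := fun a _ => a ^ p = 1) ?_ (one_pow _) ?_ ?_ ha
  · intro x hx
    exact YY_pow D hx
  · intro a b ha hb h3 h4
    rw [(show Commute a b from XX_comm D a ha b hb).mul_pow, h3, h4, one_mul]
  · intro a _ h3
    rw [inv_pow, h3, _root_.inv_one]

theorem XX_inv (D : Dat M s g p q z) : ∀ a ∈ XX s z, s a = a⁻¹ := by
  intro a ha
  refine closure_induction (p := fun a _ => s a = a⁻¹) ?_ (by rw [map_one, _root_.inv_one])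
    ?_ ?_ ha
  · intro x hx
    exact hx.1
  · intro a b ha hb h3 h4
    rw [map_mul, h3, h4, XX_comm D a ha b hb, mul_inv_rev]
  · intro a _ h3
    rw [map_inv, h3]

theorem XX_AInv (D : Dat M s g p q z) : AInv s g (XX s z) :=
  AInv.closure (fun _ hx => YY_s D hx) (fun _ hx => YY_g D hx)

theorem XX_z (D : Dat M s g p q z) : ∀ a ∈ XX s z, a * z = z * a := by
  intro a ha
  have : XX s z ≤ centralizer {z} := by
    rw [XX, closure_le]
    intro x hx
    exact mem_centralizer_singleton_iff.2 hx.2.1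
  exact mem_centralizer_singleton_iff.1 (this ha)

theorem XX_nrm (D : Dat M s g p q z) {c : M} (hc : c * z = z * c) :
    ∀ a ∈ XX s z, c * a * c⁻¹ ∈ XX s z := by
  intro a ha
  have : XX s z ≤ (XX s z).comap (MulAut.conj c).toMonoidHom := by
    conv_lhs => rw [XX]
    rw [closure_le]
    intro x hx
    exact subset_closure (YY_conj D hx hc)
  exact this ha

theorem one_b (D : Dat M s g p q z) (hAB : AB M s g p) {m : M}
    (h : (m⁻¹ * z * m) * z = z * (m⁻¹ * z * m)) (hne : m⁻¹ * z * m ≠ z) :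
    ∃ y, YY s z y ∧ y ≠ 1 := by
  have A := D.act
  have : Fact p.Prime := ⟨D.pp⟩
  have hC : AInv s g (centralizer {z}) := AInv.cen_of A D.sz
  obtain ⟨P, hP, hPA⟩ := syl_A D.pp A hC
  have hPp := hP.isP
  have hT : zpowers (m⁻¹ * z * m) ≤ centralizer {z} := by
    rw [zpowers_le, mem_centralizer_singleton_iff]
    exact h
  have hTp : IsPGroup p (zpowers (m⁻¹ * z * m)) := by
    have e : (m⁻¹ * z * m) ^ p = 1 := by
      have := conj_pow (a := m⁻¹) (b := z) (i := p)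
      rw [inv_inv, D.zp, mul_one, inv_mul_cancel] at this
      exact this
    intro a
    refine ⟨1, ?_⟩
    obtain ⟨k, hk⟩ := mem_zpowers_iff.1 a.2
    apply Subtype.ext
    show (a : M) ^ p ^ 1 = 1
    rw [pow_one, ← hk, ← zpow_natCast, ← zpow_mul, mul_comm, zpow_mul, zpow_natCast, e, one_zpow]
  obtain ⟨c, hc, h1⟩ := syl_conj D.pp hP hT hTp
  have hc' := mem_centralizer_singleton_iff.1 hc
  have h2 := h1 _ (mem_zpowers _)
  set w := c * (m⁻¹ * z * m) * c⁻¹ with hw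
  have hwp : w ^ p = 1 := by
    rw [hw, conj_pow]
    have e : (m⁻¹ * z * m) ^ p = 1 := by
      have := conj_pow (a := m⁻¹) (b := z) (i := p)
      rw [inv_inv, D.zp, mul_one, inv_mul_cancel] at this
      exact this
    rw [e, mul_one, mul_inv_cancel]
  have hcomm : ∀ x ∈ P, ∀ y ∈ P, s x = x⁻¹ → s y = y⁻¹ → x * y = y * x := hAB P hPA hPp
  -- w⁻¹ = n y
  obtain ⟨n, hn, y, hy, h3, h4, h5⟩ := decomp A.odd A.ss P hPA.1 (inv_mem h2)
  have h6 : w = y⁻¹ * n⁻¹ := by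
    rw [← mul_inv_rev, ← h5, inv_inv]
  -- n⁻¹ has order dividing p
  have h7 : n⁻¹ ^ p = 1 := by
    let Q := iv s P hcomm
    have a1 : ∀ k : ℕ, ∃ t ∈ Q, w ^ k = t * n⁻¹ ^ k := by
      intro k
      induction k with
      | zero => exact ⟨1, one_mem _, by simp⟩
      | succ k ih =>
        obtain ⟨t, ht, h8⟩ := ih
        refine ⟨y⁻¹ * (n⁻¹ * t * n⁻¹⁻¹), mul_mem (inv_mem ⟨hy, h4⟩)
          (iv_nrm A.odd A.ss hPA.1 hcomm (inv_mem hn) ht), ?_⟩
        rw [pow_succ', h8, pow_succ']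
        nth_rewrite 1 [h6]
        group
    obtain ⟨t, ht, h8⟩ := a1 p
    rw [hwp] at h8
    have h9 : n⁻¹ ^ p = t⁻¹ := eq_inv_of_mul_eq_one_right h8.symm
    have h10 : s (n⁻¹ ^ p) = n⁻¹ ^ p := by rw [map_pow, map_inv, h3]
    apply fix_inv A.odd h10
    rw [h9, map_inv, ht.2]
  have h8 := ordp D (n := n⁻¹) (by rw [map_inv, h3]) h7
  obtain ⟨i, hi⟩ := mem_zpowers_iff.1 h8
  have hyz : y * z = z * y := mem_centralizer_singleton_iff.1 (hP.1 hy)
  refine ⟨y⁻¹, ⟨by rw [map_inv, h4], ?_, i, c * m⁻¹, ?_⟩, ?_⟩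
  · exact ((show Commute y z from hyz).inv_left).eq
  · rw [hi, ← h6, hw]; group
  · intro h9
    rw [h9, one_mul] at h6
    apply hne
    have h10 : s ((m * c⁻¹)⁻¹ * z * (m * c⁻¹)) = (m * c⁻¹)⁻¹ * z * (m * c⁻¹) := by
      have e : (m * c⁻¹)⁻¹ * z * (m * c⁻¹) = w := by rw [hw]; group
      rw [e, h6, map_inv, h3]
    have h11 := fus A.odd A.ss D.sz D.zc h10
    calc m⁻¹ * z * m = c⁻¹ * ((m * c⁻¹)⁻¹ * z * (m * c⁻¹)) * c := by group
      _ = c⁻¹ * (z * c) := by rw [h11]; group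
      _ = c⁻¹ * (c * z) := by rw [hc']
      _ = z := by group

end FbZ
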