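import Pool.Agent.Lib.MP_fb3619_al.H90.S1b

/-! Theorem Z, part 1: (1c). -/

namespace FbZ

open Subgroup
open scoped commutatorElement

universe u

set_option linter.unusedSectionVars false

variable {M : Type u} [Group M] [Finite M] {s g : M ≃* M} {p q : ℕ} {z : M}

theorem pow_mod {X : Subgroup M} {n x : M} (hn : ∀ t ∈ X, n * t * n⁻¹ ∈ X) (hx : x ∈ X)
    (k : ℕ) : ∃ t ∈ X, (x * n) ^ k = t * n ^ k := by
  induction k with
  | zero => exact ⟨1, one_mem _, by simp⟩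
  | succ k ih =>
    obtain ⟨t, ht, h⟩ := ih
    refine ⟨x * (n * t * n⁻¹), mul_mem hx (hn t ht), ?_⟩
    rw [pow_succ', h, pow_succ']
    group

theorem rel_le_card (T Y : Subgroup M) : T.relIndex Y ≤ Nat.card Y :=
  Nat.le_of_dvd Nat.card_pos (relIndex_dvd_card T Y)

theorem rel_ne (T Y : Subgroup M) : T.relIndex Y ≠ 0 := by
  have := relIndex_dvd_card T Y
  intro h
  rw [h, zero_dvd_iff] at this
  exact Nat.card_pos.ne' this

theorem XX_nrmN (D : Dat M s g p q z) : ∀ n ∈ Nn s, ∀ x ∈ XX s z, n * x * n⁻¹ ∈ XX s z :=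
  fun n hn => XX_nrm D (D.zc n hn)

theorem XX_nrmz (D : Dat M s g p q z) : ∀ n ∈ zpowers z, ∀ x ∈ XX s z, n * x * n⁻¹ ∈ XX s z :=
  fun n hn => XX_nrm D (D.zc n (zN D hn))

/-- `B = XN` -/
def BB (D : Dat M s g p q z) : Subgroup M := psub (XX s z) (Nn s) (XX_nrmN D)

/-- `Ω = X⟨z⟩` -/
def Om (D : Dat M s g p q z) : Subgroup M := psub (XX s z) (zpowers z) (XX_nrmz D)

theorem Om_le (D : Dat M s g p q z) : Om D ≤ BB D := by
  rintro _ ⟨x, hx, n, hn, rfl⟩
  exact ⟨x, hx, n, zN D hn, rfl⟩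

theorem Om_comm (D : Dat M s g p q z) : ∀ a ∈ Om D, ∀ b ∈ Om D, a * b = b * a := by
  rintro _ ⟨x, hx, n, hn, rfl⟩ _ ⟨x', hx', n', hn', rfl⟩
  have h1 : Commute x x' := XX_comm D x hx x' hx'
  have h2 : Commute x n' := zcom D hn' (XX_z D x hx)
  have h3 : Commute x' n := zcom D hn (XX_z D x' hx')
  have h4 : Commute n n' := zcom D hn' (D.zc n (zN D hn))
  exact ((h1.mul_right h2).mul_left (h3.symm.mul_right h4)).eq

theorem Om_pow (D : Dat M s g p q z) : ∀ a ∈ Om D, a ^ p = 1 := by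
  rintro _ ⟨x, hx, n, hn, rfl⟩
  have h2 : Commute x n := zcom D hn (XX_z D x hx)
  obtain ⟨k, rfl⟩ := mem_zpowers_iff.1 hn
  rw [h2.mul_pow, XX_pow D x hx, one_mul, ← zpow_natCast, ← zpow_mul, mul_comm, zpow_mul,
    zpow_natCast, D.zp, one_zpow]

theorem Om_of (D : Dat M s g p q z) {b : M} (hb : b ∈ BB D) (h : b ^ p = 1) : b ∈ Om D := by
  obtain ⟨x, hx, n, hn, rfl⟩ := hb
  refine ⟨x, hx, n, ?_, rfl⟩
  obtain ⟨t, ht, h1⟩ := pow_mod (XX_nrmN D n hn) hx p
  rw [h] at h1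
  have h2 : n ^ p = t⁻¹ := eq_inv_of_mul_eq_one_right h1.symm
  apply ordp D hn
  have h3 : s (n ^ p) = n ^ p := by rw [map_pow, show s n = n from hn]
  apply fix_inv D.act.odd h3
  rw [h2, map_inv, XX_inv D t ht]

theorem Om_AInv (D : Dat M s g p q z) : AInv s g (Om D) :=
  psub_AInv (XX_AInv D) (fix_AInv D.act (zN D))

theorem BB_AInv (D : Dat M s g p q z) : AInv s g (BB D) :=
  psub_AInv (XX_AInv D) (Nn_AInv D.act)

theorem Om_conjN (D : Dat M s g p q z) {n : M} (hn : n ∈ Nn s) :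
    (Om D).map (MulAut.conj n).toMonoidHom = Om D := by
  apply eq_of_le_of_card_ge
  · rintro _ ⟨w, ⟨x, hx, u, hu, rfl⟩, rfl⟩
    refine ⟨n * x * n⁻¹, XX_nrmN D n hn x hx, u, hu, ?_⟩
    have h1 : n * u = u * n := zcom D hu (D.zc n hn)
    show n * (x * u) * n⁻¹ = _
    calc n * (x * u) * n⁻¹ = n * x * n⁻¹ * (n * u) * n⁻¹ := by group
      _ = n * x * n⁻¹ * u := by rw [h1]; group
  · rw [card_map_of_injective (f := (MulAut.conj n).toMonoidHom) (MulAut.conj n).injective]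

theorem XX_pg (D : Dat M s g p q z) : IsPGroup p (XX s z) := by
  intro a
  refine ⟨1, ?_⟩
  rw [pow_one]
  exact Subtype.ext (XX_pow D a.1 a.2)

theorem one_c (hFL : FLStatement.{u}) (hAFF : AFFStatement.{u}) (D : Dat M s g p q z) (m : M) :
    ((Om D).map (MulAut.conj m).toMonoidHom).relIndex (Om D) ≤ p := by
  have A := D.act
  have : Fact p.Prime := ⟨D.pp⟩
  obtain ⟨P, hP, hPA⟩ := syl_A D.pp A (BB_AInv D)
  have hNB : Nn s ≤ BB D := right_le_psub
  have hXB : XX s z ≤ BB D := left_le_psub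
  have hNP : Syl p (Nn s) (Nn s ⊓ P) := by
    have := syl_N D.pp A (BB_AInv D) hP hPA
    rw [inf_eq_left.2 hNB] at this
    exact this
  set H : Subgroup M := BB D ⊓ (BB D).map (MulAut.conj m).toMonoidHom with hH
  have h1 : ∀ c ∈ BB D, ∃ n ∈ Nn s, ∃ h ∈ H, c = n * h := by
    intro c hc
    obtain ⟨n, hn, h2⟩ := key A.odd A.ss (BB D) (BB_AInv D).1 (fun x hx => hNB hx) m hc
    refine ⟨n, hn, n⁻¹ * c, mem_inf.2 ⟨mul_mem (inv_mem (hNB hn)) hc, ?_⟩, by group⟩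
    refine ⟨m⁻¹ * (n⁻¹ * c) * m, h2, ?_⟩
    show m * (m⁻¹ * (n⁻¹ * c) * m) * m⁻¹ = _
    group
  obtain ⟨n₁, hn₁, h2⟩ := hFL M p (BB D) (Nn s) H P D.pp hNB inf_le_left h1 hP hNP
  set S : Subgroup M := P ⊓ H.map (MulAut.conj n₁).toMonoidHom with hS
  have hXP : XX s z ≤ P := by
    apply nrm_le D.pp hP hXB (XX_pg D)
    rintro _ ⟨x, hx, n, hn, rfl⟩ t ht
    have e : x * n * t * (x * n)⁻¹ = x * (n * t * n⁻¹) * x⁻¹ := by group
    rw [e]
    exact mul_mem (mul_mem hx (XX_nrmN D n hn t ht)) (inv_mem hx)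
  have hBX : ∀ b ∈ BB D, ∀ t ∈ XX s z, b * t * b⁻¹ ∈ XX s z := by
    rintro _ ⟨x, hx, n, hn, rfl⟩ t ht
    have e : x * n * t * (x * n)⁻¹ = x * (n * t * n⁻¹) * x⁻¹ := by group
    rw [e]
    exact mul_mem (mul_mem hx (XX_nrmN D n hn t ht)) (inv_mem hx)
  have hX0 : ∀ x ∈ XX s z, s x = x → x = 1 := fun x hx h =>
    fix_inv A.odd h (XX_inv D x hx)
  have hcS : ∀ w ∈ P, ∃ c ∈ Nn s ⊓ P, c * w ∈ S := by
    intro w hw
    obtain ⟨c, hc, h3⟩ := h2 w hw
    refine ⟨c, hc, mem_inf.2 ⟨mul_mem (mem_inf.1 hc).2 hw, ?_⟩⟩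
    refine ⟨_, h3, ?_⟩
    show n₁ * (n₁⁻¹ * (c * w) * n₁) * n₁⁻¹ = _
    group
  have h3 : (⊥ ⊔ (S ⊓ XX s z)).relIndex (XX s z) ≤ p := by
    refine hAFF M p P (XX s z) ⊥ (Nn s ⊓ P) S D.pp D.p2 hXP inf_le_right inf_le_left bot_le
      (fun x hx => hBX x (hP.1 hx)) ?_ ?_ ?_ (D.cyc _ inf_le_left hP.isP.to_inf_right)
      hP.isP.to_inf_right ?_ (fun w hw => hcS w (hXP hw))
    · intro x _ k hk
      rw [mem_bot] at hk ⊢
      rw [hk]; group
    · intro x hx
      rw [mem_bot]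
      exact XX_pow D x hx
    · intro x hx y hy
      rw [mem_bot]
      exact commutatorElement_eq_one_iff_mul_comm.2 (XX_comm D x hx y hy)
    · intro x hx hx'
      rw [mem_bot]
      exact hX0 x hx' (mem_inf.1 hx).1
  rw [bot_sup_eq] at h3
  set T : Subgroup M := S ⊓ Om D with hT
  have hXO : XX s z ≤ Om D := left_le_psub
  have h4 : T.relIndex (XX s z) ≤ p := by
    have e : T ⊓ XX s z = S ⊓ XX s z := by
      rw [hT, inf_assoc, inf_eq_right.2 hXO]
    rw [← inf_relIndex_right, e]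
    exact h3
  have h5 : T.relIndex (Om D) ≤ p := by
    by_cases hXS : XX s z ≤ S
    · refine (rel_le (Y := zpowers z) (T := T) (O := Om D) right_le_psub ?_).trans
        ((rel_le_card _ _).trans (card_zp D).le)
      rintro _ ⟨x, hx, n, hn, rfl⟩
      refine ⟨n, hn, ?_⟩
      have h6 : x * n = n * x := zcom D hn (XX_z D x hx)
      rw [h6, inv_mul_cancel_left]
      exact mem_inf.2 ⟨hXS hx, hXO hx⟩
    · have hSX : ¬ S ≤ XX s z := by
        intro h6
        apply hXS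
        intro x hx
        obtain ⟨c, hc, h7⟩ := hcS x (hXP hx)
        have h8 : c ∈ XX s z := by
          have := mul_mem (h6 h7) (inv_mem hx)
          rw [mul_inv_cancel_right] at this
          exact this
        have h9 := hX0 c h8 (mem_inf.1 hc).1
        rw [h9, one_mul] at h7
        exact h7
      obtain ⟨w, hwS, hwX⟩ := SetLike.not_le_iff_exists.1 hSX
      have hwP : w ∈ P := (mem_inf.1 hwS).1
      obtain ⟨x, hx, n, hn, rfl⟩ := hP.1 hwP
      have hnP : n ∈ P := by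
        have := mul_mem (inv_mem (hXP hx)) hwP
        rw [inv_mul_cancel_left] at this
        exact this
      have hz : z ∈ zpowers n := by
        apply zmem D
        · rw [zpowers_le]; exact hn
        · exact hP.isP.to_le (by rw [zpowers_le]; exact hnP)
        · intro h6
          rw [zpowers_eq_bot] at h6
          rw [h6, mul_one] at hwX
          exact hwX hx
      rw [← mem_powers_iff_mem_zpowers] at hz
      obtain ⟨k, hk⟩ := hz
      have hk' : n ^ k = z := hk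
      obtain ⟨t, ht, h6⟩ := pow_mod (XX_nrmN D n hn) hx k
      rw [hk'] at h6
      have h7 : t * z ∈ S := by
        rw [← h6]; exact pow_mem hwS k
      have h8 : t * z ∈ T := mem_inf.2 ⟨h7, ⟨t, ht, z, mem_zpowers z, rfl⟩⟩
      refine (rel_le (Y := XX s z) (T := T) (O := Om D) hXO ?_).trans h4
      rintro _ ⟨x', hx', u, hu, rfl⟩
      obtain ⟨i, rfl⟩ := mem_zpowers_iff.1 hu
      refine ⟨x' * (t ^ i)⁻¹, mul_mem hx' (inv_mem (zpow_mem ht i)), ?_⟩
      have h9 : Commute t z := XX_z D t ht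
      have h10 : (x' * (t ^ i)⁻¹)⁻¹ * (x' * z ^ i) = (t * z) ^ i := by
        rw [h9.mul_zpow]; group
      rw [h10]
      exact zpow_mem h8 i
  have h6 : T ≤ (Om D).map (MulAut.conj (n₁ * m)).toMonoidHom := by
    intro e he
    obtain ⟨h7, h8⟩ := mem_inf.1 he
    obtain ⟨h, h9, h10⟩ := (mem_inf.1 h7).2
    obtain ⟨b, hb, h11⟩ := (mem_inf.1 h9).2
    have h12 : e = (n₁ * m) * b * (n₁ * m)⁻¹ := by
      have a1 : n₁ * h * n₁⁻¹ = e := h10
      have a2 : m * b * m⁻¹ = h := h11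
      rw [← a1, ← a2]; group
    have h13 : b ^ p = 1 := by
      have := Om_pow D e h8
      rw [h12, conj_pow] at this
      exact conj_eq_one_iff.1 this
    refine ⟨b, Om_of D hb h13, ?_⟩
    show (n₁ * m) * b * (n₁ * m)⁻¹ = e
    exact h12.symm
  have h7 : ((Om D).map (MulAut.conj (n₁ * m)).toMonoidHom).relIndex (Om D) ≤ p :=
    (relIndex_le_of_le_left h6 (rel_ne _ _)).trans h5
  have h8 : (Om D).map (MulAut.conj (n₁ * m)).toMonoidHom =
      ((Om D).map (MulAut.conj m).toMonoidHom).map (MulAut.conj n₁).toMonoidHom := by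
    rw [map_map]
    congr 1
    ext x
    show (n₁ * m) * x * (n₁ * m)⁻¹ = n₁ * (m * x * m⁻¹) * n₁⁻¹
    group
  rw [← relIndex_map_map_of_injective ((Om D).map (MulAut.conj m).toMonoidHom) (Om D)
    (f := (MulAut.conj n₁).toMonoidHom) (MulAut.conj n₁).injective, ← h8, Om_conjN D hn₁]
  exact h7

end FbZ
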