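import Pool.Agent.Lib.MP_fb3619_al.H90.S2b

/-! Theorem Z, part 2. -/

namespace FbZ

open Subgroup
open scoped commutatorElement

universe u

set_option linter.unusedSectionVars false

variable {M : Type u} [Group M] [Finite M] {s g : M ≃* M} {p q : ℕ} {z : M} {P : Subgroup M}

theorem two_b (hIH : IHStatement.{u}) (hAFF : AFFStatement.{u}) (hFL : FLStatement.{u})
    (T : Two M s g p q z P) : ∀ m : M, (m * z * m⁻¹) * z = z * (m * z * m⁻¹) := by
  have D := T.dat
  have A := D.act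
  have : Fact p.Prime := ⟨D.pp⟩
  by_contra hcon
  push Not at hcon
  obtain ⟨m, hm⟩ := hcon
  have hC : AInv s g (centralizer {z}) := AInv.cen_of A D.sz
  have hNC : Nn s ≤ centralizer {z} := fun x hx => mem_centralizer_singleton_iff.2 (D.zc x hx)
  set H : Subgroup M := centralizer {z} ⊓ (centralizer {z}).map (MulAut.conj m).toMonoidHom
    with hH
  have hPC : Syl p (centralizer {z}) P := syl_mid D.pp T.syl T.PC
  have hNP : Syl p (Nn s) (Nn s ⊓ P) := by
    have := syl_N D.pp A (AInv.top) T.syl T.inv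
    rw [inf_top_eq] at this
    exact this
  have h1 : ∀ c ∈ centralizer {z}, ∃ n ∈ Nn s, ∃ h ∈ H, c = n * h := by
    intro c hc
    obtain ⟨n, hn, h2⟩ := key A.odd A.ss (centralizer {z}) hC.1 (fun x hx => hNC hx) m hc
    refine ⟨n, hn, n⁻¹ * c, mem_inf.2 ⟨mul_mem (inv_mem (hNC hn)) hc, ?_⟩, by group⟩
    refine ⟨m⁻¹ * (n⁻¹ * c) * m, h2, ?_⟩
    show m * (m⁻¹ * (n⁻¹ * c) * m) * m⁻¹ = _
    group
  obtain ⟨n₁, hn₁, h2⟩ := hFL M p (centralizer {z}) (Nn s) H P D.pp hNC inf_le_left h1 hPC hNP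
  set S : Subgroup M := P ⊓ H.map (MulAut.conj n₁).toMonoidHom with hS
  have hzS : z ∉ S := by
    intro h3
    obtain ⟨h, h4, h5⟩ := (mem_inf.1 h3).2
    obtain ⟨c, hc, h6⟩ := (mem_inf.1 h4).2
    have a1 : n₁ * h * n₁⁻¹ = z := h5
    have a2 : m * c * m⁻¹ = h := h6
    have a3 : n₁ * z = z * n₁ := D.zc n₁ hn₁
    have a4 : h = z := by
      calc h = n₁⁻¹ * (n₁ * h * n₁⁻¹) * n₁ := by group
        _ = n₁⁻¹ * (z * n₁) := by rw [a1]; group
        _ = n₁⁻¹ * (n₁ * z) := by rw [a3]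
        _ = z := by group
    rw [a4] at a2
    have a5 : c * z = z * c := mem_centralizer_singleton_iff.1 hc
    apply hm
    calc (m * z * m⁻¹) * z = m * z * m⁻¹ * (m * c * m⁻¹) := by rw [a2]
      _ = m * (z * c) * m⁻¹ := by group
      _ = m * (c * z) * m⁻¹ := by rw [a5]
      _ = (m * c * m⁻¹) * (m * z * m⁻¹) := by group
      _ = z * (m * z * m⁻¹) := by rw [a2]
  have hSN : ∀ u ∈ S, s u = u → u = 1 := by
    intro u hu hsu
    by_contra h3
    apply hzS
    have h4 : z ∈ zpowers u := by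
      apply zmem D
      · rw [zpowers_le]; exact hsu
      · exact T.syl.isP.to_le (by rw [zpowers_le]; exact (mem_inf.1 hu).1)
      · rw [Ne, zpowers_eq_bot]; exact h3
    exact (zpowers_le.2 hu) h4
  have hcS : ∀ w ∈ P, ∃ c ∈ Nn s ⊓ P, c * w ∈ S := by
    intro w hw
    obtain ⟨c, hc, h3⟩ := h2 w hw
    refine ⟨c, hc, mem_inf.2 ⟨mul_mem (mem_inf.1 hc).2 hw, ?_⟩⟩
    refine ⟨_, h3, ?_⟩
    show n₁ * (n₁⁻¹ * (c * w) * n₁) * n₁⁻¹ = _
    group
  -- the subgroup `K = rad`
  have hc := T.com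
  have hK : ∀ x ∈ P, ∀ k ∈ (rad hc p).map (P1 s P).subtype,
      x * k * x⁻¹ ∈ (rad hc p).map (P1 s P).subtype := by
    rintro x hx _ ⟨k, hk, rfl⟩
    have h3 := P1_nrm A T.inv x hx k k.2
    refine ⟨⟨x * k * x⁻¹, h3⟩, ?_, rfl⟩
    intro w
    have h4 : x⁻¹ * w * x ∈ P1 s P := by
      have := P1_nrm A T.inv x⁻¹ (inv_mem hx) w w.2
      rw [inv_inv] at this
      exact this
    have h5 := hk ⟨x⁻¹ * w * x, h4⟩
    have h6 : ⁅(⟨x * k * x⁻¹, h3⟩ : P1 s P), w⁆ = ⁅k, (⟨x⁻¹ * w * x, h4⟩ : P1 s P)⁆ := by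
      have h7 := T.PD hx (D0_le hc h5)
      apply Subtype.ext
      have h8 : ((⁅(⟨x * k * x⁻¹, h3⟩ : P1 s P), w⁆ : P1 s P) : M) =
          x * ((⁅k, (⟨x⁻¹ * w * x, h4⟩ : P1 s P)⁆ : P1 s P) : M) * x⁻¹ := by
        show x * k * x⁻¹ * w * (x * k * x⁻¹)⁻¹ * (w : M)⁻¹ =
          x * ((k : M) * (x⁻¹ * w * x) * (k : M)⁻¹ * (x⁻¹ * w * x)⁻¹) * x⁻¹
        group
      rw [h8, h7, mul_inv_cancel_right]
    rw [h6]
    exact h5
  have hcomN : commutator (P1 s P) ≤ (Nn s).subgroupOf (P1 s P) := by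
    intro a ha
    rw [mem_subgroupOf]
    exact (T.fix a).2 ha
  have h3 := hAFF M p P (P1 s P) ((rad hc p).map (P1 s P).subtype) (Nn s ⊓ P) S D.pp D.p2
    (P1_le P) inf_le_right inf_le_left (map_subtype_le _) (P1_nrm A T.inv) hK
    (by
      intro x hx
      exact ⟨(⟨x, hx⟩ : P1 s P) ^ p, rad_pow hc _, rfl⟩)
    (by
      intro x hx y hy
      exact ⟨⁅(⟨x, hx⟩ : P1 s P), ⟨y, hy⟩⁆, rad_of_comm hc (cm hc _ _), rfl⟩)
    (D.cyc _ inf_le_left T.syl.isP.to_inf_right) T.syl.isP.to_inf_right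
    (by
      intro x hx hx'
      exact ⟨⟨x, hx'⟩, rad_of_comm hc ((T.fix ⟨x, hx'⟩).1 (mem_inf.1 hx).1), rfl⟩)
    (fun w hw => hcS w (P1_le P hw))
  set SW : Subgroup (P1 s P) := S.subgroupOf (P1 s P) with hSW
  have h4 : (rad hc p ⊔ SW).map (P1 s P).subtype =
      (rad hc p).map (P1 s P).subtype ⊔ (S ⊓ P1 s P) := by
    rw [Subgroup.map_sup, hSW, subgroupOf_map_subtype]
  have h5 : (rad hc p ⊔ SW).index ≤ p := by
    have e : (rad hc p ⊔ SW) = ((rad hc p).map (P1 s P).subtype ⊔ (S ⊓ P1 s P)).subgroupOf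
        (P1 s P) := by
      rw [← h4]
      exact (comap_map_eq_self_of_injective (P1 s P).subtype_injective _).symm
    rw [e]
    exact h3
  have hSS : ∀ a ∈ SW, ∀ b ∈ SW, ⁅a, b⁆ ∈ D0 hc p := by
    intro a ha b hb
    rw [hSW, mem_subgroupOf] at ha hb
    have h6 : ((⁅a, b⁆ : P1 s P) : M) ∈ S := by
      show (a : M) * b * (a : M)⁻¹ * (b : M)⁻¹ ∈ S
      exact mul_mem (mul_mem (mul_mem ha hb) (inv_mem ha)) (inv_mem hb)
    have h7 : s (⁅a, b⁆ : P1 s P) = ((⁅a, b⁆ : P1 s P) : M) :=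
      (T.fix _).2 (cm hc a b)
    have h8 := hSN _ h6 h7
    have h9 : ⁅a, b⁆ = 1 := Subtype.ext h8
    rw [h9]
    exact one_mem _
  have h6 := sup_cn hc hSS
  -- apply IH
  have h1A := P1_AInv A T.inv
  have hact := rs_act A (P1 s P) h1A.1 h1A.2
  have hpg : IsPGroup p (P1 s P) := T.syl.isP.to_le (P1_le P)
  have hcyN : IsCyclic (commutator (P1 s P)) := by
    have hcy : IsCyclic (Nn s ⊓ P1 s P : Subgroup M) :=
      D.cyc _ inf_le_left (hpg.to_inf_right)
    let f : commutator (P1 s P) →* (Nn s ⊓ P1 s P : Subgroup M) :=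
      { toFun := fun a => ⟨a.1.1, mem_inf.2 ⟨(T.fix a.1).2 a.2, a.1.2⟩⟩
        map_one' := rfl
        map_mul' := fun _ _ => rfl }
    refine isCyclic_of_injective f ?_
    intro a b hab
    have := congrArg Subtype.val hab
    exact Subtype.ext (Subtype.ext this)
  obtain ⟨c, hcg⟩ := hcyN.exists_generator
  have hD0g : ∀ x ∈ D0 hc p, rs g (P1 s P) h1A.2 x = x := by
    intro x hx
    apply Subtype.ext
    rw [rs_coe]
    exact (A.fx _).1 ((T.fix x).2 (D0_le hc hx))
  refine hIH (P1 s P) (rs g (P1 s P) h1A.2) p q (D0 hc p) (rad hc p ⊔ SW) c D.pp D.p2 A.qp D.pq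
    hpg hact.gq (D0_normal hc) ?_ ?_ ?_ ?_ h6 h5 ?_ ?_
  · intro x hx
    rw [hD0g x hx]
    exact hx
  · intro a ha
    obtain ⟨k, hk⟩ := (mem_powers_iff_mem_zpowers.2 (hcg ⟨a, ha⟩))
    refine ⟨k, ?_⟩
    have hk' : ((c : P1 s P)) ^ k = a := congrArg Subtype.val hk
    rw [hk', inv_mul_cancel]
    exact one_mem _
  · exact ⟨c, c.2, rfl⟩
  · intro a ha w
    rw [commutatorElement_eq_one_iff_mul_comm.2 (hc a ha w)]
    exact one_mem _
  · intro x hx
    have hrg : ∀ x ∈ rad hc p, rs g (P1 s P) h1A.2 x ∈ rad hc p := by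
      intro k hk w
      obtain ⟨w, rfl⟩ := (rs g (P1 s P) h1A.2).surjective w
      have e : ⁅rs g (P1 s P) h1A.2 k, rs g (P1 s P) h1A.2 w⁆ = rs g (P1 s P) h1A.2 ⁅k, w⁆ :=
        (map_commutatorElement _ _ _).symm
      rw [e, hD0g _ (hk w)]
      exact hk w
    have hx' : x⁻¹ * rs g (P1 s P) h1A.2 x ∈ rad hc p := hx
    obtain ⟨h, hh, h7⟩ := coset_fix A.qp hact.qn hact.gq (rad hc p) hrg hx'
    have h8 : x * h ∈ commutator (P1 s P) := by
      apply (T.fix _).1
      exact (A.fx _).2 (congrArg Subtype.val h7)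
    have h9 : x ∈ rad hc p := by
      have := mul_mem (rad_of_comm hc h8) (inv_mem hh)
      rw [mul_inv_cancel_right] at this
      exact this
    exact h9
  · by_contra h7
    push Not at h7
    have h8 : commutator (P1 s P) ≤ D0 hc p := by
      rw [_root_.commutator_def, commutator_le]
      intro a _ b _
      exact h7 a b
    let φ : commutator (P1 s P) → commutator (P1 s P) := fun a => a ^ p
    have h9 : Function.Surjective φ := by
      rintro ⟨a, ha⟩
      obtain ⟨b, hb, h10⟩ := h8 ha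
      exact ⟨⟨b, hb⟩, Subtype.ext h10.symm⟩
    have h10 : Function.Injective φ := Finite.injective_iff_surjective.2 h9
    obtain ⟨zW, hz1, hz2⟩ := T.zc'
    have h11 : φ ⟨zW, hz2⟩ = φ 1 := by
      apply Subtype.ext
      apply Subtype.ext
      show (zW : M) ^ p = (1 : M) ^ p
      rw [hz1, D.zp, one_pow]
    have h12 := h10 h11
    apply D.z1
    rw [← hz1]
    exact congrArg (fun t : commutator (P1 s P) => (t.1 : M)) h12

theorem s2_proof (hLR : LRStatement.{u}) (hIH : IHStatement.{u}) (hC2 : C2Statement.{u})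
    (hAFF : AFFStatement.{u}) (hFL : FLStatement.{u}) (hS1 : S1Statement.{u}) :
    ZStatement.{u} := by
  intro M _ _ s g p q z D
  have A := D.act
  obtain ⟨P, T⟩ := exists_two hC2 hS1 D
  have hcomm := two_b hIH hAFF hFL T
  have hZc := Zs_comm hcomm
  have hZp := Zs_pow D.zp hcomm
  have hZP : Zs z ≤ P := nrm_le D.pp T.syl le_top (pg_of_pow hZp)
    (fun m _ t ht => (Zs_normal z).conj_mem t ht m)
  -- inverted elements of `P` centralise `Zs`
  have hP : ∀ w ∈ P, s w = w⁻¹ → ∀ a ∈ Zs z, w * a = a * w := by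
    intro w hw hsw
    have hwz : w * z = z * w := mem_centralizer_singleton_iff.1 (T.PC hw)
    have hw1 : w ∈ P1 s P := subset_closure ⟨hw, hsw⟩
    have h1 : Zs z ≤ centralizer {w} := by
      rw [Zs, closure_le]
      rintro _ ⟨m, rfl⟩
      show m * z * m⁻¹ ∈ centralizer {w}
      rw [mem_centralizer_singleton_iff]
      obtain ⟨n, hn, y, hy, h2, h3, h4⟩ :=
        decomp A.odd A.ss (Zs z) (Zs_AInv D).1 (Zs_mem z m)
      have hn' : n ∈ zpowers z := ordp D h2 (hZp n hn)
      have hy1 : y ∈ P1 s P := subset_closure ⟨hZP hy, h3⟩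
      set k : M := w * y * w⁻¹ * y⁻¹ with hk
      have hk1 : s k = k :=
        (T.fix ⁅(⟨w, hw1⟩ : P1 s P), ⟨y, hy1⟩⁆).2
          (commutator_mem_commutator (mem_top _) (mem_top _))
      have hk2 : k ∈ Zs z := mul_mem ((Zs_normal z).conj_mem y hy w) (inv_mem hy)
      have hk3 : k ∈ zpowers z := ordp D hk1 (hZp k hk2)
      have hkw : w * k = k * w := zcom D hk3 hwz
      have hwn : w * n = n * w := zcom D hn' hwz
      by_cases hk0 : k = 1
      · have h5 : w * y = y * w := by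
          rw [hk] at hk0
          calc w * y = (w * y * w⁻¹ * y⁻¹) * (y * w) := by group
            _ = y * w := by rw [hk0, one_mul]
        rw [h4]
        have h6 : Commute w (n * y) := (show Commute w n from hwn).mul_right h5
        exact h6.symm.eq
      · exfalso
        -- powers
        have h5 : ∀ j : ℕ, w ^ j * y * (w ^ j)⁻¹ = k ^ j * y := by
          intro j
          induction j with
          | zero => simp
          | succ j ih =>
            have h6 : w * k ^ j = k ^ j * w := ((show Commute w k from hkw).pow_right j).eq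
            have h7 : w * y = k * y * w := by rw [hk]; group
            calc w ^ (j + 1) * y * (w ^ (j + 1))⁻¹ = w * (w ^ j * y * (w ^ j)⁻¹) * w⁻¹ := by
                  rw [pow_succ']; group
              _ = (w * k ^ j) * y * w⁻¹ := by rw [ih]; group
              _ = k ^ j * (w * y) * w⁻¹ := by rw [h6]; group
              _ = k ^ (j + 1) * y := by rw [h7, pow_succ]; group
        have h6 : zpowers k = zpowers z := by
          apply eq_of_le_of_card_ge
          · rw [zpowers_le]; exact hk3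
          · rw [card_zp D, Nat.card_zpowers]
            have : Fact p.Prime := ⟨D.pp⟩
            rw [orderOf_eq_prime (hZp k hk2) hk0]
        have h7 : n⁻¹ ∈ zpowers k := by
          rw [h6]; exact inv_mem hn'
        rw [← mem_powers_iff_mem_zpowers] at h7
        obtain ⟨j, hj⟩ := h7
        have hj' : k ^ j = n⁻¹ := hj
        have hwnj : w ^ j * n = n * w ^ j := ((show Commute w n from hwn).pow_left j).eq
        have h8 : w ^ j * (m * z * m⁻¹) * (w ^ j)⁻¹ = y := by
          calc w ^ j * (m * z * m⁻¹) * (w ^ j)⁻¹ = (w ^ j * n) * y * (w ^ j)⁻¹ := by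
                rw [h4]; group
            _ = n * (w ^ j * y * (w ^ j)⁻¹) := by rw [hwnj]; group
            _ = y := by rw [h5, hj']; group
        apply D.z1
        refine no_inv A.odd (u := z) (m := (w ^ j * m)⁻¹) D.sz ?_
        have e : (w ^ j * m)⁻¹⁻¹ * z * (w ^ j * m)⁻¹ = y := by
          rw [← h8]; group
        rw [e, h3]
    intro a ha
    exact (mem_centralizer_singleton_iff.1 (h1 ha)).symm
  -- the centraliser
  have hMn : (centralizer (Zs z : Set M)).Normal := by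
    have := Zs_normal z
    infer_instance
  have hMA : AInv s g (centralizer (Zs z : Set M)) := AInv.cen A (Zs_AInv D)
  let K : Subgroup M := psub (centralizer (Zs z : Set M)) (Nn s)
    (fun n _ x hx => hMn.conj_mem x hx n)
  have hmem : ∀ x : M, (∀ a ∈ Zs z, x * a = a * x) → x ∈ centralizer (Zs z : Set M) := by
    intro x hx
    rw [mem_centralizer_iff]
    intro a ha
    exact (hx a ha).symm
  have hK : K = ⊤ := by
    apply top_of_inv A
    · exact right_le_psub
    · intro r hr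
      by_cases hrp : r = p
      · subst hrp
        exact ⟨P, T.syl, T.inv, fun x hx hxi => left_le_psub (hmem x (hP x hx hxi))⟩
      · obtain ⟨R, hR, hRA⟩ := syl_A hr A (AInv.top (s := s) (g := g))
        refine ⟨R, hR, hRA, fun x hx hxi => left_le_psub (hmem x ?_)⟩
        exact Zs_LR hLR D hcomm hr hrp hRA hR.isP hx hxi
  have hM : centralizer (Zs z : Set M) = ⊤ := by
    apply gen_top D
    intro y hy
    have h1 : y ∈ K := by rw [hK]; exact mem_top y
    obtain ⟨a, ha, n, hn, rfl⟩ := h1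
    have hsn : s n = n := hn
    have h2 : (n * s a * n⁻¹) ∈ centralizer (Zs z : Set M) := hMn.conj_mem _ (hMA.1 a ha) n
    have h3 : a * (n * s a * n⁻¹) * (n * n) = 1 := by
      rw [map_mul, hsn] at hy
      calc a * (n * s a * n⁻¹) * (n * n) = (a * n) * (s a * n) := by group
        _ = 1 := by rw [hy, mul_inv_cancel]
    have h4 : n * n ∈ centralizer (Zs z : Set M) := by
      rw [eq_inv_of_mul_eq_one_right h3]
      exact inv_mem (mul_mem ha h2)
    have h5 := rt_mem (M := M) h4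
    rw [rt_sq A.odd] at h5
    exact mul_mem ha h5
  rw [mem_center_iff]
  intro m
  have h1 : m ∈ centralizer (Zs z : Set M) := by rw [hM]; exact mem_top m
  exact (mem_centralizer_iff.1 h1 z (Zs_z z)).symm

end FbZ
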