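import Pool.Agent.Lib.MP_fb3619_al.H90.S1

/-! Theorem Z, part 2. -/

namespace FbZ

open Subgroup
open scoped commutatorElement

universe u

set_option linter.unusedSectionVars false

variable {M : Type u} [Group M] [Finite M] {s g : M ≃* M} {p q : ℕ} {z : M}

theorem syl_mid (hp : p.Prime) {P C : Subgroup M} (hP : Syl p ⊤ P) (h : P ≤ C) : Syl p C P := by
  refine ⟨h, ?_⟩
  have h1 := hP.2
  rw [card_top] at h1
  have h2 : (Nat.card M).factorization p ≤ (Nat.card C).factorization p := by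
    rw [← hp.pow_dvd_iff_le_factorization Nat.card_pos.ne', ← h1]
    exact card_dvd_of_le h
  have h3 : (Nat.card C).factorization p ≤ (Nat.card M).factorization p :=
    (Nat.factorization_le_iff_dvd Nat.card_pos.ne' Nat.card_pos.ne').2
      (card_subgroup_dvd_card C) p
  rw [h1, le_antisymm h2 h3]

/-! class 2: commutators are multiplicative -/
section cl2

variable {W : Type u} [Group W] (hc : ∀ a ∈ commutator W, ∀ w : W, a * w = w * a)

include hc

theorem cm (a b : W) : ⁅a, b⁆ ∈ commutator W :=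
  commutator_mem_commutator (mem_top a) (mem_top b)

theorem cmul_right (a b c : W) : ⁅a, b * c⁆ = ⁅a, b⁆ * ⁅a, c⁆ := by
  have h := hc _ (cm hc a c) b
  have e : ⁅a, b * c⁆ = ⁅a, b⁆ * (b * ⁅a, c⁆ * b⁻¹) := by
    simp only [commutatorElement_def]; group
  rw [e, ← h]; group

theorem cmul_left (a b c : W) : ⁅a * b, c⁆ = ⁅a, c⁆ * ⁅b, c⁆ := by
  have h := hc _ (cm hc b c) a
  have e : ⁅a * b, c⁆ = (a * ⁅b, c⁆ * a⁻¹) * ⁅a, c⁆ := by
    simp only [commutatorElement_def]; group
  rw [e, ← h, mul_inv_cancel_right]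
  exact hc _ (cm hc b c) _

theorem cpow_left (a c : W) (k : ℕ) : ⁅a ^ k, c⁆ = ⁅a, c⁆ ^ k := by
  induction k with
  | zero => simp
  | succ k ih => rw [pow_succ, cmul_left hc, ih, pow_succ]

/-- `p`-th powers of the derived subgroup -/
def D0 (p : ℕ) : Subgroup W where
  carrier := {x | ∃ a ∈ commutator W, x = a ^ p}
  one_mem' := ⟨1, one_mem _, (one_pow _).symm⟩
  mul_mem' := by
    rintro _ _ ⟨a, ha, rfl⟩ ⟨b, hb, rfl⟩
    exact ⟨a * b, mul_mem ha hb, ((show Commute a b from hc a ha b).mul_pow p).symm⟩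
  inv_mem' := by
    rintro _ ⟨a, ha, rfl⟩
    exact ⟨a⁻¹, inv_mem ha, (inv_pow a p).symm⟩

theorem D0_le : D0 hc p ≤ commutator W := by
  rintro _ ⟨a, ha, rfl⟩
  exact pow_mem ha p

theorem D0_normal : (D0 hc p).Normal := by
  constructor
  intro a ha w
  rw [← hc a (D0_le hc ha) w, mul_inv_cancel_right]
  exact ha

def rad (p : ℕ) : Subgroup W where
  carrier := {x | ∀ w : W, ⁅x, w⁆ ∈ D0 hc p}
  one_mem' := by
    intro w
    rw [commutatorElement_one_left]
    exact one_mem _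
  mul_mem' := by
    intro a b ha hb w
    rw [cmul_left hc]
    exact mul_mem (ha w) (hb w)
  inv_mem' := by
    intro a ha w
    have h := cmul_left hc a⁻¹ a w
    rw [inv_mul_cancel, commutatorElement_one_left] at h
    rw [eq_inv_of_mul_eq_one_left h.symm]
    exact inv_mem (ha w)

def cn (p : ℕ) (a : W) : Subgroup W where
  carrier := {x | ⁅a, x⁆ ∈ D0 hc p}
  one_mem' := by
    show ⁅a, 1⁆ ∈ D0 hc p
    rw [commutatorElement_one_right]
    exact one_mem _
  mul_mem' := by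
    intro x y hx hy
    show ⁅a, x * y⁆ ∈ D0 hc p
    rw [cmul_right hc]
    exact mul_mem hx hy
  inv_mem' := by
    intro x hx
    show ⁅a, x⁻¹⁆ ∈ D0 hc p
    have h := cmul_right hc a x⁻¹ x
    rw [inv_mul_cancel, commutatorElement_one_right] at h
    rw [eq_inv_of_mul_eq_one_left h.symm]
    exact inv_mem hx

theorem cn_symm {a b : W} (h : b ∈ cn hc p a) : a ∈ cn hc p b := by
  show ⁅b, a⁆ ∈ D0 hc p
  rw [← commutatorElement_inv]
  exact inv_mem h

theorem rad_of_comm {a : W} (ha : a ∈ commutator W) : a ∈ rad hc p := by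
  intro w
  rw [commutatorElement_eq_one_iff_mul_comm.2 (hc a ha w)]
  exact one_mem _

theorem rad_pow (a : W) : a ^ p ∈ rad hc p := by
  intro w
  rw [cpow_left hc]
  exact ⟨_, cm hc a w, rfl⟩

theorem sup_cn {S : Subgroup W} (hS : ∀ a ∈ S, ∀ b ∈ S, ⁅a, b⁆ ∈ D0 hc p) :
    ∀ a ∈ rad hc p ⊔ S, ∀ b ∈ rad hc p ⊔ S, ⁅a, b⁆ ∈ D0 hc p := by
  have h1 : ∀ a ∈ rad hc p, rad hc p ⊔ S ≤ cn hc p a := fun a ha b _ => ha b
  have h2 : ∀ a ∈ S, rad hc p ⊔ S ≤ cn hc p a := by
    intro a ha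
    apply sup_le
    · intro b hb
      exact cn_symm hc (hb a)
    · intro b hb
      exact hS a ha b hb
  intro a ha b hb
  have h3 : rad hc p ⊔ S ≤ cn hc p b := by
    apply sup_le
    · intro a ha
      exact cn_symm hc (h1 a ha hb)
    · intro a ha
      exact cn_symm hc (h2 a ha hb)
  exact cn_symm hc (h3 ha)

end cl2

end FbZ
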