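import Pool.Agent.Lib.MP_fb3619_al.H90.S2a

/-! Theorem Z, part 2. -/

namespace FbZ

open Subgroup
open scoped commutatorElement

universe u

set_option linter.unusedSectionVars false

variable {M : Type u} [Group M] [Finite M] {s g : M ≃* M} {p q : ℕ} {z : M}

/-- `P₁` -/
def P1 (s : M ≃* M) (P : Subgroup M) : Subgroup M := closure {x | x ∈ P ∧ s x = x⁻¹}

theorem P1_le (P : Subgroup M) : P1 s P ≤ P := by
  rw [P1, closure_le]
  exact fun x hx => hx.1

theorem P1_AInv (A : Act s g q) {P : Subgroup M} (hP : AInv s g P) : AInv s g (P1 s P) := by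
  apply AInv.closure
  · rintro x ⟨h1, h2⟩
    exact ⟨hP.1 x h1, by rw [A.ss, h2, inv_inv]⟩
  · rintro x ⟨h1, h2⟩
    exact ⟨hP.2 x h1, by rw [A.sg, h2, map_inv]⟩

theorem P1_nrm (A : Act s g q) {P : Subgroup M} (hP : AInv s g P) :
    ∀ x ∈ P, ∀ w ∈ P1 s P, x * w * x⁻¹ ∈ P1 s P := by
  intro x hx w hw
  obtain ⟨n, hn, y, hy, h1, h2, rfl⟩ := decomp A.odd A.ss P hP.1 hx
  have hy' : y ∈ P1 s P := subset_closure ⟨hy, h2⟩
  have e : n * y * w * (n * y)⁻¹ = n * (y * w * y⁻¹) * n⁻¹ := by group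
  rw [e]
  have h3 : y * w * y⁻¹ ∈ P1 s P := mul_mem (mul_mem hy' hw) (inv_mem hy')
  have : P1 s P ≤ (P1 s P).comap (MulAut.conj n).toMonoidHom := by
    conv_lhs => rw [P1]
    rw [closure_le]
    rintro t ⟨h4, h5⟩
    refine subset_closure ⟨mul_mem (mul_mem hn h4) (inv_mem hn), ?_⟩
    show s (n * t * n⁻¹) = (n * t * n⁻¹)⁻¹
    rw [map_mul, map_mul, map_inv, h1, h5]; group
  exact this h3

/-- the setting of part 2 -/
structure Two (M : Type u) [Group M] [Finite M] (s g : M ≃* M) (p q : ℕ) (z : M)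
    (P : Subgroup M) : Prop where
  dat : Dat M s g p q z
  syl : Syl p ⊤ P
  inv : AInv s g P
  com : ∀ a ∈ commutator (P1 s P), ∀ w : P1 s P, a * w = w * a
  fix : ∀ n : P1 s P, s n = n ↔ n ∈ commutator (P1 s P)
  nab : ∃ x y : P1 s P, x * y ≠ y * x

theorem exists_two (hC2 : C2Statement.{u}) (hS1 : S1Statement.{u}) (D : Dat M s g p q z) :
    ∃ P, Two M s g p q z P := by
  have A := D.act
  have : Fact p.Prime := ⟨D.pp⟩
  have h0 := hS1 M s g p q z D
  unfold AB at h0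
  push Not at h0
  obtain ⟨T, hTA, hTp, x, hx, y, hy, sx, sy, hne⟩ := h0
  obtain ⟨P, hP, hPA, hTP⟩ := syl_above D.pp A (AInv.top (s := s) (g := g)) hTA le_top hTp
  have h1A := P1_AInv A hPA
  have hact := rs_act A (P1 s P) h1A.1 h1A.2
  have hpg : IsPGroup p (P1 s P) := hP.isP.to_le (P1_le P)
  have hcy : IsCyclic (Nn s ⊓ P1 s P : Subgroup M) :=
    D.cyc _ inf_le_left (hpg.to_inf_right)
  have hcy2 : IsCyclic (Nn (rs s (P1 s P) h1A.1)) := by
    let f : Nn (rs s (P1 s P) h1A.1) →* (Nn s ⊓ P1 s P : Subgroup M) :=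
      { toFun := fun a => ⟨a.1.1, mem_inf.2 ⟨congrArg Subtype.val a.2, a.1.2⟩⟩
        map_one' := rfl
        map_mul' := fun _ _ => rfl }
    refine isCyclic_of_injective f ?_
    intro a b hab
    have := congrArg Subtype.val hab
    exact Subtype.ext (Subtype.ext this)
  have hgen : closure {x : P1 s P | rs s (P1 s P) h1A.1 x = x⁻¹} = ⊤ := by
    rw [eq_top_iff]
    have h2 := closure_closure_coe_preimage (k := {x | x ∈ P ∧ s x = x⁻¹})
    have h3 : closure ((↑) ⁻¹' {x | x ∈ P ∧ s x = x⁻¹} : Set (P1 s P)) = ⊤ := h2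
    rw [← h3]
    apply Subgroup.closure_mono
    intro x hx
    exact Subtype.ext hx.2
  obtain ⟨h2, h3⟩ := hC2 (P1 s P) (rs s (P1 s P) h1A.1) (rs g (P1 s P) h1A.2) p q hact D.pp D.p2
    D.pq hpg hcy2 hgen
  refine ⟨P, D, hP, hPA, h2, fun n => ?_, ?_⟩
  · rw [← h3 n, Subtype.ext_iff, rs_coe]
  · refine ⟨⟨x, subset_closure ⟨hTP hx, sx⟩⟩, ⟨y, subset_closure ⟨hTP hy, sy⟩⟩, fun h => ?_⟩
    exact hne (congrArg Subtype.val h)

variable {P : Subgroup M}

theorem Two.zc' (T : Two M s g p q z P) : ∃ zW : P1 s P, (zW : M) = z ∧ zW ∈ commutator (P1 s P) := by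
  have D := T.dat
  have hpg : IsPGroup p (P1 s P) := T.syl.isP.to_le (P1_le P)
  have h1 : z ∈ (commutator (P1 s P)).map (P1 s P).subtype := by
    apply zmem D
    · rintro _ ⟨a, ha, rfl⟩
      exact (T.fix a).2 ha
    · exact hpg.to_le (map_subtype_le _)
    · intro h2
      obtain ⟨x, y, hxy⟩ := T.nab
      apply hxy
      rw [← commutatorElement_eq_one_iff_mul_comm]
      have h3 : ((⁅x, y⁆ : P1 s P) : M) ∈ (commutator (P1 s P)).map (P1 s P).subtype :=
        ⟨⁅x, y⁆, commutator_mem_commutator (mem_top x) (mem_top y), rfl⟩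
      rw [h2, mem_bot] at h3
      exact Subtype.ext h3
  obtain ⟨a, ha, h2⟩ := h1
  exact ⟨a, h2, ha⟩

theorem Two.zP1 (T : Two M s g p q z P) : ∀ w ∈ P1 s P, w * z = z * w := by
  obtain ⟨zW, rfl, h2⟩ := T.zc'
  intro w hw
  exact (congrArg Subtype.val (T.com zW h2 ⟨w, hw⟩)).symm

theorem Two.PC (T : Two M s g p q z P) : P ≤ centralizer {z} := by
  intro x hx
  rw [mem_centralizer_singleton_iff]
  obtain ⟨n, hn, y, hy, h1, h2, rfl⟩ := decomp T.dat.act.odd T.dat.act.ss P T.inv.1 hx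
  have h3 : Commute n z := T.dat.zc n h1
  have h4 : Commute y z := T.zP1 y (subset_closure ⟨hy, h2⟩)
  exact (h3.mul_left h4).eq

/-- `P` centralises the derived subgroup of `P₁` -/
theorem Two.PD (T : Two M s g p q z P) {x : M} (hx : x ∈ P) {a : P1 s P}
    (ha : a ∈ commutator (P1 s P)) : x * a = a * x := by
  have D := T.dat
  obtain ⟨n, hn, y, hy, h1, h2, rfl⟩ := decomp D.act.odd D.act.ss P T.inv.1 hx
  have hcyc : IsCyclic (Nn s ⊓ P : Subgroup M) := D.cyc _ inf_le_left T.syl.isP.to_inf_right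
  have h3 : Commute n (a : M) :=
    congrArg Subtype.val (isMulCommutative_iff.1 hcyc.commutative
      ⟨n, mem_inf.2 ⟨h1, hn⟩⟩ ⟨a, mem_inf.2 ⟨(T.fix a).2 ha, P1_le P a.2⟩⟩)
  have h4 : Commute y (a : M) :=
    (congrArg Subtype.val (T.com a ha ⟨y, subset_closure ⟨hy, h2⟩⟩)).symm
  exact (h3.mul_left h4).eq

end FbZ
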