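import Mathlib

/-! Theorem Z (finite groups of odd order with two commuting automorphisms), basic facts. -/

namespace FbZ

open Subgroup

universe u

set_option linter.unusedSectionVars false
set_option linter.style.haveILetI false

theorem fpc {α : Type*} [Finite α] {r : ℕ} (hr : r.Prime) (f : α → α)
    (hf : ∀ a, f^[r] a = a) : Nat.card α ≡ Nat.card {a // f a = a} [MOD r] := by
  classical
  have := Fintype.ofFinite α
  have : Fact r.Prime := ⟨hr⟩
  let F : Function.End α := f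
  have h0 : ∀ n : ℕ, ∀ a, (F ^ n) a = f^[n] a := by
    intro n
    induction n with
    | zero => intro a; rfl
    | succ n ih =>
      intro a
      rw [pow_succ, Function.iterate_succ_apply]
      exact ih (f a)
  have h1 : F ^ r ^ 1 = 1 := by
    funext a
    rw [pow_one]
    exact (h0 r a).trans (hf a)
  have h2 := Equiv.Perm.card_fixedPoints_modEq (p := r) (n := 1) h1
  rw [Nat.card_eq_fintype_card, Nat.card_eq_fintype_card]
  have h3 : Fintype.card (Function.fixedPoints F) = Fintype.card {a // f a = a} :=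
    Fintype.card_congr (Equiv.refl _)
  rw [← h3]
  exact h2

theorem fp {α : Type*} [Finite α] {r : ℕ} (hr : r.Prime) (hα : ¬ r ∣ Nat.card α) (f : α → α)
    (hf : ∀ a, f^[r] a = a) : ∃ a, f a = a := by
  by_contra hc
  push Not at hc
  have h0 : Nat.card {a // f a = a} = 0 :=
    Nat.card_eq_zero.2 (Or.inl ⟨fun a => hc a.1 a.2⟩)
  have h1 := fpc hr f hf
  rw [h0] at h1
  exact hα ((Nat.modEq_zero_iff_dvd).1 h1)

variable {M : Type u} [Group M] [Finite M]

/-- square root in a group of odd order -/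
noncomputable def rt (x : M) : M := x ^ ((Nat.card M + 1) / 2)

theorem rt_mul (odd : Odd (Nat.card M)) (x : M) : rt x * rt x = x := by
  obtain ⟨k, hk⟩ := odd
  have h1 : (Nat.card M + 1) / 2 = k + 1 := by omega
  rw [rt, ← pow_add, h1]
  have h2 : k + 1 + (k + 1) = Nat.card M + 1 := by omega
  rw [h2, pow_succ, pow_card_eq_one', one_mul]

theorem rt_sq (odd : Odd (Nat.card M)) (x : M) : rt (x * x) = x := by
  have h : rt (x * x) = rt x * rt x := by
    rw [rt, rt, ← pow_two, ← pow_mul, ← pow_add]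
    congr 1
    omega
  rw [h, rt_mul odd]

theorem sq_inj (odd : Odd (Nat.card M)) {x y : M} (h : x * x = y * y) : x = y := by
  rw [← rt_sq odd x, h, rt_sq odd y]

theorem rt_mem {H : Subgroup M} {x : M} (h : x ∈ H) : rt x ∈ H := pow_mem h _

theorem rt_map (f : M →* M) (x : M) : f (rt x) = rt (f x) := by
  rw [rt, rt, map_pow]

theorem rt_inv (x : M) : rt x⁻¹ = (rt x)⁻¹ := by rw [rt, rt, inv_pow]

theorem sq_comm (odd : Odd (Nat.card M)) {c u : M} (h : (c * c) * u = u * (c * c)) :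
    c * u = u * c := by
  have h1 : Commute (c * c) u := h
  have h2 : Commute (rt (c * c)) u := h1.pow_left _
  rw [rt_sq odd] at h2
  exact h2

/-- if `c` inverts `u` in a group of odd order then `u = 1` -/
theorem inv_one (odd : Odd (Nat.card M)) {c u : M} (h : c⁻¹ * u * c = u⁻¹) : u = 1 := by
  have h0 : u * c = c * u⁻¹ := by
    rw [← h]; group
  have h1 : u⁻¹ * c = c * u := by
    have := congrArg (fun t => u⁻¹ * t * u) h0
    simp only [inv_mul_cancel_left, mul_assoc, inv_mul_cancel, mul_one] at this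
    exact this.symm
  have h2 : (c * c) * u = u * (c * c) := by
    rw [mul_assoc, ← h1, ← mul_assoc, ← h0, mul_assoc]
  have h3 := sq_comm odd h2
  have h4 : u⁻¹ = u := by
    rw [← h, mul_assoc, ← h3, inv_mul_cancel_left]
  have h5 : u * u = 1 * 1 := by
    rw [one_mul]
    calc u * u = u⁻¹ * u := by rw [h4]
      _ = 1 := inv_mul_cancel u
  exact sq_inj odd h5

variable {s g : M ≃* M}

theorem decomp (odd : Odd (Nat.card M)) (ss : ∀ x, s (s x) = x) (H : Subgroup M)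
    (hH : ∀ x ∈ H, s x ∈ H) {x : M} (hx : x ∈ H) :
    ∃ n ∈ H, ∃ y ∈ H, s n = n ∧ s y = y⁻¹ ∧ x = n * y := by
  set w : M := (s x)⁻¹ * x with hw
  have hwH : w ∈ H := mul_mem (inv_mem (hH x hx)) hx
  have hsw : s w = w⁻¹ := by
    rw [hw, map_mul, map_inv, ss]; group
  have hy : rt w ∈ H := rt_mem hwH
  have hsy : s (rt w) = (rt w)⁻¹ := by
    have := rt_map (s : M →* M) w
    rw [MonoidHom.coe_coe, hsw, rt_inv] at this
    exact this
  refine ⟨x * (rt w)⁻¹, mul_mem hx (inv_mem hy), rt w, hy, ?_, hsy, by group⟩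
  have h1 : s x = x * w⁻¹ := by rw [hw]; group
  rw [map_mul, map_inv, hsy, inv_inv, h1]
  have h2 : w = rt w * rt w := (rt_mul odd w).symm
  calc x * w⁻¹ * rt w = x * (rt w * rt w)⁻¹ * rt w := by rw [← h2]
    _ = x * (rt w)⁻¹ := by group

/-- no fixed element is conjugate to an inverted one -/
theorem no_inv (odd : Odd (Nat.card M)) {u m : M} (hu : s u = u)
    (h : s (m⁻¹ * u * m) = (m⁻¹ * u * m)⁻¹) : u = 1 := by
  have h1 : (s m)⁻¹ * u * s m = m⁻¹ * u⁻¹ * m := by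
    rw [map_mul, map_mul, map_inv, hu] at h
    rw [h]; group
  apply inv_one odd (c := s m * m⁻¹)
  calc (s m * m⁻¹)⁻¹ * u * (s m * m⁻¹) = m * ((s m)⁻¹ * u * s m) * m⁻¹ := by group
    _ = m * (m⁻¹ * u⁻¹ * m) * m⁻¹ := by rw [h1]
    _ = u⁻¹ := by group

/-- fusion of central fixed elements -/
theorem fus (odd : Odd (Nat.card M)) (ss : ∀ x, s (s x) = x) {z m : M} (hz : s z = z)
    (hzc : ∀ n, s n = n → n * z = z * n) (h : s (m⁻¹ * z * m) = m⁻¹ * z * m) :
    m⁻¹ * z * m = z := by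
  obtain ⟨n, -, y, -, hn, hy, rfl⟩ := decomp odd ss ⊤ (fun x _ => mem_top (s x)) (mem_top m)
  have h1 : (n * y)⁻¹ * z * (n * y) = y⁻¹ * z * y := by
    calc (n * y)⁻¹ * z * (n * y) = y⁻¹ * (n⁻¹ * (z * n)) * y := by group
      _ = y⁻¹ * (n⁻¹ * (n * z)) * y := by rw [hzc n hn]
      _ = y⁻¹ * z * y := by group
  rw [h1] at h ⊢
  rw [map_mul, map_mul, map_inv, hy, hz, inv_inv] at h
  have h2 : (y * y) * z = z * (y * y) := by
    calc (y * y) * z = y * (y * z * y⁻¹) * y := by group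
      _ = y * (y⁻¹ * z * y) * y := by rw [h]
      _ = z * (y * y) := by group
  have h3 := sq_comm odd h2
  rw [mul_assoc, ← h3, inv_mul_cancel_left]

/-- KEY LEMMA -/
theorem key (odd : Odd (Nat.card M)) (ss : ∀ x, s (s x) = x) (B : Subgroup M)
    (hB : ∀ x ∈ B, s x ∈ B) (hN : ∀ x, s x = x → x ∈ B) (m : M) {b : M} (hb : b ∈ B) :
    ∃ n, s n = n ∧ m⁻¹ * (n⁻¹ * b) * m ∈ B := by
  -- first for inverted m
  have H : ∀ y, s y = y⁻¹ → ∀ b ∈ B, ∃ n, s n = n ∧ y⁻¹ * (n⁻¹ * b) * y ∈ B := by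
    intro y hy b hb
    obtain ⟨n, -, t, -, hn, ht, he⟩ :=
      decomp odd ss ⊤ (fun x _ => mem_top (s x)) (mem_top (b * y))
    refine ⟨n, hn, ?_⟩
    set b1 : M := n⁻¹ * b with hb1
    have hb1B : b1 ∈ B := mul_mem (inv_mem (hN n hn)) hb
    have h1 : b1 * y = t := by rw [hb1, mul_assoc, he]; group
    have h2 : s b1 = y⁻¹ * b1⁻¹ * y := by
      have h3 : s b1 * y⁻¹ = (b1 * y)⁻¹ := by rw [← hy, ← map_mul, h1, ht]
      calc s b1 = s b1 * y⁻¹ * y := by group
        _ = (b1 * y)⁻¹ * y := by rw [h3]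
        _ = y⁻¹ * b1⁻¹ * y := by group
    have h4 : (s b1)⁻¹ ∈ B := inv_mem (hB _ hb1B)
    have h5 : (s b1)⁻¹ = y⁻¹ * b1 * y := by rw [h2]; group
    rw [h5] at h4
    exact h4
  obtain ⟨n0, -, y0, -, hn0, hy0, rfl⟩ :=
    decomp odd ss ⊤ (fun x _ => mem_top (s x)) (mem_top m)
  have hb' : n0⁻¹ * b * n0 ∈ B := mul_mem (mul_mem (inv_mem (hN _ hn0)) hb) (hN _ hn0)
  obtain ⟨n, hn, h1⟩ := H y0 hy0 _ hb'
  refine ⟨n0 * n * n0⁻¹, by rw [map_mul, map_mul, map_inv, hn0, hn], ?_⟩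
  have h2 : (n0 * y0)⁻¹ * ((n0 * n * n0⁻¹)⁻¹ * b) * (n0 * y0)
      = y0⁻¹ * (n⁻¹ * (n0⁻¹ * b * n0)) * y0 := by group
  rw [h2]
  exact h1

/-- fixed points in invariant cosets -/
theorem coset_fix {f : M ≃* M} {r : ℕ} (hr : r.Prime) (hrM : ¬ r ∣ Nat.card M)
    (hf : ∀ x, (⇑f)^[r] x = x) (H : Subgroup M) (hH : ∀ x ∈ H, f x ∈ H) {x : M}
    (hx : x⁻¹ * f x ∈ H) : ∃ h ∈ H, f (x * h) = x * h := by
  let φ : H → H := fun h => ⟨x⁻¹ * f x * f h.1, mul_mem hx (hH _ h.2)⟩
  have h0 : ∀ h : H, x * (φ h : M) = f (x * h.1) := by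
    intro h
    show x * (x⁻¹ * f x * f h.1) = f (x * h.1)
    rw [map_mul]; group
  have h1 : ∀ k : ℕ, ∀ h : H, x * ((φ^[k] h : H) : M) = (⇑f)^[k] (x * h.1) := by
    intro k
    induction k with
    | zero => intro h; rfl
    | succ k ih =>
      intro h
      rw [Function.iterate_succ_apply, Function.iterate_succ_apply, ih, h0]
  have h2 : ∀ h : H, φ^[r] h = h := by
    intro h
    apply Subtype.ext
    have := h1 r h
    rw [hf] at this
    exact mul_left_cancel this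
  have h3 : ¬ r ∣ Nat.card H := fun h => hrM (h.trans (Subgroup.card_subgroup_dvd_card H))
  obtain ⟨h, hh⟩ := fp hr h3 φ h2
  refine ⟨h.1, h.2, ?_⟩
  rw [← h0 h, hh]

end FbZ
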