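import Pool.Agent.Lib.MP_fb3619_al.H90.ZA

/-! Theorem Z: invariant Sylow subgroups. -/

namespace FbZ

open Subgroup

universe u

set_option linter.unusedSectionVars false

variable {M : Type u} [Group M] [Finite M] {s g : M ≃* M} {p q : ℕ}

structure Act (s g : M ≃* M) (q : ℕ) : Prop where
  odd : Odd (Nat.card M)
  ss : ∀ x, s (s x) = x
  gq : ∀ x, (⇑g)^[q] x = x
  sg : ∀ x, s (g x) = g (s x)
  qp : q.Prime
  qn : ¬ q ∣ Nat.card M
  fx : ∀ x, s x = x ↔ g x = x

def AInv (s g : M ≃* M) (H : Subgroup M) : Prop := (∀ x ∈ H, s x ∈ H) ∧ (∀ x ∈ H, g x ∈ H)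

def Nn (s : M ≃* M) : Subgroup M where
  carrier := {x | s x = x}
  one_mem' := map_one s
  mul_mem' := by
    intro a b ha hb
    show s (a * b) = a * b
    rw [map_mul, show s a = a from ha, show s b = b from hb]
  inv_mem' := by
    intro a ha
    show s a⁻¹ = a⁻¹
    rw [map_inv, show s a = a from ha]

theorem mem_Nn {x : M} : x ∈ Nn s ↔ s x = x := Iff.rfl

def Syl (p : ℕ) (H P : Subgroup M) : Prop :=
  P ≤ H ∧ Nat.card P = p ^ (Nat.card H).factorization p

theorem Syl.isP {H P : Subgroup M} (h : Syl p H P) : IsPGroup p P := IsPGroup.of_card h.2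

theorem iter_mem {f : M ≃* M} {H : Subgroup M} (hH : ∀ x ∈ H, f x ∈ H) (k : ℕ) {x : M}
    (hx : x ∈ H) : (⇑f)^[k] x ∈ H := by
  induction k generalizing x with
  | zero => exact hx
  | succ k ih => rw [Function.iterate_succ_apply]; exact ih (hH _ hx)

theorem mem_of_map {f : M ≃* M} {r : ℕ} (hr : 0 < r) (hf : ∀ x, (⇑f)^[r] x = x) {H : Subgroup M}
    (hH : ∀ x ∈ H, f x ∈ H) {x : M} (hx : f x ∈ H) : x ∈ H := by
  have h1 := iter_mem hH (r - 1) hx
  rw [← Function.iterate_succ_apply, Nat.succ_eq_add_one, Nat.sub_add_cancel hr, hf] at h1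
  exact h1

theorem Act.two (A : Act s g q) : ∀ x, (⇑s)^[2] x = x := fun x => A.ss x

theorem Act.n2 (A : Act s g q) : ¬ 2 ∣ Nat.card M := by
  have := A.odd
  rw [← even_iff_two_dvd]
  exact Nat.not_even_iff_odd.2 this

theorem AInv.s_iff (A : Act s g q) {H : Subgroup M} (h : AInv s g H) {x : M} :
    s x ∈ H ↔ x ∈ H :=
  ⟨mem_of_map (by norm_num) A.two h.1, h.1 x⟩

theorem AInv.g_iff (A : Act s g q) {H : Subgroup M} (h : AInv s g H) {x : M} :
    g x ∈ H ↔ x ∈ H :=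
  ⟨mem_of_map A.qp.pos A.gq h.2, h.2 x⟩

theorem map_eq_of {f : M ≃* M} {r : ℕ} (hr : 0 < r) (hf : ∀ x, (⇑f)^[r] x = x)
    {H : Subgroup M} (hH : ∀ x ∈ H, f x ∈ H) {x : M} (hx : x ∈ H) : ∃ y ∈ H, f y = x := by
  obtain ⟨y, rfl⟩ := f.surjective x
  exact ⟨y, mem_of_map hr hf hH hx, rfl⟩

theorem AInv.inf {H K : Subgroup M} (h : AInv s g H) (k : AInv s g K) : AInv s g (H ⊓ K) :=
  ⟨fun x hx => ⟨h.1 x hx.1, k.1 x hx.2⟩, fun x hx => ⟨h.2 x hx.1, k.2 x hx.2⟩⟩

theorem AInv.top : AInv s g (⊤ : Subgroup M) := ⟨fun _ _ => mem_top _, fun _ _ => mem_top _⟩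

theorem closure_inv {f : M ≃* M} {S : Set M} (h : ∀ x ∈ S, f x ∈ closure S) :
    ∀ x ∈ closure S, f x ∈ closure S := by
  intro x hx
  have : closure S ≤ (closure S).comap (f : M →* M) := by
    rw [closure_le]
    intro y hy
    exact h y hy
  exact this hx

theorem AInv.closure {S : Set M} (h1 : ∀ x ∈ S, s x ∈ S) (h2 : ∀ x ∈ S, g x ∈ S) :
    AInv s g (Subgroup.closure S) :=
  ⟨closure_inv fun x hx => subset_closure (h1 x hx),
    closure_inv fun x hx => subset_closure (h2 x hx)⟩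

theorem AInv.sup {H K : Subgroup M} (h : AInv s g H) (k : AInv s g K) : AInv s g (H ⊔ K) := by
  have key : ∀ f : M ≃* M, (∀ x ∈ H, f x ∈ H) → (∀ x ∈ K, f x ∈ K) →
      ∀ x ∈ H ⊔ K, f x ∈ H ⊔ K := by
    intro f h1 h2 x hx
    have : H ⊔ K ≤ (H ⊔ K).comap (f : M →* M) :=
      sup_le (fun y hy => (le_sup_left : H ≤ H ⊔ K) (h1 y hy))
        (fun y hy => (le_sup_right : K ≤ H ⊔ K) (h2 y hy))
    exact this hx
  exact ⟨key s h.1 k.1, key g h.2 k.2⟩

theorem nrm_inv {f : M ≃* M} {r : ℕ} (hr : 0 < r) (hf : ∀ x, (⇑f)^[r] x = x)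
    {T : Subgroup M} (hT : ∀ x ∈ T, f x ∈ T) :
    ∀ x ∈ normalizer (T : Set M), f x ∈ normalizer (T : Set M) := by
  intro x hx
  rw [mem_normalizer_iff] at hx ⊢
  intro t
  obtain ⟨t, rfl⟩ := f.surjective t
  rw [← map_inv, ← map_mul, ← map_mul]
  constructor
  · intro h
    exact hT _ ((hx t).1 (mem_of_map hr hf hT h))
  · intro h
    exact hT _ ((hx t).2 (mem_of_map hr hf hT h))

theorem AInv.nrm (A : Act s g q) {T : Subgroup M} (hT : AInv s g T) :
    AInv s g (normalizer (T : Set M)) :=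
  ⟨nrm_inv (by norm_num) A.two hT.1, nrm_inv A.qp.pos A.gq hT.2⟩

theorem cen_inv {f : M ≃* M} {S : Set M} (hS : ∀ x ∈ S, ∃ y ∈ S, f y = x) :
    ∀ x ∈ centralizer S, f x ∈ centralizer S := by
  intro x hx
  rw [mem_centralizer_iff] at hx ⊢
  intro t ht
  obtain ⟨y, hy, rfl⟩ := hS t ht
  rw [← map_mul, ← map_mul, hx y hy]

theorem AInv.cen (A : Act s g q) {T : Subgroup M} (hT : AInv s g T) :
    AInv s g (centralizer (T : Set M)) :=
  ⟨cen_inv fun _ hx => map_eq_of (by norm_num) A.two hT.1 hx,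
    cen_inv fun _ hx => map_eq_of A.qp.pos A.gq hT.2 hx⟩

theorem AInv.cen_of (A : Act s g q) {z : M} (hz : s z = z) :
    AInv s g (centralizer {z}) := by
  have hg : g z = z := (A.fx z).1 hz
  refine ⟨cen_inv ?_, cen_inv ?_⟩
  · intro x hx
    rw [Set.mem_singleton_iff] at hx
    exact ⟨z, rfl, by rw [hx, hz]⟩
  · intro x hx
    rw [Set.mem_singleton_iff] at hx
    exact ⟨z, rfl, by rw [hx, hg]⟩

theorem AInv.commutator {H K : Subgroup M} (h : AInv s g H) (k : AInv s g K) :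
    AInv s g ⁅H, K⁆ := by
  have key : ∀ f : M ≃* M, (∀ x ∈ H, f x ∈ H) → (∀ x ∈ K, f x ∈ K) →
      ∀ x ∈ ⁅H, K⁆, f x ∈ ⁅H, K⁆ := by
    intro f h1 h2
    have : ⁅H, K⁆ ≤ (⁅H, K⁆).comap (f : M →* M) := by
      rw [commutator_le]
      intro a ha b hb
      rw [mem_comap, MonoidHom.coe_coe, map_commutatorElement]
      exact commutator_mem_commutator (h1 a ha) (h2 b hb)
    intro x hx
    exact this hx
  exact ⟨key s h.1 k.1, key g h.2 k.2⟩

theorem card_sub (H P : Subgroup M) (h : P ≤ H) : Nat.card (P.subgroupOf H) = Nat.card P :=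
  Nat.card_congr (subgroupOfEquivOfLe h).toEquiv

theorem card_mp (H : Subgroup M) (P : Subgroup H) : Nat.card (P.map H.subtype) = Nat.card P :=
  card_map_of_injective H.subtype_injective

/-- Sylow subgroups of the group `H` correspond to `Syl p H` -/
noncomputable def sylEquiv [Fact p.Prime] (H : Subgroup M) :
    {P : Subgroup M // Syl p H P} ≃ Sylow p H where
  toFun P := Sylow.ofCard (P.1.subgroupOf H) (by rw [card_sub H P.1 P.2.1, P.2.2])
  invFun P := ⟨P.toSubgroup.map H.subtype, map_subtype_le _, by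
    rw [card_mp]
    exact P.card_eq_multiplicity⟩
  left_inv P := by
    apply Subtype.ext
    show (P.1.subgroupOf H).map H.subtype = P.1
    rw [subgroupOf_map_subtype, inf_eq_left.2 P.2.1]
  right_inv P := by
    apply Sylow.ext
    show (P.toSubgroup.map H.subtype).subgroupOf H = P.toSubgroup
    exact comap_map_eq_self_of_injective H.subtype_injective _

theorem syl_ex (hp : p.Prime) (H : Subgroup M) : ∃ P, Syl p H P := by
  have : Fact p.Prime := ⟨hp⟩
  obtain ⟨P⟩ := (inferInstance : Nonempty (Sylow p H))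
  exact ⟨((sylEquiv H).symm P).1, ((sylEquiv H).symm P).2⟩

theorem syl_conj (hp : p.Prime) {H P T : Subgroup M} (hP : Syl p H P) (hT : T ≤ H)
    (hTp : IsPGroup p T) : ∃ h ∈ H, ∀ t ∈ T, h * t * h⁻¹ ∈ P := by
  have : Fact p.Prime := ⟨hp⟩
  have h1 : IsPGroup p (T.subgroupOf H) :=
    hTp.of_equiv (subgroupOfEquivOfLe hT).symm
  obtain ⟨Q, hQ⟩ := h1.exists_le_sylow
  obtain ⟨h, hh⟩ := MulAction.exists_smul_eq H Q (sylEquiv H ⟨P, hP⟩)
  refine ⟨h.1, h.2, fun t ht => ?_⟩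
  have h2 : (⟨t, hT ht⟩ : H) ∈ Q := hQ (by rw [mem_subgroupOf]; exact ht)
  have h3 : h * ⟨t, hT ht⟩ * h⁻¹ ∈ (h • Q : Sylow p H) := by
    show _ ∈ (h • Q : Sylow p H).toSubgroup
    rw [Sylow.coe_subgroup_smul]
    exact ⟨⟨t, hT ht⟩, h2, rfl⟩
  rw [hh] at h3
  have h4 : h * ⟨t, hT ht⟩ * h⁻¹ ∈ P.subgroupOf H := h3
  rw [mem_subgroupOf] at h4
  exact h4

theorem syl_dvd (hp : p.Prime) (H : Subgroup M) :
    Nat.card {P : Subgroup M // Syl p H P} ∣ Nat.card M := by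
  have : Fact p.Prime := ⟨hp⟩
  rw [Nat.card_congr (sylEquiv H)]
  obtain ⟨P⟩ := (inferInstance : Nonempty (Sylow p H))
  exact (P.card_dvd_index.trans P.index_dvd_card).trans (card_subgroup_dvd_card H)

theorem syl_map {f : M ≃* M} {H P : Subgroup M} (hH : ∀ x ∈ H, f x ∈ H) (h : Syl p H P) :
    Syl p H (P.map (f : M →* M)) := by
  refine ⟨?_, ?_⟩
  · rintro _ ⟨x, hx, rfl⟩
    exact hH x (h.1 hx)
  · rw [card_map_of_injective (f := (f : M →* M)) f.injective, h.2]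

/-- an invariant Sylow subgroup for one automorphism -/
theorem syl_fix (hp : p.Prime) {f : M ≃* M} {r : ℕ} (hr : r.Prime) (hrM : ¬ r ∣ Nat.card M)
    (hf : ∀ x, (⇑f)^[r] x = x) {H : Subgroup M} (hH : ∀ x ∈ H, f x ∈ H) :
    ∃ P, Syl p H P ∧ ∀ x ∈ P, f x ∈ P := by
  let φ : {P : Subgroup M // Syl p H P} → {P : Subgroup M // Syl p H P} :=
    fun P => ⟨P.1.map (f : M →* M), syl_map hH P.2⟩
  have h1 : ∀ k : ℕ, ∀ P, ∀ x, x ∈ P.1 → (⇑f)^[k] x ∈ (φ^[k] P).1 := by
    intro k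
    induction k with
    | zero => intro P x hx; exact hx
    | succ k ih =>
      intro P x hx
      rw [Function.iterate_succ_apply, Function.iterate_succ_apply]
      exact ih (φ P) (f x) ⟨x, hx, rfl⟩
  have h2 : ∀ P, φ^[r] P = P := by
    intro P
    apply Subtype.ext
    symm
    apply eq_of_le_of_card_ge
    · intro x hx
      have := h1 r P x hx
      rw [hf] at this
      exact this
    · rw [(φ^[r] P).2.2, P.2.2]
  obtain ⟨P, hP⟩ := fp hr (fun h => hrM (h.trans (syl_dvd hp H))) φ h2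
  refine ⟨P.1, P.2, fun x hx => ?_⟩
  have h3 : f x ∈ (φ P).1 := ⟨x, hx, rfl⟩
  rw [hP] at h3
  exact h3

theorem conj_back {P Q : Subgroup M} {n : M} (h : ∀ t ∈ Q, n * t * n⁻¹ ∈ P)
    (hc : Nat.card Q = Nat.card P) : ∀ t ∈ P, n⁻¹ * t * n ∈ Q := by
  have h1 : Q.map (MulAut.conj n).toMonoidHom = P := by
    apply eq_of_le_of_card_ge
    · rintro _ ⟨t, ht, rfl⟩
      exact h t ht
    · rw [card_map_of_injective (f := (MulAut.conj n).toMonoidHom) (MulAut.conj n).injective, hc]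
  intro t ht
  rw [← h1] at ht
  obtain ⟨u, hu, rfl⟩ := ht
  have : n⁻¹ * (MulAut.conj n).toMonoidHom u * n = u := by
    show n⁻¹ * (n * u * n⁻¹) * n = u
    group
  rw [this]
  exact hu

/-- two `f`-invariant Sylow subgroups are conjugate by a fixed element -/
theorem syl_tr (hp : p.Prime) {f : M ≃* M} {r : ℕ} (hr : r.Prime) (hrM : ¬ r ∣ Nat.card M)
    (hf : ∀ x, (⇑f)^[r] x = x) {H P Q : Subgroup M} (hH : ∀ x ∈ H, f x ∈ H)
    (hP : Syl p H P) (hQ : Syl p H Q) (fP : ∀ x ∈ P, f x ∈ P) (fQ : ∀ x ∈ Q, f x ∈ Q) :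
    ∃ n ∈ H, f n = n ∧ ∀ t ∈ Q, n * t * n⁻¹ ∈ P := by
  obtain ⟨h, hh, h1⟩ := syl_conj hp hP hQ.1 hQ.isP
  have h2 := conj_back h1 (by rw [hQ.2, hP.2])
  -- the subgroup of elements of `H` normalising `Q`
  have hK : ∀ x ∈ H ⊓ normalizer (Q : Set M), f x ∈ H ⊓ normalizer (Q : Set M) :=
    fun x hx => ⟨hH x hx.1, nrm_inv hr.pos hf fQ x hx.2⟩
  have h3 : h⁻¹ * f h ∈ H ⊓ normalizer (Q : Set M) := by
    refine mem_inf.2 ⟨mul_mem (inv_mem hh) (hH h hh), ?_⟩
    rw [mem_normalizer_iff]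
    have a1 : ∀ t ∈ Q, h⁻¹ * f h * t * (h⁻¹ * f h)⁻¹ ∈ Q := by
      intro t ht
      obtain ⟨t, ht', rfl⟩ := map_eq_of hr.pos hf fQ ht
      have e : h⁻¹ * f h * f t * (h⁻¹ * f h)⁻¹ = h⁻¹ * f (h * t * h⁻¹) * h := by
        rw [map_mul, map_mul, map_inv]; group
      rw [e]
      exact h2 _ (fP _ (h1 t ht'))
    intro t
    refine ⟨a1 t, fun ht => ?_⟩
    have a2 := conj_back (P := Q) (Q := Q) (n := h⁻¹ * f h) a1 rfl _ ht
    have e : (h⁻¹ * f h)⁻¹ * (h⁻¹ * f h * t * (h⁻¹ * f h)⁻¹) * (h⁻¹ * f h) = t := by group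
    rw [e] at a2
    exact a2
  obtain ⟨k, hk, h4⟩ := coset_fix hr hrM hf _ hK h3
  refine ⟨h * k, mul_mem hh hk.1, h4, fun t ht => ?_⟩
  have e : h * k * t * (h * k)⁻¹ = h * (k * t * k⁻¹) * h⁻¹ := by group
  rw [e]
  exact h1 _ ((mem_normalizer_iff.1 hk.2 t).1 ht)

/-- a `g`-invariant Sylow subgroup is `s`-invariant -/
theorem syl_AInv (hp : p.Prime) (A : Act s g q) {H P : Subgroup M} (hH : AInv s g H)
    (hP : Syl p H P) (gP : ∀ x ∈ P, g x ∈ P) : AInv s g P := by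
  refine ⟨?_, gP⟩
  have hQ := syl_map hH.1 hP
  have gQ : ∀ x ∈ P.map (s : M →* M), g x ∈ P.map (s : M →* M) := by
    rintro _ ⟨x, hx, rfl⟩
    refine ⟨g x, gP x hx, ?_⟩
    exact A.sg x
  obtain ⟨n, hn, hgn, h1⟩ := syl_tr hp A.qp A.qn A.gq hH.2 hP hQ gP gQ
  have hsn : s n = n := (A.fx n).2 hgn
  have h2 : ∀ t ∈ P, n * s t * n⁻¹ ∈ P := fun t ht => h1 _ ⟨t, ht, rfl⟩
  have h3 : ∀ t ∈ P, (n * n) * t * (n * n)⁻¹ ∈ P := by
    intro t ht
    have a := h2 _ (h2 t ht)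
    rw [map_mul, map_mul, map_inv, hsn, A.ss] at a
    have e : n * (n * t * n⁻¹) * n⁻¹ = (n * n) * t * (n * n)⁻¹ := by group
    rw [e] at a
    exact a
  have h4 : n * n ∈ normalizer (P : Set M) := by
    rw [mem_normalizer_iff]
    intro t
    refine ⟨h3 t, fun ht => ?_⟩
    have a2 := conj_back (P := P) (Q := P) (n := n * n) h3 rfl _ ht
    have e : (n * n)⁻¹ * (n * n * t * (n * n)⁻¹) * (n * n) = t := by group
    rw [e] at a2
    exact a2
  have h5 : n ∈ normalizer (P : Set M) := by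
    have := rt_mem (M := M) h4
    rw [rt_sq A.odd] at this
    exact this
  intro x hx
  have h6 := h2 x hx
  have h7 := (mem_normalizer_iff.1 h5 (s x)).2 h6
  exact h7

theorem syl_A (hp : p.Prime) (A : Act s g q) {H : Subgroup M} (hH : AInv s g H) :
    ∃ P, Syl p H P ∧ AInv s g P := by
  obtain ⟨P, hP, gP⟩ := syl_fix hp A.qp A.qn A.gq hH.2
  exact ⟨P, hP, syl_AInv hp A hH hP gP⟩

/-- an invariant `p`-subgroup lies in an invariant Sylow subgroup -/
theorem syl_above (hp : p.Prime) (A : Act s g q) {H T : Subgroup M} (hH : AInv s g H)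
    (hT : AInv s g T) (hTH : T ≤ H) (hTp : IsPGroup p T) :
    ∃ P, Syl p H P ∧ AInv s g P ∧ T ≤ P := by
  have : Fact p.Prime := ⟨hp⟩
  let S := {U : Subgroup M // AInv s g U ∧ T ≤ U ∧ U ≤ H ∧ IsPGroup p U}
  have : Nonempty S := ⟨⟨T, hT, le_rfl, hTH, hTp⟩⟩
  obtain ⟨U, hU⟩ := Finite.exists_max (fun U : S => Nat.card U.1)
  obtain ⟨U, hUA, hTU, hUH, hUp⟩ := U
  refine ⟨U, ⟨hUH, ?_⟩, hUA, hTU⟩
  obtain ⟨n, hn⟩ := IsPGroup.iff_card.1 hUp
  have hle : n ≤ (Nat.card H).factorization p := by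
    have h1 : p ^ n ∣ Nat.card H := by
      rw [← hn]
      exact card_dvd_of_le hUH
    exact (hp.pow_dvd_iff_le_factorization Nat.card_pos.ne').1 h1
  rcases Nat.eq_or_lt_of_le hle with he | hlt
  · rw [hn, he]
  · exfalso
    have h1 : p ^ (n + 1) ∣ Nat.card H :=
      (hp.pow_dvd_iff_le_factorization Nat.card_pos.ne').2 hlt
    have h2 := Sylow.prime_pow_dvd_card_normalizer h1 (H := U.subgroupOf H)
      (by rw [card_sub H U hUH, hn])
    set K : Subgroup M := H ⊓ normalizer (U : Set M) with hK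
    have hKA : AInv s g K := hH.inf (hUA.nrm A)
    have h3 : Nat.card (normalizer ((U.subgroupOf H : Subgroup H) : Set H)) ∣ Nat.card K := by
      have e : (normalizer ((U.subgroupOf H : Subgroup H) : Set H)).map H.subtype ≤ K := by
        rintro _ ⟨x, hx, rfl⟩
        refine mem_inf.2 ⟨x.2, ?_⟩
        rw [mem_normalizer_iff]
        intro t
        constructor
        · intro ht
          have := (mem_normalizer_iff.1 hx ⟨t, hUH ht⟩).1 (by rw [mem_subgroupOf]; exact ht)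
          rw [mem_subgroupOf] at this
          exact this
        · intro ht
          have htH : t ∈ H := by
            have := mul_mem (mul_mem (inv_mem x.2) (hUH ht)) x.2
            have e : (x.1)⁻¹ * (H.subtype x * t * (H.subtype x)⁻¹) * x.1 = t := by
              show (x.1)⁻¹ * (x.1 * t * (x.1)⁻¹) * x.1 = t
              group
            rw [e] at this
            exact this
          have := (mem_normalizer_iff.1 hx ⟨t, htH⟩).2 (by rw [mem_subgroupOf]; exact ht)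
          rw [mem_subgroupOf] at this
          exact this
      rw [← card_mp H]
      exact card_dvd_of_le e
    have h4 : p ^ (n + 1) ∣ Nat.card K := h2.trans h3
    obtain ⟨P, hP, hPA⟩ := syl_A hp A hKA (p := p)
    have hUK : U ≤ K := le_inf hUH le_normalizer
    obtain ⟨k, hk, h5⟩ := syl_conj hp hP hUK hUp
    have hUP : U ≤ P := by
      intro x hx
      have h6 : k⁻¹ * x * k ∈ U := by
        have := (mem_normalizer_iff.1 (inv_mem hk.2) x).1 hx
        rw [inv_inv] at this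
        exact this
      have h7 := h5 _ h6
      have e : k * (k⁻¹ * x * k) * k⁻¹ = x := by group
      rw [e] at h7
      exact h7
    have h6 := hU ⟨P, hPA, hTU.trans hUP, hP.1.trans inf_le_left, hP.isP⟩
    have h7 : Nat.card P ≤ Nat.card U := h6
    rw [hP.2, hn] at h7
    have h8 : n + 1 ≤ (Nat.card K).factorization p :=
      (hp.pow_dvd_iff_le_factorization Nat.card_pos.ne').1 h4
    have h9 : p ^ (n + 1) ≤ p ^ n := (Nat.pow_le_pow_right hp.pos h8).trans h7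
    exact absurd h9 (not_le.2 (Nat.pow_lt_pow_right hp.one_lt (Nat.lt_succ_self n)))

/-- the fixed points of an invariant Sylow subgroup are Sylow in the fixed points -/
theorem syl_N (hp : p.Prime) (A : Act s g q) {H P : Subgroup M} (hH : AInv s g H)
    (hP : Syl p H P) (PA : AInv s g P) : Syl p (Nn s ⊓ H) (Nn s ⊓ P) := by
  have : Fact p.Prime := ⟨hp⟩
  obtain ⟨Q, hQ⟩ := syl_ex hp (Nn s ⊓ H)
  have hQA : AInv s g Q := by
    refine ⟨fun x hx => ?_, fun x hx => ?_⟩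
    · rw [show s x = x from (hQ.1 hx).1]; exact hx
    · rw [show g x = x from (A.fx x).1 (hQ.1 hx).1]; exact hx
  obtain ⟨P0, hP0, hP0A, hQP⟩ := syl_above hp A hH hQA (hQ.1.trans inf_le_right) hQ.isP
  obtain ⟨n, hn, hgn, h1⟩ := syl_tr hp A.qp A.qn A.gq hH.2 hP hP0 PA.2 hP0A.2
  have hsn : s n = n := (A.fx n).2 hgn
  refine ⟨le_inf inf_le_left (inf_le_right.trans hP.1), ?_⟩
  have hPp : IsPGroup p (Nn s ⊓ P : Subgroup M) := hP.isP.to_inf_right
  obtain ⟨k, hk⟩ := IsPGroup.iff_card.1 hPp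
  have h2 : k ≤ (Nat.card (Nn s ⊓ H : Subgroup M)).factorization p := by
    have h3 : p ^ k ∣ Nat.card (Nn s ⊓ H : Subgroup M) := by
      rw [← hk]
      exact card_dvd_of_le (le_inf inf_le_left (inf_le_right.trans hP.1))
    exact (hp.pow_dvd_iff_le_factorization Nat.card_pos.ne').1 h3
  have h4 : Nat.card Q ≤ Nat.card (Nn s ⊓ P : Subgroup M) := by
    rw [← card_map_of_injective (f := (MulAut.conj n).toMonoidHom) (K := Q)
      (MulAut.conj n).injective]
    apply card_le_of_le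
    rintro _ ⟨t, ht, rfl⟩
    refine ⟨?_, h1 t (hQP ht)⟩
    show s (n * t * n⁻¹) = n * t * n⁻¹
    rw [map_mul, map_mul, map_inv, hsn, show s t = t from (hQ.1 ht).1]
  rw [hQ.2, hk] at h4
  have h5 := (Nat.pow_le_pow_iff_right hp.one_lt).1 h4
  rw [hk, le_antisymm h2 h5]

/-- if a subgroup contains a Sylow subgroup for every prime it is everything -/
theorem top_of_syl {K : Subgroup M} (h : ∀ r : ℕ, r.Prime → ∃ R, Syl r ⊤ R ∧ R ≤ K) :
    K = ⊤ := by
  apply eq_top_of_card_eq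
  apply Nat.dvd_antisymm (card_subgroup_dvd_card K)
  rw [← Nat.factorization_le_iff_dvd Nat.card_pos.ne' Nat.card_pos.ne']
  intro r
  by_cases hr : r.Prime
  · obtain ⟨R, hR, hRK⟩ := h r hr
    have h1 : r ^ (Nat.card (⊤ : Subgroup M)).factorization r ∣ Nat.card K := by
      rw [← hR.2]
      exact card_dvd_of_le hRK
    rw [card_top] at h1
    exact (hr.pow_dvd_iff_le_factorization Nat.card_pos.ne').1 h1
  · rw [Nat.factorization_eq_zero_of_not_prime _ hr]
    exact Nat.zero_le _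

end FbZ
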