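import Pool.Agent.Lib.MP_fb3619_al.H90.ZB

/-! Theorem Z: interface.  Paper: finding 4602.
All row statements; a row may use other statements as hypotheses. -/

namespace FbZ

open Subgroup
open scoped commutatorElement

universe u

/-- the hypotheses of Theorem Z -/
structure Dat (M : Type u) [Group M] [Finite M] (s g : M ≃* M) (p q : ℕ) (z : M) : Prop where
  act : Act s g q
  gen : closure {x : M | s x = x⁻¹} = ⊤
  pp : p.Prime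
  p2 : p ≠ 2
  pq : p < q
  sz : s z = z
  zp : z ^ p = 1
  z1 : z ≠ 1
  zc : ∀ n : M, s n = n → n * z = z * n
  cyc : ∀ T : Subgroup M, T ≤ Nn s → IsPGroup p T → IsCyclic T

/-- inverted elements of invariant `p`-subgroups commute -/
def AB (M : Type u) [Group M] (s g : M ≃* M) (p : ℕ) : Prop :=
  ∀ T : Subgroup M, AInv s g T → IsPGroup p T → ∀ x ∈ T, ∀ y ∈ T, s x = x⁻¹ → s y = y⁻¹ →
    x * y = y * x

/-- (0.8) -/
def LRStatement : Prop :=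
  ∀ (M : Type u) [Group M] [Finite M] (s g : M ≃* M) (p q r : ℕ) (z : M) (Ψ R : Subgroup M),
    Act s g q → q ≠ 2 → p.Prime → r.Prime → r ≠ p → AInv s g Ψ →
    (∀ a ∈ Ψ, ∀ b ∈ Ψ, a * b = b * a) → (∀ a ∈ Ψ, a ^ p = 1) → z ∈ Ψ → s z = z →
    (∀ a ∈ Ψ, s a = a → a ∈ zpowers z) → (∀ n : M, s n = n → n * z = z * n) →
    AInv s g R → IsPGroup r R → (∀ x ∈ R, ∀ a ∈ Ψ, x * a * x⁻¹ ∈ Ψ) →
    ∀ x ∈ R, s x = x⁻¹ → ∀ a ∈ Ψ, x * a = a * x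

/-- (0.9) -/
def IHStatement : Prop :=
  ∀ (W : Type u) [Group W] [Finite W] (g : W ≃* W) (p q : ℕ) (D H : Subgroup W) (c : W),
    p.Prime → p ≠ 2 → q.Prime → p < q → IsPGroup p W → (∀ x, (⇑g)^[q] x = x) →
    D.Normal → (∀ x ∈ D, g x ∈ D) →
    (∀ a ∈ commutator W, ∃ k : ℕ, (c ^ k)⁻¹ * a ∈ D) → c ^ p ∈ D →
    (∀ a ∈ commutator W, ∀ w : W, ⁅a, w⁆ ∈ D) →
    (∀ a ∈ H, ∀ b ∈ H, ⁅a, b⁆ ∈ D) → H.index ≤ p →
    (∀ x : W, (∀ w : W, ⁅x⁻¹ * g x, w⁆ ∈ D) → ∀ w : W, ⁅x, w⁆ ∈ D) →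
    (∃ x w : W, ⁅x, w⁆ ∉ D) → False

/-- (0.10) -/
def C2Statement : Prop :=
  ∀ (W : Type u) [Group W] [Finite W] (s g : W ≃* W) (p q : ℕ),
    Act s g q → p.Prime → p ≠ 2 → p < q → IsPGroup p W → IsCyclic (Nn s) →
    closure {x : W | s x = x⁻¹} = ⊤ →
    (∀ a ∈ commutator W, ∀ w : W, a * w = w * a) ∧ (∀ n : W, s n = n ↔ n ∈ commutator W)

/-- (0.7), the additive core: a transitive affine map of a finite elementary abelian `p`-group -/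
def AFEStatement : Prop :=
  ∀ (E : Type u) [CommGroup E] [Finite E] (p k : ℕ) (α : E →* E) (w : E),
    p.Prime → p ≠ 2 → (∀ e : E, e ^ p = 1) → (∀ e : E, (⇑α)^[p ^ k] e = e) →
    (∀ e : E, ∃ j : ℕ, (fun x => α x * w)^[j] 1 = e) → Nat.card E ≤ p

/-- (0.7) -/
def AFFStatement : Prop :=
  ∀ (M : Type u) [Group M] [Finite M] (p : ℕ) (P W K C S : Subgroup M),
    p.Prime → p ≠ 2 → W ≤ P → C ≤ P → S ≤ P → K ≤ W →
    (∀ x ∈ P, ∀ w ∈ W, x * w * x⁻¹ ∈ W) → (∀ x ∈ P, ∀ k ∈ K, x * k * x⁻¹ ∈ K) →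
    (∀ x ∈ W, x ^ p ∈ K) → (∀ x ∈ W, ∀ y ∈ W, ⁅x, y⁆ ∈ K) →
    IsCyclic C → IsPGroup p C → (∀ x ∈ C, x ∈ W → x ∈ K) →
    (∀ w ∈ W, ∃ c ∈ C, c * w ∈ S) → (K ⊔ (S ⊓ W)).relIndex W ≤ p

/-- (0.6b) -/
def FLStatement : Prop :=
  ∀ (M : Type u) [Group M] [Finite M] (p : ℕ) (C N H P : Subgroup M),
    p.Prime → N ≤ C → H ≤ C → (∀ c ∈ C, ∃ n ∈ N, ∃ h ∈ H, c = n * h) →
    Syl p C P → Syl p N (N ⊓ P) →
    ∃ n ∈ N, ∀ w ∈ P, ∃ c ∈ N ⊓ P, n⁻¹ * (c * w) * n ∈ H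

/-- transfer -/
def TRStatement : Prop :=
  ∀ (M : Type u) [Group M] [Finite M] (p : ℕ) (z : M) (P Q : Subgroup M),
    p.Prime → Q ≤ P → (∀ x ∈ P, ∀ y ∈ Q, x * y * x⁻¹ ∈ Q) →
    (∀ a ∈ P, ∀ b ∈ P, ⁅a, b⁆ ∈ Q) → z ∈ P → z ∉ Q → z ^ p = 1 → ¬ p ∣ P.index →
    (∀ (k : ℕ) (m : M), m⁻¹ * z ^ k * m ∈ P → m⁻¹ * z ^ k * m = z ^ k) →
    z ∉ commutator M

/-- passing to the quotient by an invariant normal inverted `p`-subgroup -/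
def QUOStatement : Prop :=
  ∀ (M : Type u) [Group M] [Finite M] (s g : M ≃* M) (p q : ℕ) (z : M) (X : Subgroup M),
    Dat M s g p q z → AB M s g p → X.Normal → AInv s g X → IsPGroup p X →
    (∀ x ∈ X, s x = x⁻¹) → X ≠ ⊥ →
    ∃ (M' : Type u) (_ : Group M') (_ : Finite M') (s' g' : M' ≃* M') (z' : M'),
      Nat.card M' < Nat.card M ∧ Dat M' s' g' p q z' ∧ AB M' s' g' p

/-- (1d): a family of conjugate elementary abelian subgroups with intersections of small index -/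
def HYPStatement : Prop :=
  ∀ (M : Type u) [Group M] [Finite M] (p : ℕ) (O : Subgroup M),
    p.Prime → (∀ a ∈ O, ∀ b ∈ O, a * b = b * a) → (∀ a ∈ O, a ^ p = 1) →
    (∀ m : M, (O.map (MulAut.conj m).toMonoidHom).relIndex O ≤ p) →
    (∀ m : M, ∀ a ∈ O, ∀ b ∈ O, a * (m * b * m⁻¹) = (m * b * m⁻¹) * a) ∨
      O.normalCore.relIndex O ≤ p

/-- step 1 -/
def S1Statement : Prop :=
  ∀ (M : Type u) [Group M] [Finite M] (s g : M ≃* M) (p q : ℕ) (z : M),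
    Dat M s g p q z → ¬ AB M s g p

/-- THEOREM Z -/
def ZStatement : Prop :=
  ∀ (M : Type u) [Group M] [Finite M] (s g : M ≃* M) (p q : ℕ) (z : M),
    Dat M s g p q z → z ∈ center M

end FbZ
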