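import Pool.Agent.Lib.MP_fb3619_al.H90.S2
import Pool.Agent.Lib.MP_fb3619_al.ZT.Afe
import Pool.Agent.Lib.MP_fb3619_al.ZT.Aff
import Pool.Agent.Lib.MP_fb3619_al.ZT.C2
import Pool.Agent.Lib.MP_fb3619_al.ZT.Fl
import Pool.Agent.Lib.MP_fb3619_al.ZT.Hyp
import Pool.Agent.Lib.MP_fb3619_al.ZT.Ih
import Pool.Agent.Lib.MP_fb3619_al.ZT.Quo
import Pool.Agent.Lib.MP_fb3619_al.ZT.Tr

/-! THEOREM Z from Lemma R. -/

namespace FbZ

universe u

theorem z_of_lr (hLR : LRStatement.{u}) : ZStatement.{u} :=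
  s2_proof hLR ih_proof (c2_proof ih_proof) (aff_proof afe_proof) fl_proof
    (s1_proof hLR (aff_proof afe_proof) fl_proof tr_proof quo_proof hyp_proof)

end FbZ
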